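import Pool.Agent.K9h59.CF.Arc

set_option autoImplicit false

/-! The mean square of the correlation with a quadratic polynomial over a set with a small kernel. -/

namespace Pool.Agent.K9h59.CF

open Finset
open Pool.Agent.H807R2.Dav (ee norm_ee)
open Pool.Agent.R460.SB (cvs)
open Pool.Agent.R460.GS (ApAt)

/-- the conditions for the set -/
structure Kern (κ K : ℝ) (N M : ℕ) (D : Finset ℤ) : Prop where
  all : ∀ τ : ℝ, ∑ t ∈ range M, ‖SS D (τ + t / M)‖ ≤ K * (D.card * (N : ℝ) ^ κ)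
  maj : ∀ R : ℕ, 1 ≤ R → K * (R : ℝ) ^ 2 ≤ N → ∀ τ : ℝ,
    ∑ t ∈ mjr M N R, ‖SS D (τ + t / M)‖ ≤ K * ((1 + Real.log N) * (D.card * (R : ℝ) ^ (2 * κ)))

/-- the part of the correlation from the frequencies of a set -/
noncomputable def Pt (α γ : ℤ) (G : ℕ → ℂ) (y N M : ℕ) (P : Finset ℕ) (n : ℤ) : ℂ :=
  ∑ t ∈ P, (Gh G N ((t : ℝ) / M) * Tq α γ y ((t : ℝ) / M)) * ee (n * (-((t : ℝ) / M)))

lemma part0 {α γ : ℤ} {G : ℕ → ℂ} {y N M : ℕ} {D : Finset ℤ} (P : Finset ℕ) {W : ℝ}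
    (hW : ∀ τ : ℝ, ∑ t ∈ P, ‖SS D (τ + t / M)‖ ≤ W) :
    ∑ n ∈ D, ‖Pt α γ G y N M P n‖ ^ 2 ≤ W * ∑ t ∈ P, ‖Gh G N ((t : ℝ) / M)‖ ^ 2 * ‖Tq α γ y ((t : ℝ) / M)‖ ^ 2 := by
  unfold Pt
  refine (schur P D (fun t => Gh G N ((t : ℝ) / M) * Tq α γ y ((t : ℝ) / M)) (fun t => -((t : ℝ) / M)) W ?_).trans
    (le_of_eq ?_)
  · intro i _
    refine le_trans (le_of_eq ?_) (hW (-((i : ℝ) / M)))
    refine sum_congr rfl fun j _ => ?_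
    rw [sub_neg_eq_add]
  · congr 1
    refine sum_congr rfl fun t _ => ?_
    rw [norm_mul, mul_pow]

lemma Gh_mean {G : ℕ → ℂ} {N M : ℕ} (hNM : N < M) {B : ℝ} (hG : ∀ n ∈ Icc 1 N, ‖G n‖ ≤ B) :
    ∑ t ∈ range M, ‖Gh G N ((t : ℝ) / M)‖ ^ 2 ≤ M * (N * B ^ 2) := by
  have h1 := Pool.Agent.Y697.GJ.pars_gen (M := M) (by omega) ((Icc 1 N).image (fun n : ℕ => (n : ℤ))) (by
    intro k hk k' hk' hd
    rw [mem_image] at hk hk'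
    obtain ⟨a, ha, rfl⟩ := hk
    obtain ⟨b, hb, rfl⟩ := hk'
    rw [mem_Icc] at ha hb
    have h2 : |(a : ℤ) - b| < M := by
      rw [abs_lt]
      constructor <;> omega
    have := Int.eq_zero_of_abs_lt_dvd hd h2
    omega) (fun k => G k.toNat)
  have h2 : ∀ t : ℕ, ∑ k ∈ (Icc 1 N).image (fun n : ℕ => (n : ℤ)), G k.toNat * ee ((k : ℝ) * ((t : ℝ) / M)) =
      Gh G N ((t : ℝ) / M) := by
    intro t
    rw [sum_image (fun a _ b _ h => by exact_mod_cast h)]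
    unfold Gh
    refine sum_congr rfl fun n _ => ?_
    rw [Int.toNat_natCast, Int.cast_natCast]
  rw [sum_congr rfl fun t _ => by rw [h2]] at h1
  rw [h1]
  apply mul_le_mul_of_nonneg_left _ (Nat.cast_nonneg _)
  rw [sum_image (fun a _ b _ h => by exact_mod_cast h)]
  calc ∑ n ∈ Icc 1 N, ‖G ((n : ℤ)).toNat‖ ^ 2 ≤ ∑ _n ∈ Icc 1 N, B ^ 2 := by
        refine sum_le_sum fun n hn => ?_
        rw [Int.toNat_natCast]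
        exact pow_le_pow_left₀ (norm_nonneg _) (hG n hn) 2
    _ = N * B ^ 2 := by rw [sum_const, Nat.card_Icc, nsmul_eq_mul, Nat.add_sub_cancel]

lemma part1 {α γ : ℤ} {G : ℕ → ℂ} {y N M : ℕ} {D : Finset ℤ} (P : Finset ℕ) (hP : P ⊆ range M) {W Θ B : ℝ}
    (hW : ∀ τ : ℝ, ∑ t ∈ P, ‖SS D (τ + t / M)‖ ≤ W) (hW0 : 0 ≤ W) (hΘ0 : 0 ≤ Θ)
    (hΘ : ∀ t ∈ P, ‖Tq α γ y ((t : ℝ) / M)‖ ^ 2 ≤ Θ) (hNM : N < M) (hG : ∀ n ∈ Icc 1 N, ‖G n‖ ≤ B) :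
    ∑ n ∈ D, ‖Pt α γ G y N M P n‖ ^ 2 ≤ W * (Θ * (M * (N * B ^ 2))) := by
  refine (part0 P hW).trans ?_
  apply mul_le_mul_of_nonneg_left _ hW0
  calc ∑ t ∈ P, ‖Gh G N ((t : ℝ) / M)‖ ^ 2 * ‖Tq α γ y ((t : ℝ) / M)‖ ^ 2 ≤
        ∑ t ∈ P, ‖Gh G N ((t : ℝ) / M)‖ ^ 2 * Θ := by
        refine sum_le_sum fun t ht => ?_
        exact mul_le_mul_of_nonneg_left (hΘ t ht) (sq_nonneg _)
    _ = Θ * ∑ t ∈ P, ‖Gh G N ((t : ℝ) / M)‖ ^ 2 := by rw [← sum_mul, mul_comm]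
    _ ≤ Θ * ∑ t ∈ range M, ‖Gh G N ((t : ℝ) / M)‖ ^ 2 := by
        apply mul_le_mul_of_nonneg_left _ hΘ0
        exact sum_le_sum_of_subset_of_nonneg hP fun _ _ _ => sq_nonneg _
    _ ≤ _ := mul_le_mul_of_nonneg_left (Gh_mean hNM hG) hΘ0

/-- the decomposition of the frequencies -/
lemma Pt_split {α γ : ℤ} {G : ℕ → ℂ} {y N M : ℕ} (E : ℕ → Finset ℕ) (hE : ∀ j, E j ⊆ E (j + 1))
    (hEM : ∀ j, E j ⊆ range M) {i J : ℕ} (hiJ : i ≤ J) (n : ℤ) :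
    Pt α γ G y N M (range M) n = Pt α γ G y N M (E i) n + ∑ j ∈ Ico i J, Pt α γ G y N M (E (j + 1) \ E j) n +
      Pt α γ G y N M (range M \ E J) n := by
  have h1 : ∀ A B : Finset ℕ, A ⊆ B → Pt α γ G y N M (B \ A) n = Pt α γ G y N M B n - Pt α γ G y N M A n := by
    intro A B h
    unfold Pt
    rw [eq_sub_iff_add_eq]
    exact sum_sdiff h
  rw [h1 _ _ (hEM J), sum_congr rfl fun j _ => h1 _ _ (hE j), 
    sum_Ico_sub (fun j => Pt α γ G y N M (E j) n) hiJ]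
  ring

lemma norm3 (a b c : ℂ) : ‖a + b + c‖ ^ 2 ≤ 3 * (‖a‖ ^ 2 + ‖b‖ ^ 2 + ‖c‖ ^ 2) := by
  have h1 : ‖a + b + c‖ ≤ ‖a‖ + ‖b‖ + ‖c‖ := norm_add₃_le
  have h2 : ‖a + b + c‖ ^ 2 ≤ (‖a‖ + ‖b‖ + ‖c‖) ^ 2 := pow_le_pow_left₀ (norm_nonneg _) h1 2
  nlinarith [sq_nonneg (‖a‖ - ‖b‖), sq_nonneg (‖b‖ - ‖c‖), sq_nonneg (‖a‖ - ‖c‖)]

end Pool.Agent.K9h59.CF
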