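import Pool.Agent.K9h59.CF.Ker2
import Pool.Agent.K9h59.CF.Mean

set_option autoImplicit false

/-! The integers with restricted digits have a small kernel. -/

namespace Pool.Agent.K9h59.CF

open Finset

theorem kern_dig {g k N M C : ℕ} {κ : ℝ} {D : ℕ → Finset ℕ} (h : Dg g k κ D) (hκ : κ ≤ 1) (hM : 0 < M) (hgN : g ^ k ≤ N)
    (hNC : N ≤ C * g ^ k) (hMC : M ≤ C * g ^ k) (c₀ : ℤ) :
    Kern κ (16 * C + 64 * (C + 1) * (g : ℝ) ^ 2) N M (Sh c₀ (S g D k)) := by
  have hg3 := h.hg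
  have hg0 : 0 < g := by omega
  have hg1 : (1 : ℝ) ≤ g := by exact_mod_cast hg0
  have hgk : 0 < g ^ k := Nat.pow_pos hg0
  have hgkr : (0 : ℝ) < (g : ℝ) ^ k := by positivity
  have hN1 : 1 ≤ N := by omega
  have hN0 : (0 : ℝ) < N := by exact_mod_cast hN1
  have hC0 : (0 : ℝ) ≤ C := Nat.cast_nonneg _
  have hg2 : (1 : ℝ) ≤ (g : ℝ) ^ 2 := one_le_pow₀ hg1
  refine ⟨fun τ => ?_, fun R hR hRN τ => ?_⟩
  · refine (ker_all h hM c₀ τ).trans ?_
    rw [card_Sh]
    have h1 : (M : ℝ) / (g : ℝ) ^ k ≤ C := by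
      rw [div_le_iff₀ hgkr]
      exact_mod_cast hMC
    have h2 : ((g : ℝ) ^ κ) ^ k ≤ (N : ℝ) ^ κ := by
      rw [← Real.rpow_natCast, ← Real.rpow_mul (by positivity), mul_comm, Real.rpow_mul (by positivity),
        Real.rpow_natCast]
      apply Real.rpow_le_rpow (by positivity) _ h.hκ
      exact_mod_cast hgN
    have h3 : (M : ℝ) / (g : ℝ) ^ k + 1 ≤ 16 * C + 64 * (C + 1) * (g : ℝ) ^ 2 := by
      have : (C : ℝ) + 1 ≤ (C + 1) * (g : ℝ) ^ 2 := le_mul_of_one_le_right (by positivity) hg2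
      linarith
    gcongr
  · have hR1 : (1 : ℝ) ≤ R := by exact_mod_cast hR
    have hR0 : (0 : ℝ) < R := by linarith
    have h0 : (0 : ℝ) ≤ (C + 1) * (g : ℝ) ^ 2 := by positivity
    have hRN' : 16 * C * R ^ 2 ≤ N := by
      have h1 : 16 * (C : ℝ) * (R : ℝ) ^ 2 ≤ N := by
        refine le_trans ?_ hRN
        apply mul_le_mul_of_nonneg_right _ (by positivity)
        linarith
      exact_mod_cast h1
    refine (ker_mjr h hM hgN hNC hMC hR hRN' c₀ τ).trans ?_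
    rw [card_Sh]
    have h1 : (32 * (g : ℝ) ^ 2 * R * R) ^ κ ≤ (32 * (g : ℝ) ^ 2) * (R : ℝ) ^ (2 * κ) := by
      have e : 32 * (g : ℝ) ^ 2 * R * R = (32 * (g : ℝ) ^ 2) * (R : ℝ) ^ 2 := by ring
      rw [e, Real.mul_rpow (by positivity) (by positivity)]
      have e2 : ((R : ℝ) ^ 2) ^ κ = (R : ℝ) ^ (2 * κ) := by
        rw [← Real.rpow_natCast, ← Real.rpow_mul hR0.le]
        norm_num
      rw [e2]
      apply mul_le_mul_of_nonneg_right _ (by positivity)
      calc (32 * (g : ℝ) ^ 2) ^ κ ≤ (32 * (g : ℝ) ^ 2) ^ (1 : ℝ) :=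
            Real.rpow_le_rpow_of_exponent_le (by linarith) hκ
        _ = _ := Real.rpow_one _
    have h2 : ((Nat.log 2 R : ℕ) : ℝ) + 1 ≤ 2 * (1 + Real.log N) := by
      have hRle : R ≤ N := by
        have h3 : (R : ℝ) ≤ N := by
          have hRR : (R : ℝ) ≤ (R : ℝ) ^ 2 := by nlinarith
          refine hRR.trans (le_trans ?_ hRN)
          have : (1 : ℝ) ≤ 16 * C + 64 * (C + 1) * (g : ℝ) ^ 2 := by nlinarith
          exact le_mul_of_one_le_left (by positivity) this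
        exact_mod_cast h3
      have h3 : ((2 : ℝ)) ^ Nat.log 2 R ≤ N := by
        have : 2 ^ Nat.log 2 R ≤ N := (Nat.pow_log_le_self 2 (by omega)).trans hRle
        exact_mod_cast this
      have h4 := Real.log_le_log (by positivity) h3
      rw [Real.log_pow] at h4
      have h5 := Real.log_two_gt_d9
      have h6 : (0 : ℝ) ≤ (Nat.log 2 R : ℕ) := Nat.cast_nonneg _
      nlinarith
    have hlog : 0 ≤ Real.log N := Real.log_natCast_nonneg _
    calc (((Nat.log 2 R : ℕ) : ℝ) + 1) * ((C + 1) * ((S g D k).card * (32 * (g : ℝ) ^ 2 * R * R) ^ κ))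
        ≤ (2 * (1 + Real.log N)) * ((C + 1) * ((S g D k).card * ((32 * (g : ℝ) ^ 2) * (R : ℝ) ^ (2 * κ)))) := by
          gcongr
      _ = (64 * (C + 1) * (g : ℝ) ^ 2) * ((1 + Real.log N) * ((S g D k).card * (R : ℝ) ^ (2 * κ))) := by ring
      _ ≤ _ := by
          apply mul_le_mul_of_nonneg_right _ (by positivity)
          linarith

/-- the number of the integers with restricted digits -/
lemma card_S_ge {g k : ℕ} {κ : ℝ} {D : ℕ → Finset ℕ} (h : Dg g k κ D) :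
    (11 * (g : ℝ) ^ (1 - κ)) ^ k ≤ (S g D k).card := by
  have hg0 : 0 < g := by have := h.hg; omega
  have hgr : (0 : ℝ) < g := by exact_mod_cast hg0
  have hg1 : (1 : ℝ) ≤ g := by exact_mod_cast hg0
  rw [card_S hg0 k h.hD]
  push_cast
  have h1 : ∀ i ∈ range k, 11 * (g : ℝ) ^ (1 - κ) ≤ ((D i).card : ℝ) := by
    intro i hi
    have h2 := h.hC i (mem_range.1 hi)
    have h3 : (1 : ℝ) ≤ br (D i) := by exact_mod_cast br_pos (h.hne i (mem_range.1 hi))
    have h4 : 0 ≤ Real.log g := Real.log_natCast_nonneg _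
    have h5 : (g : ℝ) * 11 ≤ (D i).card * (g : ℝ) ^ κ := by
      refine le_trans ?_ h2
      calc (g : ℝ) * 11 = 1 * (g * (11 + 2 * 0)) := by ring
        _ ≤ br (D i) * (g * (11 + 2 * Real.log g)) := by gcongr
    rw [Real.rpow_sub hgr, Real.rpow_one, mul_div_assoc', div_le_iff₀ (Real.rpow_pos_of_pos hgr _)]
    linarith
  calc (11 * (g : ℝ) ^ (1 - κ)) ^ k = ∏ _i ∈ range k, (11 * (g : ℝ) ^ (1 - κ)) := by
        rw [prod_const, card_range]
    _ ≤ _ := prod_le_prod (fun i _ => by positivity) h1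

end Pool.Agent.K9h59.CF
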