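import Pool.Agent.R460.SC.Fa

set_option autoImplicit false

/-! The steps for one polynomial. -/

namespace Pool.Agent.K9h59.CF

open Finset
open Pool.Agent.H373R2.T7 (lamz Vz pz Vz_pos Vz_inv_small mem_pz)
open Pool.Agent.Y614.GJ.Core (ev_log)
open Pool.Agent.R460.SQ (thp)
open Pool.Agent.R460.SB (fv fv_two GoodSq Sz GoodU Sz_low loc_lt unweight wl wl_bd)

/-- from the weighted sums to the number of the prime values -/
theorem goodU_of {a b : ℤ} (ha : 0 < a) (C E : ℕ) : ∃ X₀ : ℕ, ∀ X : ℕ, X₀ ≤ X → ∀ z : ℕ, 1 ≤ z →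
    (z : ℝ) ≤ Real.log X ^ E → ∀ c : ℤ, b ^ 2 + 2 ≤ c → GoodSq (-a) (-b) (C + 5) X z c → GoodU a b C X z c := by
  obtain ⟨N₂, h2⟩ := Vz_inv_small E
  obtain ⟨κ, hκ⟩ : ∃ κ : ℝ, κ = (1 / ((-a).natAbs : ℝ)) ^ (-a).natAbs := ⟨_, rfl⟩
  have ha0 : -a ≠ 0 := by omega
  have ha1 : (1 : ℝ) ≤ (-a).natAbs := by exact_mod_cast Int.natAbs_pos.2 ha0
  have hκ0 : 0 < κ := by rw [hκ]; positivity
  obtain ⟨N₃, h3⟩ := Filter.eventually_atTop.1 (ev_log 1 (s := 1 / 2) (by norm_num) (100 + 2 / κ + 4 * b.natAbs))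
  refine ⟨N₂ + N₃ + 3, fun N hN z hz0 hz2 c hc hg => ?_⟩
  have hN1 : 1 ≤ N := by omega
  have hN0 : (0 : ℝ) < N := by exact_mod_cast hN1
  obtain ⟨hLb, hLp⟩ := h3 N (by omega)
  have hVz := h2 N (by omega) z hz0 hz2
  obtain ⟨L, hLd⟩ : ∃ L, L = Real.log (N : ℝ) := ⟨_, rfl⟩
  have hb0 : (0 : ℝ) ≤ b.natAbs := Nat.cast_nonneg _
  rw [← hLd] at hLb hLp hz2 hVz
  have h2κ : 0 < 2 / κ := by positivity
  have hL100 : 100 ≤ L := by linarith
  have hL0 : 0 < L := by linarith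
  have hL1 : 1 ≤ L := by linarith
  have hκL : 2 ≤ κ * L := by
    have : 2 / κ ≤ L := by linarith
    rw [div_le_iff₀ hκ0] at this
    linarith
  obtain ⟨M, hM⟩ : ∃ M, M = Real.sqrt N := ⟨_, rfl⟩
  have hM0 : 0 < M := by rw [hM]; exact Real.sqrt_pos.2 hN0
  have hMr : M = (N : ℝ) ^ (1 / 2 : ℝ) := by rw [hM, Real.sqrt_eq_rpow]
  have hML : 100 ≤ M := by
    rw [hMr]
    rw [pow_one] at hLp
    linarith
  have hnat : ∀ t : ℕ, (fv (-a) (-b) c t).toNat = (fv (-a) (-b) c t).natAbs := by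
    intro t
    have := fv_two ha hc t
    omega
  unfold GoodU
  simp only [hnat]
  refine ⟨fun hloc => ?_, fun y hy => ?_⟩
  · obtain ⟨y, hy⟩ : ∃ y, y = Nat.sqrt N := ⟨_, rfl⟩
    have hy1 : y ^ 2 ≤ N := by rw [hy]; exact Nat.sqrt_le' N
    have hy2 : N < (y + 1) ^ 2 := by rw [hy]; exact Nat.lt_succ_sqrt' N
    have h6 := hg y hy1
    rw [← hM, ← hLd] at h6
    by_contra hno
    have h7 : ∑ m ∈ Icc 1 y, thp (fv (-a) (-b) c m).natAbs = 0 := by
      apply sum_eq_zero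
      intro m hm
      unfold thp
      rw [if_neg]
      intro hp
      apply hno
      rw [mem_Icc] at hm
      exact ⟨m, hm.1, (Nat.pow_le_pow_left hm.2 2).trans hy1, hp⟩
    rw [h7, zero_sub, abs_neg] at h6
    have hS := Sz_low ha0 c z (fun p hp => loc_lt (mem_pz.1 hp).2 (hloc p (mem_pz.1 hp).2))
    rw [← hκ] at hS
    have hVp := Vz_pos z
    have hV2 : κ * (1 / L ^ 2) ≤ Sz (-a) (-b) c z := by
      refine le_trans ?_ hS
      have : 1 / L ≤ Vz z := by
        rw [one_div]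
        exact inv_le_of_inv_le₀ hVp hVz
      apply mul_le_mul_of_nonneg_left _ hκ0.le
      calc 1 / L ^ 2 = (1 / L) ^ 2 := by rw [div_pow, one_pow]
        _ ≤ Vz z ^ 2 := by gcongr
    have hyr : M / 2 ≤ y := by
      have e1 : M < y + 1 := by
        rw [hM]
        have e2 : (N : ℝ) < ((y : ℝ) + 1) ^ 2 := by exact_mod_cast hy2
        rw [Real.sqrt_lt' (by positivity)]
        exact e2
      linarith
    have h8 : Sz (-a) (-b) c z * y ≤ M / L ^ (C + 5) := le_trans (le_abs_self _) h6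
    have h9 : κ * (1 / L ^ 2) * (M / 2) ≤ M / L ^ (C + 5) := by
      refine le_trans ?_ h8
      exact mul_le_mul hV2 hyr (by positivity) (le_trans (by positivity) hV2)
    have h10 : M / L ^ (C + 5) = κ * (1 / L ^ 2) * (M / 2) * (2 / (κ * L ^ (C + 3))) := by
      have : L ^ (C + 5) = L ^ 2 * L ^ (C + 3) := by ring
      rw [this]
      field_simp
    rw [h10] at h9
    have h11 : 2 / (κ * L ^ (C + 3)) < 1 := by
      rw [div_lt_one (by positivity)]
      have a1 : L ^ 2 ≤ L ^ (C + 3) := pow_le_pow_right₀ hL1 (by omega)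
      have a2 : κ * L ^ 2 ≤ κ * L ^ (C + 3) := by gcongr
      nlinarith
    have h12 : 0 < κ * (1 / L ^ 2) * (M / 2) := by positivity
    nlinarith
  · have h6 := unweight ha hc (y := y) (S := Sz (-a) (-b) c z) (ε := Real.sqrt N / Real.log N ^ (C + 5))
      (fun m hm => hg m ((Nat.pow_le_pow_left hm 2).trans hy))
    refine h6.trans ?_
    rw [← hM, ← hLd]
    calc M / L ^ (C + 5) * (4 * b.natAbs + 4) ≤ M / L ^ (C + 5) * L := by
          apply mul_le_mul_of_nonneg_left _ (by positivity)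
          linarith
      _ ≤ M / L ^ (C + 5) * L ^ 5 := by
          apply mul_le_mul_of_nonneg_left _ (by positivity)
          exact le_self_pow₀ hL1 (by norm_num)
      _ = M / L ^ C := by
          rw [pow_add L C 5]
          field_simp

end Pool.Agent.K9h59.CF
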