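import Pool.Agent.K9h59.CF.TlA

set_option autoImplicit false

/-! The tail of the Euler product for all members of a sequence of discriminants with few exceptions. -/

namespace Pool.Agent.K9h59.CF

open Finset Filter Topology
open Pool.Agent.W468.ConjF
open Pool.Agent.H307R2.OP (J PB badCount)
open Pool.Agent.Y868.TB

/-- the number of the exceptions in the first range -/
lemma cnt_low {H m₁ B Q M U i0 l2 : ℕ} {L : ℝ} (hL : 1 ≤ L) (hM : 1 ≤ M)
    (hB : B = 3 * M * (2 * U + 6) * Q) (hi : L ^ B ≤ (2 : ℝ) ^ i0) (hQ : 1 ≤ Q)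
    (hm : i0 * m₁ ≤ 3 * M * (l2 + 1)) (hl : 2 ^ l2 ≤ H) :
    ((L ^ (2 * U + 6)) ^ m₁) ^ Q ≤ 2 * H := by
  have h0 : (0 : ℝ) ≤ ((L ^ (2 * U + 6)) ^ m₁) ^ Q := by positivity
  have h1 : (((L ^ (2 * U + 6)) ^ m₁) ^ Q) ^ (3 * M) ≤ (2 * (H : ℝ)) ^ (3 * M) := by
    calc (((L ^ (2 * U + 6)) ^ m₁) ^ Q) ^ (3 * M) = (L ^ B) ^ m₁ := by
          rw [hB, ← pow_mul, ← pow_mul, ← pow_mul, ← pow_mul]
          congr 1
          ring
      _ ≤ ((2 : ℝ) ^ i0) ^ m₁ := pow_le_pow_left₀ (by positivity) hi _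
      _ = 2 ^ (i0 * m₁) := by rw [← pow_mul]
      _ ≤ 2 ^ (3 * M * (l2 + 1)) := pow_le_pow_right₀ (by norm_num) hm
      _ = (2 * 2 ^ l2) ^ (3 * M) := by
          rw [← pow_succ', ← pow_mul]
          congr 1
          ring
      _ ≤ (2 * (H : ℝ)) ^ (3 * M) := by
          have : (2 : ℝ) ^ l2 ≤ H := by exact_mod_cast hl
          gcongr
  exact le_of_pow_le_pow_left₀ (by omega) (by positivity) h1

theorem tail_fam (U M : ℕ) (hM : 1 ≤ M) (δ : ℝ) (hδ : 0 < δ) : ∃ B : ℕ, ∀ E : ℕ, ∃ H₀ : ℕ, ∀ H : ℕ, H₀ ≤ H → ∀ i0 : ℕ,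
    Real.log H ^ B ≤ (2 : ℝ) ^ i0 → (2 : ℝ) ^ i0 ≤ Real.log H ^ E → ∀ f : ℕ → ℤ, (∀ b ∈ Icc 1 H, (f b).natAbs ≤ H ^ M) →
    ∀ W : ℝ, 0 ≤ W → (∀ d : ℤ, (#(Sol f H d) : ℝ) ≤ W) →
    ∃ Ex : Finset ℕ, (#Ex : ℝ) ≤ (H : ℝ) ^ δ * W ∧
      ∀ b ∈ Icc 1 H, b ∉ Ex → ¬ IsSquare (f b) ∧
        ∀ᶠ N in atTop, |SJ (f b) (2 ^ i0) N| ≤ 1 / Real.log H ^ U := by
  classical
  obtain ⟨Q, hQ⟩ : ∃ Q, Q = ⌈4 / δ⌉₊ + 1 := ⟨_, rfl⟩
  have hQ1 : 1 ≤ Q := by omega
  have hQδ : 1 / (Q : ℝ) ≤ δ / 4 := by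
    have h1 : 4 / δ ≤ Q := by
      rw [hQ]
      push_cast
      have := Nat.le_ceil (4 / δ)
      linarith
    rw [div_le_iff₀ hδ] at h1
    have hQ0 : (0 : ℝ) < Q := by exact_mod_cast hQ1
    rw [div_le_div_iff₀ hQ0 (by norm_num)]
    linarith
  obtain ⟨B, hB⟩ : ∃ B, B = 3 * M * (2 * U + 6) * Q := ⟨_, rfl⟩
  obtain ⟨A, hA⟩ : ∃ A, A = U + 3 := ⟨_, rfl⟩
  obtain ⟨m, hm⟩ : ∃ m, m = 3 * M := ⟨_, rfl⟩
  obtain ⟨N, hN⟩ : ∃ N, N = Q * (3 + 2 * m * A) := ⟨_, rfl⟩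
  obtain ⟨G, hG⟩ : ∃ G : ℝ, G = 17 * (2 * m) ^ m * 2 ^ (1 + 2 * m * A) := ⟨_, rfl⟩
  have hm1' : (1 : ℝ) ≤ m := by
    rw [hm]
    exact_mod_cast (by omega : 1 ≤ 3 * M)
  have hmm : (1 : ℝ) ≤ (2 * (m : ℝ)) ^ m := one_le_pow₀ (by linarith)
  have hG1 : 1 ≤ G := by
    rw [hG]
    have h1 : (1 : ℝ) ≤ 2 ^ (1 + 2 * m * A) := one_le_pow₀ (by norm_num)
    have h2 : (1 : ℝ) ≤ 17 * (2 * (m : ℝ)) ^ m := by linarith
    exact one_le_mul_of_one_le_of_one_le h2 h1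
  have hN1 : 1 ≤ N := by rw [hN]; exact Nat.mul_pos hQ1 (by omega)
  refine ⟨B, fun E => ?_⟩
  obtain ⟨n₁, hn₁⟩ := tail (2 * (M * N + 1))
  obtain ⟨m1, hm1⟩ := evt_root N U hN1 (4 * G + 3000)
  obtain ⟨m2, hm2⟩ := evt_root N 1 hN1 (n₁ + 4)
  obtain ⟨m3, hm3⟩ := evt_root Q (2 * U + 10 + E) hQ1 100
  have hlim : Filter.Tendsto (fun N : ℕ => Real.log (N : ℝ)) Filter.atTop Filter.atTop :=
    Real.tendsto_log_atTop.comp (tendsto_natCast_atTop_atTop (R := ℝ))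
  obtain ⟨m5, hm5⟩ := eventually_atTop.1 (hlim.eventually_ge_atTop (64 * 4 ^ (U + 1) + 1000 + 200 * M))
  refine ⟨max (max (max m1 m2) m3) (max m5 3), fun H hH i0 hi1 hi2 f hΔ W hW0 hWc => ?_⟩
  have a1 := hm1 H (le_trans (le_trans (le_trans (le_max_left _ _) (le_max_left _ _)) (le_max_left _ _)) hH)
  have a2 := hm2 H (le_trans (le_trans (le_trans (le_max_right _ _) (le_max_left _ _)) (le_max_left _ _)) hH)
  have a3 := hm3 H (le_trans (le_trans (le_max_right _ _) (le_max_left _ _)) hH)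
  have a5 := hm5 H (le_trans (le_trans (le_max_left _ _) (le_max_right _ _)) hH)
  have hH3 : 3 ≤ H := le_trans (le_trans (le_max_right _ _) (le_max_right _ _)) hH
  have hHr : (3 : ℝ) ≤ H := by exact_mod_cast hH3
  have hH0 : (0 : ℝ) < H := by linarith
  have hH1 : (1 : ℝ) ≤ H := by linarith
  have hMr : (1 : ℝ) ≤ M := by exact_mod_cast hM
  obtain ⟨L, hL⟩ : ∃ L, L = Real.log (H : ℝ) := ⟨_, rfl⟩
  rw [← hL] at a1 a2 a3 hi1 hi2 ⊢
  simp only [← hL] at a5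
  have h4U : (1 : ℝ) ≤ 4 ^ (U + 1) := one_le_pow₀ (by norm_num)
  have hL1000 : 1000 ≤ L := by linarith
  have hLM : 200 * (M : ℝ) ≤ L := by linarith
  have hL0 : 0 < L := by linarith
  have hL1 : 1 ≤ L := by linarith
  have hLp : ∀ k : ℕ, 0 < L ^ k := fun k => by positivity
  have hLp1 : ∀ k : ℕ, 1 ≤ L ^ k := fun k => one_le_pow₀ hL1
  rw [pow_one] at a2
  obtain ⟨t, ht⟩ : ∃ t : ℝ, t = (H : ℝ) ^ ((1 : ℝ) / N) := ⟨_, rfl⟩
  rw [← ht] at a1 a2
  have ht0 : 0 < t := by rw [ht]; exact Real.rpow_pos_of_pos hH0 _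
  have ht1 : 1 ≤ t := by rw [ht]; exact Real.one_le_rpow (by linarith) (by positivity)
  have htN : t ^ N = H := by
    rw [ht, ← Real.rpow_natCast, ← Real.rpow_mul hH0.le]
    have : (1 : ℝ) / N * (N : ℕ) = 1 := by
      have : (N : ℝ) ≠ 0 := by positivity
      field_simp
    rw [this, Real.rpow_one]
  -- the binary logarithm
  obtain ⟨l2, hl2⟩ : ∃ l2, l2 = Nat.log 2 H := ⟨_, rfl⟩
  have hlog2 := Real.log_two_gt_d9
  have hlog2' := Real.log_two_lt_d9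
  have hl21 : 2 ^ l2 ≤ H := by rw [hl2]; exact Nat.pow_log_le_self 2 (by omega)
  have hl22 : H < 2 ^ (l2 + 1) := by rw [hl2]; exact Nat.lt_pow_succ_log_self (by norm_num) H
  have hl2a : (l2 : ℝ) ≤ 1.5 * L := by
    have h1 : ((2 ^ l2 : ℕ) : ℝ) ≤ H := by exact_mod_cast hl21
    push_cast at h1
    have h2 := Real.log_le_log (by positivity) h1
    rw [Real.log_pow, ← hL] at h2
    exact aux1 _ _ _ (Nat.cast_nonneg _) hlog2 h2
  have hl2b : 1.4 * L - 1 ≤ l2 := by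
    have h1 : (H : ℝ) ≤ ((2 ^ (l2 + 1) : ℕ) : ℝ) := by exact_mod_cast hl22.le
    push_cast at h1
    have h2 := Real.log_le_log hH0 h1
    rw [Real.log_pow, ← hL] at h2
    push_cast at h2
    exact aux2 _ _ _ (Nat.cast_nonneg _) hlog2' h2
  have hl24 : 4 ≤ l2 := by
    have : (4 : ℝ) ≤ l2 := by linarith
    exact_mod_cast this
  -- the first exponent
  have hB6 : 6 ≤ B := by
    rw [hB]
    calc 6 = 1 * 6 * 1 := by norm_num
      _ ≤ 3 * M * (2 * U + 6) * Q := by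
          apply Nat.mul_le_mul _ hQ1
          apply Nat.mul_le_mul <;> omega
  have hi3 : L ^ 2 ≤ (2 : ℝ) ^ i0 := (pow_le_pow_right₀ hL1 (by omega)).trans hi1
  have hi01 : 1 ≤ i0 := by
    by_contra h0
    have h1 : i0 = 0 := by omega
    rw [h1, pow_zero] at hi3
    nlinarith
  have hi0l : i0 ≤ l2 := by
    have h1 : (2 : ℝ) ^ i0 ≤ H := by
      refine hi2.trans ?_
      have h2 : L ^ E ≤ L ^ (2 * U + 10 + E) := pow_le_pow_right₀ hL1 (by omega)
      have h3 : 100 * L ^ (2 * U + 10 + E) ≤ H := by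
        refine a3.trans ?_
        calc (H : ℝ) ^ ((1 : ℝ) / Q) ≤ (H : ℝ) ^ (1 : ℝ) := by
              apply Real.rpow_le_rpow_of_exponent_le hH1
              rw [div_le_one (by exact_mod_cast hQ1)]
              exact_mod_cast hQ1
          _ = H := Real.rpow_one _
      have h4 := hLp (2 * U + 10 + E)
      linarith
    have h2 : 2 ^ i0 ≤ H := by exact_mod_cast h1
    rw [hl2]
    exact Nat.le_log_of_pow_le (by norm_num) h2
  obtain ⟨m₁, hm₁⟩ : ∃ m₁, m₁ = 3 * M * (l2 + 1) / i0 := ⟨_, rfl⟩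
  have hm₁1 : i0 * m₁ ≤ 3 * M * (l2 + 1) := by
    rw [hm₁]
    exact Nat.mul_div_le _ _
  have hm₁2 : 3 * M * (l2 + 1) ≤ i0 * (m₁ + 1) := by
    rw [hm₁]
    exact (Nat.lt_mul_div_succ _ (by omega)).le
  have hm₁L : 2 * ((m₁ + 1 : ℕ) : ℝ) ≤ L ^ 2 := by
    have h1 : m₁ ≤ 3 * M * (l2 + 1) := by rw [hm₁]; exact Nat.div_le_self _ _
    have h2 : (m₁ : ℝ) ≤ 3 * M * (l2 + 1) := by exact_mod_cast h1
    have h3 : (l2 : ℝ) + 1 ≤ 2 * L := by linarith
    have h4 : 3 * (M : ℝ) * (l2 + 1) ≤ 3 * M * (2 * L) := by gcongr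
    push_cast
    nlinarith
  obtain ⟨τ, hτ⟩ : ∃ τ : ℝ, τ = 1 / L ^ (U + 2) := ⟨_, rfl⟩
  have hτ0 : 0 < τ := by rw [hτ]; positivity
  obtain ⟨E1, hE1c, hE1⟩ := mid_count_T hτ0 f H (H ^ M) i0 l2 (m₁ + 1) W hW0 hWc hΔ hi01 (by omega) (by
    calc (H ^ M) ^ 3 ≤ ((2 ^ (l2 + 1)) ^ M) ^ 3 := Nat.pow_le_pow_left (Nat.pow_le_pow_left hl22.le _) _
      _ = 2 ^ (3 * M * (l2 + 1)) := by rw [← pow_mul, ← pow_mul]; congr 1; ring
      _ ≤ 2 ^ (i0 * (m₁ + 1)) := Nat.pow_le_pow_right (by norm_num) hm₁2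
      _ = (2 ^ i0) ^ (m₁ + 1) := by rw [← pow_mul]
      _ ≤ (2 * 2 ^ i0) ^ (m₁ + 1) := Nat.pow_le_pow_left (by omega) _)
  have hE1c' : (#E1 : ℝ) ≤ (H : ℝ) ^ δ * W / 2 := by
    refine hE1c.trans ?_
    rw [show (H : ℝ) ^ δ * W / 2 = (H : ℝ) ^ δ / 2 * W by ring]
    apply mul_le_mul_of_nonneg_right _ hW0
    have h1 : 2 * ((m₁ + 1 : ℕ) : ℝ) / τ ^ 2 ≤ L ^ (2 * U + 6) := by
      rw [hτ, div_pow, one_pow, div_div_eq_mul_div, div_one, ← pow_mul]
      calc 2 * ((m₁ + 1 : ℕ) : ℝ) * L ^ ((U + 2) * 2) ≤ L ^ 2 * L ^ ((U + 2) * 2) := by gcongr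
        _ = L ^ (2 * U + 6) := by rw [← pow_add]; congr 1; ring
    have h2 : (L ^ (2 * U + 6)) ^ m₁ ≤ 2 * (H : ℝ) ^ (δ / 4) := by
      have h3 := cnt_low (H := H) (m₁ := m₁) hL1 hM hB hi1 hQ1 hm₁1 hl21
      have h4 : (L ^ (2 * U + 6)) ^ m₁ ≤ (2 * (H : ℝ)) ^ ((1 : ℝ) / Q) := by
        have h5 : ((2 * (H : ℝ)) ^ ((1 : ℝ) / Q)) ^ Q = 2 * H := by
          rw [← Real.rpow_natCast, ← Real.rpow_mul (by positivity)]
          have : (1 : ℝ) / Q * (Q : ℕ) = 1 := by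
            have : (Q : ℝ) ≠ 0 := by positivity
            field_simp
          rw [this, Real.rpow_one]
        rw [← h5] at h3
        exact le_of_pow_le_pow_left₀ (by omega) (by positivity) h3
      refine h4.trans ?_
      rw [Real.mul_rpow (by norm_num) hH0.le]
      apply mul_le_mul
      · calc (2 : ℝ) ^ ((1 : ℝ) / Q) ≤ (2 : ℝ) ^ (1 : ℝ) := by
              apply Real.rpow_le_rpow_of_exponent_le (by norm_num)
              rw [div_le_one (by exact_mod_cast hQ1)]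
              exact_mod_cast hQ1
          _ = 2 := Real.rpow_one _
      · exact Real.rpow_le_rpow_of_exponent_le hH1 hQδ
      · positivity
      · norm_num
    have h3 : (2 * ((m₁ + 1 : ℕ) : ℝ) / τ ^ 2) ^ (m₁ + 1) ≤ 2 * (H : ℝ) ^ (δ / 4) * L ^ (2 * U + 6) := by
      calc (2 * ((m₁ + 1 : ℕ) : ℝ) / τ ^ 2) ^ (m₁ + 1) ≤ (L ^ (2 * U + 6)) ^ (m₁ + 1) :=
            pow_le_pow_left₀ (by positivity) h1 _
        _ = (L ^ (2 * U + 6)) ^ m₁ * L ^ (2 * U + 6) := pow_succ _ _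
        _ ≤ _ := by gcongr
    have h4 : 100 * L ^ (2 * U + 10) ≤ (H : ℝ) ^ (δ / 4) := by
      calc 100 * L ^ (2 * U + 10) ≤ 100 * L ^ (2 * U + 10 + E) := by
            have := pow_le_pow_right₀ hL1 (by omega : 2 * U + 10 ≤ 2 * U + 10 + E)
            linarith
        _ ≤ (H : ℝ) ^ ((1 : ℝ) / Q) := a3
        _ ≤ _ := Real.rpow_le_rpow_of_exponent_le hH1 hQδ
    have h5 : 4 * ((l2 : ℝ) * (8 * (2 * ((m₁ + 1 : ℕ) : ℝ) / τ ^ 2) ^ (m₁ + 1))) + 1 ≤
        4 * ((2 * L) * (8 * (2 * (H : ℝ) ^ (δ / 4) * L ^ (2 * U + 6)))) + 1 := by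
      have h6 : (l2 : ℝ) ≤ 2 * L := by linarith
      gcongr
    refine h5.trans ?_
    obtain ⟨h, hh⟩ : ∃ h, h = (H : ℝ) ^ (δ / 4) := ⟨_, rfl⟩
    have h6 : (H : ℝ) ^ δ = h * h * (h * h) := by
      rw [hh, ← Real.rpow_add hH0, ← Real.rpow_add hH0]
      congr 1
      ring
    rw [h6, ← hh]
    rw [← hh] at h4
    have h7 : 1 ≤ h := by
      have := hLp1 (2 * U + 10)
      linarith
    have h8 : L ^ (2 * U + 10) = L ^ (2 * U + 6) * L * L ^ 3 := by ring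
    have h9 : L ^ (2 * U + 6) * L ≤ h / 100 := by
      have h10 : L ^ (2 * U + 6) * L ≤ L ^ (2 * U + 10) := by
        rw [h8]
        exact le_mul_of_one_le_right (by positivity) (hLp1 3)
      linarith
    have h11 : 1000 ≤ h := by
      have : L ≤ L ^ (2 * U + 10) := le_self_pow₀ hL1 (by omega)
      linarith
    calc 4 * (2 * L * (8 * (2 * h * L ^ (2 * U + 6)))) + 1 = 128 * h * (L ^ (2 * U + 6) * L) + 1 := by ring
      _ ≤ 128 * h * (h / 100) + 1 := by gcongr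
      _ ≤ h * h * (h * h) / 2 := by
          have h12 : 1000 * 1000 ≤ h * h := mul_le_mul h11 h11 (by norm_num) (by linarith)
          nlinarith
  -- the second parameter
  have h3000 : 3000 * L ^ U ≤ t := by
    have : 0 ≤ 4 * G * L ^ U := by positivity
    linarith
  have h4G : 4 * G * L ^ U ≤ t := by
    have : 0 ≤ 3000 * L ^ U := by positivity
    linarith
  have h4G' : 4 * G ≤ t := by
    have := hLp1 U
    nlinarith
  have hn₁0 : (0 : ℝ) ≤ n₁ := Nat.cast_nonneg _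
  have ht4L : 4 * L ≤ t := by
    have : 0 ≤ (n₁ : ℝ) * L := by positivity
    linarith
  have htn₁ : (n₁ : ℝ) ≤ t := by
    have : (n₁ : ℝ) * 1 ≤ n₁ * L := mul_le_mul_of_nonneg_left hL1 hn₁0
    linarith
  obtain ⟨I, hI⟩ : ∃ I, I = ⌈t⌉₊ := ⟨_, rfl⟩
  have htI : t ≤ I := by rw [hI]; exact Nat.le_ceil t
  have hI2t : (I : ℝ) ≤ 2 * t := by
    have := Nat.ceil_lt_add_one ht0.le
    rw [← hI] at this
    linarith
  have hiI : l2 + 1 ≤ I := by
    have h1 : ((l2 + 1 : ℕ) : ℝ) ≤ I := by push_cast; linarith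
    exact_mod_cast h1
  have hIn : n₁ ≤ I := by
    have h1 : (n₁ : ℝ) ≤ I := htn₁.trans htI
    exact_mod_cast h1
  have hI4 : 4 ≤ I := by omega
  have hHI : H ≤ I ^ N := by
    have h1 : (H : ℝ) ≤ (I : ℝ) ^ N := by
      rw [← htN]
      exact pow_le_pow_left₀ ht0.le htI N
    exact_mod_cast h1
  -- size of the discriminants
  have hΔ3 : (H ^ M) ^ 3 ≤ (2 * 2 ^ (l2 + 1)) ^ m := by
    calc (H ^ M) ^ 3 = H ^ m := by rw [← pow_mul, mul_comm, hm]
      _ ≤ (2 ^ (l2 + 1)) ^ m := Nat.pow_le_pow_left hl22.le _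
      _ ≤ _ := Nat.pow_le_pow_left (by omega) _
  have hLΔ : (Nat.log 2 (H ^ M) : ℝ) ≤ 2 * M * L := by
    have h1 : Nat.log 2 (H ^ M) ≤ M * (l2 + 1) := by
      have h2 : H ^ M < 2 ^ (M * (l2 + 1)) := by
        calc H ^ M < (2 ^ (l2 + 1)) ^ M := Nat.pow_lt_pow_left hl22 (by omega)
          _ = 2 ^ (M * (l2 + 1)) := by rw [← pow_mul, mul_comm]
      exact (Nat.log_lt_of_lt_pow (by positivity) h2).le
    have h2 : (Nat.log 2 (H ^ M) : ℝ) ≤ M * (l2 + 1) := by exact_mod_cast h1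
    refine h2.trans ?_
    have h3 : (l2 : ℝ) + 1 ≤ 2 * L := by linarith
    have h4 := mul_le_mul_of_nonneg_left h3 (by linarith : (0 : ℝ) ≤ M)
    linarith
  -- the second exceptional set
  obtain ⟨E2, hE2c, hE2⟩ := mid_count_G A f H (H ^ M) (l2 + 1) I m W hW0 hWc hΔ (by omega) (by omega) hΔ3
  have hE2c' : (#E2 : ℝ) ≤ (H : ℝ) ^ δ * W / 2 := by
    refine hE2c.trans ?_
    rw [show (H : ℝ) ^ δ * W / 2 = (H : ℝ) ^ δ / 2 * W by ring]
    apply mul_le_mul_of_nonneg_right _ hW0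
    have h3 : 4 * ((I : ℝ) * (8 * (2 * (m : ℝ) * (I : ℝ) ^ (2 * A)) ^ m)) + 1 ≤ 2 * G * t ^ (1 + 2 * m * A) := by
      have h4 : (I : ℝ) * (8 * (2 * (m : ℝ) * (I : ℝ) ^ (2 * A)) ^ m) ≤ 2 * t * (8 * (2 * m * (2 * t) ^ (2 * A)) ^ m) := by
        gcongr
      have h5 : 4 * (2 * t * (8 * (2 * (m : ℝ) * (2 * t) ^ (2 * A)) ^ m)) = 32 * (2 * m) ^ m * (2 * t) ^ (1 + 2 * m * A) := by
        rw [mul_pow _ ((2 * t) ^ (2 * A)), ← pow_mul, show 2 * A * m = 2 * m * A by ring, pow_add (2 * t) 1 (2 * m * A), pow_one]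
        ring
      have h6 : (1 : ℝ) ≤ (2 * (m : ℝ)) ^ m * (2 * t) ^ (1 + 2 * m * A) := by
        have h8 : (1 : ℝ) ≤ (2 * t) ^ (1 + 2 * m * A) := one_le_pow₀ (by linarith)
        exact one_le_mul_of_one_le_of_one_le hmm h8
      have h7 : 2 * G * t ^ (1 + 2 * m * A) = 34 * (2 * m) ^ m * (2 * t) ^ (1 + 2 * m * A) := by
        rw [hG, mul_pow]; ring
      rw [h7]
      linarith
    have h8 : t ^ (3 + 2 * m * A) ≤ (H : ℝ) ^ δ := by
      have h9 : t ^ (3 + 2 * m * A) = (H : ℝ) ^ ((1 : ℝ) / Q) := by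
        rw [ht, ← Real.rpow_natCast, ← Real.rpow_mul hH0.le, hN]
        congr 1
        push_cast
        have : (Q : ℝ) ≠ 0 := by positivity
        field_simp
      rw [h9]
      apply Real.rpow_le_rpow_of_exponent_le hH1
      linarith
    calc 4 * ((I : ℝ) * (8 * (2 * (m : ℝ) * (I : ℝ) ^ (2 * A)) ^ m)) + 1 ≤ 2 * G * t ^ (1 + 2 * m * A) := h3
      _ = (4 * G) * t ^ (1 + 2 * m * A) / 2 := by ring
      _ ≤ (t * t) * t ^ (1 + 2 * m * A) / 2 := by
          have : 4 * G ≤ t * t := h4G'.trans (le_mul_of_one_le_left ht0.le ht1)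
          gcongr
      _ = t ^ (3 + 2 * m * A) / 2 := by ring
      _ ≤ _ := by gcongr
  refine ⟨E1 ∪ E2, ?_, ?_⟩
  · calc (#(E1 ∪ E2) : ℝ) ≤ #E1 + #E2 := by exact_mod_cast card_union_le _ _
      _ ≤ (H : ℝ) ^ δ * W / 2 + (H : ℝ) ^ δ * W / 2 := add_le_add hE1c' hE2c'
      _ = _ := by ring
  · intro b hb hbE
    rw [mem_union, not_or] at hbE
    obtain ⟨hsq, hlow⟩ := hE1 b hb hbE.1
    obtain ⟨-, hmid⟩ := hE2 b hb hbE.2
    refine ⟨hsq, ?_⟩
    obtain ⟨D, hD⟩ : ∃ D : ℤ, D = f b := ⟨_, rfl⟩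
    rw [← hD] at hlow hmid hsq ⊢
    obtain ⟨σ, hσ⟩ : ∃ σ : ℝ, σ = 1 / (8 * L ^ U) := ⟨_, rfl⟩
    have hσ0 : 0 < σ := by rw [hσ]; positivity
    have hDn : D.natAbs ≤ H ^ M := by rw [hD]; exact hΔ b hb
    have b1 : |SJ D (2 ^ i0) (2 ^ (l2 + 1))| ≤ 2 * σ := by
      refine (mid_sum_T D i0 l2 (Nat.log 2 (H ^ M)) (by positivity) hi0l hi01 hτ0.le hlow).trans ?_
      have h1 : 4 * ((l2 : ℝ) * τ) ≤ σ := by
        rw [hτ, hσ]
        calc 4 * ((l2 : ℝ) * (1 / L ^ (U + 2))) ≤ 4 * ((2 * L) * (1 / L ^ (U + 2))) := by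
              have : (l2 : ℝ) ≤ 2 * L := by linarith
              gcongr
          _ = 64 / L * (1 / (8 * L ^ U)) := by
              rw [pow_add]
              field_simp
              norm_num
          _ ≤ 1 * (1 / (8 * L ^ U)) := by
              apply mul_le_mul_of_nonneg_right _ (by positivity)
              rw [div_le_one hL0]
              linarith
          _ = _ := one_mul _
      have h2 : 8 * (Nat.log 2 (H ^ M) : ℝ) / 2 ^ i0 ≤ σ := by
        have hBU : U + 3 ≤ B := by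
          rw [hB]
          calc U + 3 ≤ 1 * (2 * U + 6) * 1 := by omega
            _ ≤ _ := by
                apply Nat.mul_le_mul _ hQ1
                apply Nat.mul_le_mul _ le_rfl
                omega
        have hi4 : L ^ (U + 3) ≤ (2 : ℝ) ^ i0 := (pow_le_pow_right₀ hL1 hBU).trans hi1
        calc 8 * (Nat.log 2 (H ^ M) : ℝ) / 2 ^ i0 ≤ 8 * (2 * M * L) / L ^ (U + 3) := by
              apply div_le_div₀ (by positivity) _ (hLp _) hi4
              linarith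
          _ = 128 * M / L ^ 2 * σ := by
              rw [hσ, pow_add]
              field_simp
              ring
          _ ≤ 1 * σ := by
              apply mul_le_mul_of_nonneg_right _ hσ0.le
              rw [div_le_one (by positivity)]
              nlinarith
          _ = σ := one_mul _
      linarith
    have b2 : |SJ D (2 ^ (l2 + 1)) (2 ^ (I + 1))| ≤ 2 * σ := by
      refine (mid_sum_A (U + 1) D (l2 + 1) I (Nat.log 2 (H ^ M)) (by positivity) (by omega) hiI (by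
        intro i hi
        have := hmid i hi
        rw [hA] at this
        exact this)).trans ?_
      have h1 : 4 / ((l2 + 1 : ℕ) : ℝ) ^ (U + 1) ≤ σ := by
        have h2 : L / 4 > 0 := by positivity
        have h3 : (L / 4) ^ (U + 1) ≤ ((l2 + 1 : ℕ) : ℝ) ^ (U + 1) := by
          apply pow_le_pow_left₀ h2.le
          push_cast
          linarith
        rw [hσ]
        rw [div_le_div_iff₀ (by positivity) (by positivity), one_mul]
        refine le_trans ?_ h3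
        rw [div_pow, le_div_iff₀ (by positivity), pow_succ L]
        have h4 : 32 * 4 ^ (U + 1) ≤ L := by linarith
        have h5 := mul_le_mul_of_nonneg_left h4 (hLp U).le
        linarith
      have h2 : 8 * (Nat.log 2 (H ^ M) : ℝ) / 2 ^ (l2 + 1) ≤ σ := by
        have h3 : L ^ (U + 3) ≤ (2 : ℝ) ^ (l2 + 1) := by
          have h4 : (H : ℝ) ≤ (2 : ℝ) ^ (l2 + 1) := by exact_mod_cast hl22.le
          refine le_trans ?_ h4
          calc L ^ (U + 3) ≤ L ^ (2 * U + 10 + E) := pow_le_pow_right₀ hL1 (by omega)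
            _ ≤ 100 * L ^ (2 * U + 10 + E) := by
                have := hLp (2 * U + 10 + E)
                linarith
            _ ≤ (H : ℝ) ^ ((1 : ℝ) / Q) := a3
            _ ≤ (H : ℝ) ^ (1 : ℝ) := by
                apply Real.rpow_le_rpow_of_exponent_le hH1
                rw [div_le_one (by exact_mod_cast hQ1)]
                exact_mod_cast hQ1
            _ = H := Real.rpow_one _
        calc 8 * (Nat.log 2 (H ^ M) : ℝ) / 2 ^ (l2 + 1) ≤ 8 * (2 * M * L) / L ^ (U + 3) := by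
              apply div_le_div₀ (by positivity) _ (hLp _) h3
              linarith
          _ = 128 * M / L ^ 2 * σ := by
              rw [hσ, pow_add]
              field_simp
              ring
          _ ≤ 1 * σ := by
              apply mul_le_mul_of_nonneg_right _ hσ0.le
              rw [div_le_one (by positivity)]
              nlinarith
          _ = σ := one_mul _
      linarith
    have hII : 2 ^ (l2 + 1) ≤ 2 ^ (I + 1) := Nat.pow_le_pow_right (by norm_num) (by omega)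
    have hIlt : I + 1 < 2 ^ (I + 1) := Nat.lt_two_pow_self
    filter_upwards [eventually_ge_atTop (2 ^ (I + 1))] with N' hN'
    have b3 : |SJ D (2 ^ (I + 1)) N'| ≤ σ := by
      refine (hn₁ (2 ^ (I + 1)) (by omega) D hsq ?_ N' hN').trans ?_
      · have h1 : (4 * D.natAbs : ℝ) ≤ 4 * (I : ℝ) ^ (M * N) := by
          have h2 : 4 * D.natAbs ≤ 4 * I ^ (M * N) := by
            calc 4 * D.natAbs ≤ 4 * H ^ M := Nat.mul_le_mul_left 4 hDn
              _ ≤ 4 * (I ^ N) ^ M := Nat.mul_le_mul_left 4 (Nat.pow_le_pow_left hHI M)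
              _ = 4 * I ^ (M * N) := by rw [← pow_mul, mul_comm N M]
          exact_mod_cast h2
        have h3 : Real.log ((2 ^ (I + 1) : ℕ) : ℝ) = ((I + 1 : ℕ) : ℝ) * Real.log 2 := by
          push_cast
          rw [Real.log_pow]
          push_cast
          ring
        rw [h3]
        refine h1.trans ?_
        obtain ⟨y, hy⟩ : ∃ y : ℝ, y = ((I + 1 : ℕ) : ℝ) := ⟨_, rfl⟩
        rw [← hy]
        have hy4 : 4 ≤ y := by
          rw [hy]; exact_mod_cast (by omega : 4 ≤ I + 1)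
        have hyI : (I : ℝ) ≤ y := by rw [hy]; exact_mod_cast (by omega : I ≤ I + 1)
        have h8 : (0.6 : ℝ) < Real.log 2 := by linarith
        have h4 : y ≤ (y * Real.log 2) ^ 2 := aux3 y _ hy4 h8
        calc 4 * (I : ℝ) ^ (M * N) ≤ y * y ^ (M * N) := by
              apply mul_le_mul hy4 _ (by positivity) (by linarith)
              exact pow_le_pow_left₀ (by positivity) hyI _
          _ = y ^ (M * N + 1) := by ring
          _ ≤ ((y * Real.log 2) ^ 2) ^ (M * N + 1) := pow_le_pow_left₀ (by linarith) h4 _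
          _ = (y * Real.log 2) ^ (2 * (M * N + 1)) := by rw [← pow_mul]
      · have h1 : (I : ℝ) * Real.log 2 ≤ Real.log (((2 ^ (I + 1) : ℕ) : ℝ) - 1) := by
          rw [← Real.log_pow]
          apply Real.log_le_log (by positivity)
          push_cast
          rw [pow_succ]
          have : (1 : ℝ) ≤ 2 ^ I := one_le_pow₀ (by norm_num)
          linarith
        have hI0 : (0 : ℝ) < I := by linarith
        have h2 : t / 2 ≤ Real.log (((2 ^ (I + 1) : ℕ) : ℝ) - 1) := by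
          refine le_trans ?_ h1
          exact aux4 t I _ ht0 htI (by linarith)
        have h3 : 140 / Real.log (((2 ^ (I + 1) : ℕ) : ℝ) - 1) ≤ 140 / (t / 2) :=
          div_le_div_of_nonneg_left (by norm_num) (by positivity) h2
        refine h3.trans ?_
        rw [hσ, div_le_div_iff₀ (by positivity) (by positivity)]
        have := hLp U
        linarith
    have hzi : 2 ^ i0 ≤ 2 ^ (l2 + 1) := Nat.pow_le_pow_right (by norm_num) (by omega)
    rw [SJ_add D (2 ^ i0) (2 ^ (I + 1)) N' (hzi.trans hII) hN', SJ_add D (2 ^ i0) (2 ^ (l2 + 1)) (2 ^ (I + 1)) hzi hII]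
    refine (abs_add_le _ _).trans ?_
    have h1 := abs_add_le (SJ D (2 ^ i0) (2 ^ (l2 + 1))) (SJ D (2 ^ (l2 + 1)) (2 ^ (I + 1)))
    have h2 : 1 / L ^ U = 8 * σ := by rw [hσ]; field_simp
    linarith

end Pool.Agent.K9h59.CF
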