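import Pool.Agent.K9h59.CF.Cn
import Pool.Agent.K9h59.CF.Pw
import Pool.Agent.K9h59.CF.TlB
import Pool.Agent.K9h59.CF.Dk
import Pool.Agent.R460.SC.Cl

set_option autoImplicit false

/-! The formula with the full Euler product for almost all constant terms in a set with a small kernel. -/

namespace Pool.Agent.K9h59.CF

open Finset Filter Topology
open Pool.Agent.W468.ConjF (SJ PJ PJ_le PJ_tendsto)
open Pool.Agent.H373R2.T7 (Vz pz Vz_pos Vz_inv_small nuB mem_pz)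
open Pool.Agent.R460.SB (Sz GoodU GoodSq)
open Pool.Agent.R460.SC (GoodT goodT_of sol_lin)
open Pool.Agent.Y614.GJ.Core (ev_log)
open Pool.Agent.Y868.TB (Sol)

open Classical in
theorem fam_main (κ K : ℝ) (hκ0 : 0 ≤ κ) (hκ : κ < 1 / 2) (hK : 1 ≤ K) {a b : ℤ} (ha : 0 < a) (δ : ℝ) (hδ : 0 < δ)
    (A C : ℕ) :
    ∃ X₀ : ℕ, ∀ X : ℕ, X₀ ≤ X → ∀ D : Finset ℤ, (∀ n ∈ D, 0 ≤ n ∧ n ≤ X) → (X : ℝ) ^ (1 / 2 + δ) ≤ D.card →
      Kern κ K ((a.natAbs + b.natAbs + 1) * X) (2 * (a.natAbs + b.natAbs + 1) * ((a.natAbs + b.natAbs + 1) * X) + 1) D →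
      ((D.filter (fun c : ℤ => ¬ GoodT a b C X c)).card : ℝ) ≤ D.card / Real.log X ^ A := by
  obtain ⟨B₁, hB₁⟩ := cnt_fam κ K hκ0 hκ hK (b := b) ha δ hδ (A + 1) (C + 1 + 5)
  obtain ⟨B₂, hB₂⟩ := tail_fam (C + 4) 2 (by norm_num) (δ / 4) (by linarith)
  obtain ⟨B', hB'⟩ : ∃ B', B' = B₁ + B₂ + C + 5 := ⟨_, rfl⟩
  obtain ⟨N₁, h1⟩ := hB₁ (B' + 1)
  obtain ⟨N₂, h2⟩ := hB₂ (B' + 1)
  obtain ⟨N₃, h3⟩ := Vz_inv_small (B' + 1)
  obtain ⟨N₅, h5⟩ := goodU_of (b := b) ha (C + 1) (B' + 1)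
  obtain ⟨w, hw⟩ : ∃ w : ℝ, w = (b.natAbs : ℝ) ^ 2 + 4 * a.natAbs := ⟨_, rfl⟩
  obtain ⟨N₄, h4⟩ := Filter.eventually_atTop.1 (ev_log (A + 2) (s := min (δ / 4) (1 / 2)) (by positivity)
    (100 + (a : ℝ) + (b ^ 2 + 3 : ℤ) + 2 * w))
  refine ⟨N₁ + N₂ + N₃ + N₄ + N₅ + 3, fun X hX D hDX hDc hKern => ?_⟩
  obtain ⟨hLb, hLp⟩ := h4 X (by omega)
  have hX1 : 1 ≤ X := by omega
  have hX0 : (0 : ℝ) < X := by exact_mod_cast hX1
  have hX1r : (1 : ℝ) ≤ X := by exact_mod_cast hX1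
  have c1 := h1 X (by omega)
  have c2 := h2 X (by omega)
  have c3 := h3 X (by omega)
  have c5 := h5 X (by omega)
  obtain ⟨L, hL⟩ : ∃ L, L = Real.log (X : ℝ) := ⟨_, rfl⟩
  have ha0 : (0 : ℝ) < a := by exact_mod_cast ha
  have hb0 : (0 : ℝ) < ((b ^ 2 + 3 : ℤ) : ℝ) := by
    have : (0 : ℤ) < b ^ 2 + 3 := by positivity
    exact_mod_cast this
  have hw0 : 0 ≤ w := by rw [hw]; positivity
  rw [← hL] at hLb hLp c1 c2 c3 c5 ⊢
  have hL100 : 100 ≤ L := by linarith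
  have hL0 : 0 < L := by linarith
  have hL1 : 1 ≤ L := by linarith
  -- the parameter `z`
  have hL1B : 1 ≤ L ^ B' := one_le_pow₀ hL1
  obtain ⟨i0, hi0⟩ : ∃ i0, i0 = Nat.log 2 ⌈L ^ B'⌉₊ + 1 := ⟨_, rfl⟩
  have hzlo : L ^ B' ≤ (2 : ℝ) ^ i0 := by
    have e1 : ⌈L ^ B'⌉₊ < 2 ^ i0 := by rw [hi0]; exact Nat.lt_pow_succ_log_self (by norm_num) _
    have e2 : (⌈L ^ B'⌉₊ : ℝ) ≤ 2 ^ i0 := by exact_mod_cast e1.le
    exact (Nat.le_ceil _).trans e2
  have hzhi : (2 : ℝ) ^ i0 ≤ L ^ (B' + 1) := by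
    have e0 : 0 < ⌈L ^ B'⌉₊ := Nat.ceil_pos.2 (by linarith)
    have e1 : 2 ^ Nat.log 2 ⌈L ^ B'⌉₊ ≤ ⌈L ^ B'⌉₊ := Nat.pow_log_le_self 2 e0.ne'
    have e2 : (2 : ℝ) ^ Nat.log 2 ⌈L ^ B'⌉₊ ≤ ⌈L ^ B'⌉₊ := by exact_mod_cast e1
    have e3 := Nat.ceil_lt_add_one (show 0 ≤ L ^ B' by linarith)
    rw [hi0, pow_succ, pow_succ L]
    nlinarith
  obtain ⟨z, hz⟩ : ∃ z, z = 2 ^ i0 := ⟨_, rfl⟩
  have hzr : (z : ℝ) = (2 : ℝ) ^ i0 := by rw [hz]; push_cast; rfl
  have hzL : L ≤ z := by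
    rw [hzr]
    exact (le_self_pow₀ hL1 (by omega)).trans hzlo
  have hz2 : 2 ≤ z := by
    have : (2 : ℝ) ≤ z := by linarith
    exact_mod_cast this
  have haz : a ≤ z := by
    have : (a : ℝ) ≤ z := by linarith
    exact_mod_cast this
  have hpw : ∀ j, j ≤ B' → L ^ j ≤ (2 : ℝ) ^ i0 := fun j hj => (pow_le_pow_right₀ hL1 hj).trans hzlo
  have d1 := c1 z (by rw [hzr]; exact hpw _ (by omega)) (by rw [hzr]; exact hzhi) D
    (fun n hn => abs_le.2 ⟨by linarith [(hDX n hn).1], (hDX n hn).2⟩) hDc hKern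
  have d3 := c3 z (by omega) (by rw [hzr]; exact hzhi)
  have d5 := c5 z (by omega) (by rw [hzr]; exact hzhi)
  -- the discriminants
  obtain ⟨R, hR⟩ : ∃ R, R = b.natAbs ^ 2 + 4 * a.natAbs * X := ⟨_, rfl⟩
  have hRr : (R : ℝ) ≤ w * X := by
    rw [hR, hw]
    push_cast
    have : (0 : ℝ) ≤ ((b.natAbs : ℕ) : ℝ) ^ 2 := by positivity
    push_cast at this
    nlinarith
  have hXh : L ≤ (X : ℝ) ^ (1 / 2 : ℝ) := by
    refine le_trans (le_self_pow₀ hL1 (by omega : A + 2 ≠ 0)) (hLp.trans ?_)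
    exact Real.rpow_le_rpow_of_exponent_le hX1r (min_le_right _ _)
  have hXX : (X : ℝ) ^ (1 / 2 : ℝ) ≤ X := by
    calc (X : ℝ) ^ (1 / 2 : ℝ) ≤ (X : ℝ) ^ (1 : ℝ) := Real.rpow_le_rpow_of_exponent_le hX1r (by norm_num)
      _ = X := Real.rpow_one _
  have hRX : R ≤ X ^ 2 := by
    have e1 : (R : ℝ) ≤ (X : ℝ) ^ 2 := by
      refine hRr.trans ?_
      rw [sq]
      apply mul_le_mul_of_nonneg_right _ hX0.le
      linarith
    exact_mod_cast e1
  have hfR : ∀ k ∈ Icc 1 X, (b ^ 2 + (-(4 * a)) * (k : ℤ)).natAbs ≤ R := by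
    intro k hk
    rw [mem_Icc] at hk
    have e1 : |b ^ 2 + (-(4 * a)) * (k : ℤ)| ≤ |b| ^ 2 + 4 * |a| * k := by
      refine (abs_add_le _ _).trans ?_
      rw [abs_pow, abs_mul, abs_neg, abs_mul, Nat.abs_cast]
      exact le_rfl
    have e2 : ((R : ℕ) : ℤ) = |b| ^ 2 + 4 * |a| * X := by
      rw [hR]
      push_cast
      ring
    have e3 : 4 * |a| * (k : ℤ) ≤ 4 * |a| * X := by
      apply mul_le_mul_of_nonneg_left _ (by positivity)
      exact_mod_cast hk.2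
    have e4 : (((b ^ 2 + (-(4 * a)) * (k : ℤ)).natAbs : ℕ) : ℤ) ≤ R := by
      rw [Int.natCast_natAbs, e2]
      linarith
    exact_mod_cast e4
  obtain ⟨W, hW⟩ : ∃ W : ℝ, W = (Nat.sqrt R : ℝ) + 1 := ⟨_, rfl⟩
  have hW0 : 0 ≤ W := by rw [hW]; positivity
  obtain ⟨Ex, hEx1, hEx2⟩ := c2 i0 (hpw _ (by omega)) hzhi (fun k : ℕ => b ^ 2 + (-(4 * a)) * (k : ℤ))
    (fun k hk => (hfR k hk).trans hRX) W hW0 (fun d => by
      rw [hW]
      exact_mod_cast sol_lin (b ^ 2) (-(4 * a)) (by omega) X R hfR d)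
  obtain ⟨h, hh⟩ : ∃ h, h = (X : ℝ) ^ (δ / 4) := ⟨_, rfl⟩
  obtain ⟨M, hM⟩ : ∃ M, M = (X : ℝ) ^ (1 / 2 : ℝ) := ⟨_, rfl⟩
  have hMs : M = Real.sqrt X := by rw [hM, Real.sqrt_eq_rpow]
  have hLh : L ^ (A + 2) ≤ h := by
    rw [hh]
    exact hLp.trans (Real.rpow_le_rpow_of_exponent_le hX1r (min_le_left _ _))
  have hLh1 : L ≤ h := (le_self_pow₀ hL1 (by omega)).trans hLh
  have hh1 : 1 ≤ h := by linarith
  rw [← hM] at hXh hXX
  have hM1 : 1 ≤ M := by linarith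
  have hWM : W ≤ h * M := by
    have e1 : (Nat.sqrt R : ℝ) ≤ w * M + M := by
      have e2 : (Nat.sqrt R : ℝ) ≤ Real.sqrt R := Real.nat_sqrt_le_real_sqrt
      have e3 : Real.sqrt R ≤ w * M + M := by
        rw [Real.sqrt_le_left (by positivity)]
        have e4 : M * M = X := by rw [hMs]; exact Real.mul_self_sqrt hX0.le
        calc (R : ℝ) ≤ w * X := hRr
          _ = w * (M * M) := by rw [e4]
          _ ≤ (w * M + M) ^ 2 := by
              have : 0 ≤ w ^ 2 * (M * M) + w * (M * M) + M * M := by positivity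
              nlinarith
      exact e2.trans e3
    rw [hW]
    have e5 : w * M + M + 1 ≤ L * M := by nlinarith
    have e6 : L * M ≤ h * M := mul_le_mul_of_nonneg_right hLh1 (by linarith)
    linarith
  have hDM : h * h * h * h * M ≤ D.card := by
    refine le_trans (le_of_eq ?_) hDc
    rw [hh, hM, ← Real.rpow_add hX0, ← Real.rpow_add hX0, ← Real.rpow_add hX0, ← Real.rpow_add hX0]
    congr 1
    ring
  have hD0 : (0 : ℝ) ≤ D.card := Nat.cast_nonneg _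
  have hExc : (Ex.card : ℝ) ≤ D.card / L ^ (A + 1) := by
    rw [le_div_iff₀ (by positivity)]
    rw [← hh] at hEx1
    calc (Ex.card : ℝ) * L ^ (A + 1) ≤ (h * (h * M)) * h := by
          apply mul_le_mul _ _ (by positivity) (by positivity)
          · exact hEx1.trans (mul_le_mul_of_nonneg_left hWM (by linarith))
          · exact (pow_le_pow_right₀ hL1 (by omega)).trans hLh
      _ = (h * h * h * M) * 1 := by ring
      _ ≤ (h * h * h * M) * h := by gcongr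
      _ = h * h * h * h * M := by ring
      _ ≤ D.card := hDM
  -- the small constant terms
  obtain ⟨Sm, hSm⟩ : ∃ Sm : Finset ℤ, Sm = Icc 0 (b ^ 2 + 2) := ⟨_, rfl⟩
  obtain ⟨F1, hF1⟩ : ∃ F1, F1 = D.filter (fun c : ℤ => b ^ 2 + 2 ≤ c ∧ ¬ GoodSq (-a) (-b) (C + 1 + 5) X z c) := ⟨_, rfl⟩
  rw [← hF1] at d1
  have hsub : D.filter (fun c : ℤ => ¬ GoodT a b C X c) ⊆ F1 ∪ Ex.image (fun n : ℕ => (n : ℤ)) ∪ Sm := by
    intro c hc
    rw [mem_filter] at hc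
    obtain ⟨g1, g4⟩ := hc
    obtain ⟨g2, g3⟩ := hDX c g1
    rw [mem_union, mem_union, hF1, mem_filter]
    by_cases hs : c < b ^ 2 + 2
    · right
      rw [hSm, mem_Icc]
      exact ⟨g2, hs.le⟩
    push Not at hs
    by_cases hE : c.toNat ∈ Ex
    · left
      right
      rw [mem_image]
      exact ⟨c.toNat, hE, Int.toNat_of_nonneg g2⟩
    left
    left
    refine ⟨g1, hs, fun hg => g4 ?_⟩
    have hb2 := sq_nonneg b
    have hcI : c.toNat ∈ Icc 1 X := by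
      rw [mem_Icc]
      constructor <;> omega
    obtain ⟨e1, e2⟩ := hEx2 c.toNat hcI hE
    have hcc : (c.toNat : ℤ) = c := Int.toNat_of_nonneg g2
    have e3 : b ^ 2 + (-(4 * a)) * ((c.toNat : ℕ) : ℤ) = b ^ 2 - 4 * a * c := by
      rw [hcc]
      ring
    simp only [e3] at e1 e2
    refine goodT_of ha hs hz2 haz (by rw [← hL]; linarith) (by rw [← hL]; exact d3) (by
      rw [← hL, hzr]
      exact hpw _ (by omega)) e1 ?_ (d5 c hs hg)
    rw [← hL, hz]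
    exact e2
  have hcard : ((D.filter (fun c : ℤ => ¬ GoodT a b C X c)).card : ℝ) ≤ (F1.card : ℝ) + (Ex.card : ℝ) + (Sm.card : ℝ) := by
    have e1 := card_le_card hsub
    have e2 := card_union_le (F1 ∪ Ex.image (fun n : ℕ => (n : ℤ))) Sm
    have e3 := card_union_le F1 (Ex.image (fun n : ℕ => (n : ℤ)))
    have e4 : (Ex.image (fun n : ℕ => (n : ℤ))).card ≤ Ex.card := card_image_le
    have e5 : (D.filter (fun c : ℤ => ¬ GoodT a b C X c)).card ≤ F1.card + Ex.card + Sm.card := by omega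
    exact_mod_cast e5
  refine hcard.trans ?_
  have hSmc : (Sm.card : ℝ) ≤ D.card / L ^ (A + 1) := by
    have e3 : (Sm.card : ℝ) ≤ L := by
      rw [hSm, Int.card_Icc]
      have e1 : ((b ^ 2 + 2 + 1 - 0 : ℤ).toNat : ℤ) = b ^ 2 + 3 := by
        rw [Int.toNat_of_nonneg (by have := sq_nonneg b; omega)]
        ring
      have e2 : (((b ^ 2 + 2 + 1 - 0 : ℤ).toNat : ℕ) : ℝ) = ((b ^ 2 + 3 : ℤ) : ℝ) := by exact_mod_cast e1
      rw [e2]
      linarith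
    rw [le_div_iff₀ (by positivity)]
    calc (Sm.card : ℝ) * L ^ (A + 1) ≤ L * L ^ (A + 1) := mul_le_mul_of_nonneg_right e3 (by positivity)
      _ = L ^ (A + 2) * 1 := by ring
      _ ≤ h * (h * h * h * M) := by
          apply mul_le_mul hLh _ (by norm_num) (by linarith)
          have : 1 ≤ h * h * h := by nlinarith
          nlinarith
      _ = h * h * h * h * M := by ring
      _ ≤ D.card := hDM
  calc (F1.card : ℝ) + (Ex.card : ℝ) + (Sm.card : ℝ) ≤ D.card / L ^ (A + 1) + D.card / L ^ (A + 1) + D.card / L ^ (A + 1) := by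
        linarith
    _ = D.card / L ^ A * (3 / L) := by
        rw [pow_succ]
        field_simp
        ring
    _ ≤ D.card / L ^ A * 1 := by
        apply mul_le_mul_of_nonneg_left _ (by positivity)
        rw [div_le_one hL0]
        linarith
    _ = _ := mul_one _

open Classical in
/-- the theorem for the integers with restricted digits -/
theorem dig_main {g : ℕ} (κ : ℝ) (hκ0 : 0 ≤ κ) (hκ : κ < 1 / 2) {a b : ℤ} (ha : 0 < a) (A C K : ℕ) :
    ∃ k₀ : ℕ, ∀ k : ℕ, k₀ ≤ k → ∀ D : ℕ → Finset ℕ, Dg g k κ D → ∀ c₀ : ℕ, c₀ ≤ K * g ^ k →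
      (((S g D k).filter (fun v : ℕ => ¬ GoodT a b C ((K + 1) * g ^ k) ((c₀ : ℤ) + (v : ℤ)))).card : ℝ) ≤
        (S g D k).card / Real.log (((K + 1) * g ^ k : ℕ) : ℝ) ^ A := by
  rcases Nat.lt_or_ge g 3 with hg | hg
  · refine ⟨0, fun k _ D hD => ?_⟩
    have := hD.hg
    omega
  obtain ⟨δ, hδ⟩ : ∃ δ, δ = (1 / 2 - κ) / 2 := ⟨_, rfl⟩
  have hδ0 : 0 < δ := by rw [hδ]; linarith
  obtain ⟨hh, hhh⟩ : ∃ hh, hh = a.natAbs + b.natAbs + 1 := ⟨_, rfl⟩
  obtain ⟨C₁, hC₁⟩ : ∃ C₁ : ℕ, C₁ = 2 * hh * (hh * (K + 1)) + 1 := ⟨_, rfl⟩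
  have hC₁0 : (0 : ℝ) ≤ C₁ := Nat.cast_nonneg _
  have hC₁1 : (1 : ℝ) ≤ C₁ := by
    rw [hC₁]
    push_cast
    have : (0 : ℝ) ≤ 2 * hh * (hh * (K + 1)) := by positivity
    linarith
  obtain ⟨X₀, h0⟩ := fam_main κ (16 * C₁ + 64 * (C₁ + 1) * (g : ℝ) ^ 2) hκ0 hκ (by
    have : (0 : ℝ) ≤ 64 * (C₁ + 1) * (g : ℝ) ^ 2 := by positivity
    linarith) (b := b) ha δ hδ0 A C
  refine ⟨X₀ + K + 1, fun k hk D hD c₀ hc₀ => ?_⟩
  have hg0 : 0 < g := by omega
  have hgr : (0 : ℝ) < g := by exact_mod_cast hg0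
  have hg1 : (1 : ℝ) ≤ g := by exact_mod_cast hg0
  have hgk : 0 < g ^ k := Nat.pow_pos hg0
  obtain ⟨X, hX⟩ : ∃ X, X = (K + 1) * g ^ k := ⟨_, rfl⟩
  have hkX : k < g ^ k := Nat.lt_pow_self (by omega)
  have hXg : g ^ k ≤ X := by rw [hX]; exact Nat.le_mul_of_pos_left _ (by omega)
  rw [← hX]
  have hXr : (X : ℝ) = (K + 1) * (g : ℝ) ^ k := by rw [hX]; push_cast; ring
  have hX0 : (0 : ℝ) < X := by rw [hXr]; positivity
  have hcc : ((Sh (c₀ : ℤ) (S g D k)).card : ℝ) = (S g D k).card := by rw [card_Sh]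
  have hmain := h0 X (by omega) (Sh (c₀ : ℤ) (S g D k)) (by
    intro n hn
    unfold Sh at hn
    rw [mem_image] at hn
    obtain ⟨v, hv, rfl⟩ := hn
    unfold S at hv
    rw [mem_filter, mem_range] at hv
    have h1 : c₀ + v ≤ X := by
      rw [hX]
      have := hv.1
      nlinarith
    constructor
    · positivity
    · exact_mod_cast h1) (by
    rw [card_Sh]
    refine le_trans ?_ (card_S_ge hD)
    have h1 : (X : ℝ) ^ (1 / 2 + δ) ≤ (K + 1) * ((g : ℝ) ^ (1 - κ)) ^ k := by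
      rw [hXr, Real.mul_rpow (by positivity) (by positivity)]
      apply mul_le_mul
      · calc ((K : ℝ) + 1) ^ (1 / 2 + δ) ≤ ((K : ℝ) + 1) ^ (1 : ℝ) := by
              apply Real.rpow_le_rpow_of_exponent_le
              · have : (0 : ℝ) ≤ K := Nat.cast_nonneg _
                linarith
              · rw [hδ]; linarith
          _ = _ := Real.rpow_one _
      · rw [← Real.rpow_natCast, ← Real.rpow_mul hgr.le, ← Real.rpow_natCast, ← Real.rpow_mul hgr.le]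
        apply Real.rpow_le_rpow_of_exponent_le hg1
        rw [mul_comm]
        apply mul_le_mul_of_nonneg_right _ (Nat.cast_nonneg _)
        rw [hδ]
        linarith
      · positivity
      · positivity
    refine h1.trans ?_
    rw [mul_pow]
    apply mul_le_mul_of_nonneg_right _ (by positivity)
    have h2 : K + 1 ≤ 11 ^ k := by
      have : k < 11 ^ k := Nat.lt_pow_self (by norm_num)
      omega
    exact_mod_cast h2) (by
    rw [← hhh]
    apply kern_dig hD (by linarith) (by positivity)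
    · exact hXg.trans (Nat.le_mul_of_pos_left _ (by omega))
    · rw [hX, hC₁]
      calc hh * ((K + 1) * g ^ k) = (hh * (K + 1)) * g ^ k := by ring
        _ ≤ (2 * hh * (hh * (K + 1)) + 1) * g ^ k := by
            apply Nat.mul_le_mul_right
            have : hh * (K + 1) ≤ 2 * hh * (hh * (K + 1)) := Nat.le_mul_of_pos_left _ (by omega)
            omega
    · rw [hX, hC₁]
      calc 2 * hh * (hh * ((K + 1) * g ^ k)) + 1 ≤ 2 * hh * (hh * ((K + 1) * g ^ k)) + g ^ k := by omega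
        _ = (2 * hh * (hh * (K + 1)) + 1) * g ^ k := by ring)
  rw [hcc] at hmain
  refine le_trans ?_ hmain
  have e1 : ((S g D k).filter (fun v : ℕ => ¬ GoodT a b C X ((c₀ : ℤ) + (v : ℤ)))).card =
      (((S g D k).filter (fun v : ℕ => ¬ GoodT a b C X ((c₀ : ℤ) + (v : ℤ)))).image (fun v : ℕ => (c₀ : ℤ) + (v : ℤ))).card := by
    rw [card_image_of_injective]
    intro x y h
    have h' : (c₀ : ℤ) + (x : ℤ) = (c₀ : ℤ) + (y : ℤ) := h
    omega
  rw [e1]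
  rw [Nat.cast_le]
  apply card_le_card
  intro n hn
  rw [mem_image] at hn
  obtain ⟨v, hv, rfl⟩ := hn
  rw [mem_filter] at hv ⊢
  refine ⟨?_, hv.2⟩
  unfold Sh
  rw [mem_image]
  exact ⟨v, hv.1, rfl⟩

end Pool.Agent.K9h59.CF
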