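import Pool.Agent.K9h59.CF.Sch
import Pool.Agent.R460.SB.Min
import Pool.Agent.R460.SQ.Core
import Pool.Agent.R460.GS.Core2

set_option autoImplicit false

/-! The major arcs. -/

namespace Pool.Agent.K9h59.CF

open Finset
open Pool.Agent.H807R2.Dav (ee norm_ee ee_add ee_zero ee_add_int)
open Pool.Agent.R460.SB (SF SF_le)
open Pool.Agent.R460.GS (ApAt abelI ee_step)
open Pool.Agent.R460.SQ (mj mem_mj card_mj)
open Pool.Agent.Y614.GJ.Core (dirich)

/-- the major arcs of level `R` -/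
noncomputable def mjr (M N R : ℕ) : Finset ℕ :=
  @Finset.filter ℕ (fun t : ℕ => ∃ k ∈ Icc 1 R, ∃ h : ℤ, |(t : ℝ) / M - h / (k : ℝ)| ≤ R / (k * N))
    (Classical.decPred _) (range M)

lemma mem_mjr {M N R t : ℕ} : t ∈ mjr M N R ↔ t ∈ range M ∧
    ∃ k ∈ Icc 1 R, ∃ h : ℤ, |(t : ℝ) / M - h / (k : ℝ)| ≤ R / (k * N) := by
  unfold mjr
  exact @Finset.mem_filter ℕ _ (Classical.decPred _) (range M) t

lemma mjr_sub (M N R : ℕ) : mjr M N R ⊆ range M := fun _ ht => (mem_mjr.1 ht).1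

lemma mjr_mono {M N R R' : ℕ} (h : R ≤ R') : mjr M N R ⊆ mjr M N R' := by
  intro t ht
  rw [mem_mjr] at ht ⊢
  obtain ⟨h1, k, hk, c, hc⟩ := ht
  rw [mem_Icc] at hk
  refine ⟨h1, k, mem_Icc.2 ⟨hk.1, hk.2.trans h⟩, c, hc.trans ?_⟩
  have : (R : ℝ) ≤ R' := by exact_mod_cast h
  gcongr

lemma card_mjr {M N R : ℕ} (hM : 1 ≤ M) (hN : 1 ≤ N) (hR : R ^ 2 ≤ N) :
    ((mjr M N R).card : ℝ) ≤ R * ((R + 3) * (2 * (M * (R / N)) + 1)) := by
  have hN0 : (0 : ℝ) < N := by exact_mod_cast hN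
  have hsub : mjr M N R ⊆ mj M 1 R (R / N) := by
    intro t ht
    rw [mem_mjr] at ht
    rw [mem_mj]
    obtain ⟨h1, k, hk, c, hc⟩ := ht
    refine ⟨h1, k, hk, c, ?_⟩
    rw [mul_one]
    refine hc.trans ?_
    have hk1 : (1 : ℝ) ≤ k := by exact_mod_cast (mem_Icc.1 hk).1
    apply div_le_div_of_nonneg_left (Nat.cast_nonneg _) hN0
    nlinarith
  have h1 : ((mjr M N R).card : ℝ) ≤ ((mj M 1 R (R / N)).card : ℝ) := by exact_mod_cast card_le_card hsub
  refine h1.trans ?_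
  have h2 := card_mj (D := M) (q := 1) (K := R) (w := (R : ℝ) / N) hM le_rfl (by positivity) (by
    have : ((R : ℝ)) ^ 2 ≤ N := by exact_mod_cast hR
    push_cast
    rw [mul_one, div_mul_eq_mul_div, div_le_one hN0]
    nlinarith)
  push_cast at h2
  rw [mul_one] at h2
  exact h2

lemma sum_zmod_one (f : ZMod 1 → ℝ) : ∑ k : ZMod 1, f k = f 0 := by
  have : (univ : Finset (ZMod 1)) = {0} := by
    ext x
    rw [mem_singleton]
    exact ⟨fun _ => Subsingleton.elim _ _, fun _ => mem_univ _⟩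
  rw [this, sum_singleton]

lemma SF_one (α γ : ℤ) (y : ℕ) (β : ℝ) : SF α γ y 1 β 0 = Tq α γ y β := by
  unfold SF Tq
  congr 1
  apply filter_true_of_mem
  intro m _
  exact Subsingleton.elim _ _

/-- the quadratic sum off the major arcs -/
lemma Tq_le {α γ : ℤ} (hα : α ≠ 0) {y N M R t : ℕ} (hR : 1 ≤ R) (hRN : R ^ 2 ≤ N) (hy : y ^ 2 ≤ N)
    (ht : t ∈ range M) (hnot : t ∉ mjr M N (2 * α.natAbs * R)) :
    ‖Tq α γ y ((t : ℝ) / M)‖ ^ 2 ≤ 400 * (1 + Real.log N) * (N / R) := by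
  have hR0 : (0 : ℝ) < R := by exact_mod_cast hR
  have hR1 : (1 : ℝ) ≤ R := by exact_mod_cast hR
  have hRR : R ≤ N := le_trans (by nlinarith) hRN
  have hN1 : 1 ≤ N := hR.trans hRR
  have hN0 : (0 : ℝ) < N := by exact_mod_cast hN1
  have hRN' : (R : ℝ) ^ 2 ≤ N := by exact_mod_cast hRN
  have hnat : (α.natAbs : ℝ) = |(α : ℝ)| := by rw [Nat.cast_natAbs, Int.cast_abs]
  have hnat0 : 0 < α.natAbs := Int.natAbs_pos.2 hα
  have hα1 : (1 : ℝ) ≤ |(α : ℝ)| := by rw [← hnat]; exact_mod_cast hnat0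
  obtain ⟨β, hβ⟩ : ∃ β, β = (t : ℝ) / M := ⟨_, rfl⟩
  rw [← hβ]
  obtain ⟨n, hn⟩ : ∃ n, n = N / R := ⟨_, rfl⟩
  have hn0 : R ≤ n := by
    rw [hn, Nat.le_div_iff_mul_le (by omega)]
    nlinarith
  have hn1 : (n : ℝ) ≤ N / R := by rw [hn]; exact Nat.cast_div_le
  have hn2 : (N : ℝ) / R < n + 1 := by
    rw [hn, div_lt_iff₀ hR0]
    have := Nat.lt_div_mul_add (a := N) (b := R) (by omega)
    have h2 : (N : ℝ) < (N / R : ℕ) * R + R := by exact_mod_cast this
    linarith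
  obtain ⟨j, h, hj, hcop, hx⟩ := dirich (2 * α * β) (by omega : 0 < n)
  obtain ⟨s, hs⟩ : ∃ s, s = j + 1 := ⟨_, rfl⟩
  rw [← hs] at hj hcop hx
  have hs1 : 1 ≤ s := by omega
  have hs0 : (0 : ℝ) < s := by exact_mod_cast hs1
  rcases le_or_gt s R with hsR | hsR
  · exfalso
    apply hnot
    rw [mem_mjr]
    refine ⟨ht, 2 * α.natAbs * s, mem_Icc.2 ⟨?_, ?_⟩, α.sign * h, ?_⟩
    · have : 0 < 2 * α.natAbs * s := by positivity
      omega
    · exact Nat.mul_le_mul_left _ hsR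
    · rw [← hβ]
      have e0 : (((α.sign * h : ℤ) : ℝ)) * α = |(α : ℝ)| * h := by
        have : ((α.sign * α : ℤ) : ℝ) = |(α : ℝ)| := by
          rw [Int.sign_mul_self_eq_abs, Int.cast_abs]
        push_cast at this ⊢
        rw [← this]
        ring
      have hα' : |(α : ℝ)| ≠ 0 := by linarith
      have hαne : (α : ℝ) ≠ 0 := by exact_mod_cast hα
      have e1 : |2 * α * β - h / s| = 2 * |(α : ℝ)| * |β - ((α.sign * h : ℤ) : ℝ) / ((2 * α.natAbs * s : ℕ) : ℝ)| := by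
        have e5 : ((2 * α.natAbs * s : ℕ) : ℝ) = 2 * |(α : ℝ)| * s := by
          rw [← hnat]; push_cast; ring
        have e4 : 2 * (α : ℝ) * β - h / s = 2 * α * (β - ((α.sign * h : ℤ) : ℝ) / ((2 * α.natAbs * s : ℕ) : ℝ)) := by
          obtain ⟨σ, hσ⟩ : ∃ σ, σ = ((α.sign * h : ℤ) : ℝ) := ⟨_, rfl⟩
          rw [← hσ] at e0 ⊢
          rw [e5, mul_sub (2 * (α : ℝ))]
          congr 1
          rw [← mul_div_assoc, div_eq_div_iff hs0.ne' (by positivity)]
          linear_combination (-2 * (s : ℝ)) * e0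
        rw [e4, abs_mul, abs_mul, abs_two]
      rw [e1] at hx
      have e3 : 1 / (((n : ℝ) + 1) * s) ≤ R / (N * s) := by
        rw [div_le_div_iff₀ (by positivity) (by positivity), one_mul]
        have : (N : ℝ) ≤ R * (n + 1) := by
          have := (div_lt_iff₀ hR0).1 hn2
          linarith
        nlinarith
      have h3 := hx.trans e3
      rw [show ((2 * α.natAbs * R : ℕ) : ℝ) / (((2 * α.natAbs * s : ℕ) : ℝ) * N) = R / (N * s) by
        push_cast
        rw [hnat]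
        field_simp]
      have h4 : |β - ((α.sign * h : ℤ) : ℝ) / ((2 * α.natAbs * s : ℕ) : ℝ)| ≤
          2 * |(α : ℝ)| * |β - ((α.sign * h : ℤ) : ℝ) / ((2 * α.natAbs * s : ℕ) : ℝ)| := by
        have := abs_nonneg (β - ((α.sign * h : ℤ) : ℝ) / ((2 * α.natAbs * s : ℕ) : ℝ))
        nlinarith
      exact h4.trans h3
  · have e1 : |2 * α * ((1 : ℕ) : ℝ) * β - h / s| ≤ 1 / (s : ℝ) ^ 2 := by
      rw [Nat.cast_one, mul_one]
      refine hx.trans ?_
      rw [sq]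
      apply one_div_le_one_div_of_le (by positivity)
      apply mul_le_mul_of_nonneg_right _ hs0.le
      have : (s : ℝ) ≤ n := by exact_mod_cast hj
      linarith
    have h1 := SF_le α γ y 1 s β hs1 hcop e1
    rw [sum_zmod_one (fun k => ‖SF α γ y 1 β k‖ ^ 2), SF_one, Nat.div_one] at h1
    refine h1.trans ?_
    have hyr : (y : ℝ) ≤ Real.sqrt N := by
      apply Real.le_sqrt_of_sq_le
      exact_mod_cast hy
    obtain ⟨Z, hZ⟩ : ∃ Z, Z = (N : ℝ) / R := ⟨_, rfl⟩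
    obtain ⟨S, hS⟩ : ∃ S, S = Real.sqrt N := ⟨_, rfl⟩
    rw [← hS] at hyr
    rw [← hZ]
    have hSS : S * S = N := by rw [hS]; exact Real.mul_self_sqrt hN0.le
    have hS1 : 1 ≤ S := by rw [hS]; exact Real.one_le_sqrt.2 (by exact_mod_cast hN1)
    have hRS : (R : ℝ) ≤ S := by
      rw [hS]
      apply Real.le_sqrt_of_sq_le
      exact hRN'
    have hSZ : S ≤ Z := by
      rw [hZ, le_div_iff₀ hR0, ← hSS]
      exact mul_le_mul_of_nonneg_left hRS (by linarith)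
    have hZ0 : 0 < Z := by linarith
    have hsZ : (s : ℝ) ≤ Z := by
      have : (s : ℝ) ≤ n := by exact_mod_cast hj
      rw [hZ]
      linarith
    have hsR' : (R : ℝ) ≤ s := by exact_mod_cast hsR.le
    have hlog : Real.log s ≤ Real.log N := by
      apply Real.log_le_log hs0
      have : Z ≤ N := by
        rw [hZ]
        exact div_le_self hN0.le hR1
      linarith
    have hl0 : 0 ≤ Real.log s := Real.log_natCast_nonneg _
    obtain ⟨L, hL⟩ : ∃ L, L = Real.log (N : ℝ) := ⟨_, rfl⟩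
    rw [← hL] at hlog ⊢
    have hL0 : 0 ≤ L := hl0.trans hlog
    have t1 : (((y + 1 : ℕ) : ℝ) / s) * y ≤ 2 * Z := by
      push_cast
      rw [div_mul_eq_mul_div, div_le_iff₀ hs0]
      calc ((y : ℝ) + 1) * y ≤ (S + S) * S := by
            apply mul_le_mul (by linarith) hyr (Nat.cast_nonneg _) (by linarith)
        _ = 2 * N := by rw [← hSS]; ring
        _ = 2 * Z * R := by rw [hZ]; field_simp
        _ ≤ 2 * Z * s := by gcongr
    have t2 : (((y + 1 : ℕ) : ℝ) / s) * (s * (1 + Real.log s)) ≤ 2 * Z * (1 + L) := by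
      have e : (((y + 1 : ℕ) : ℝ) / s) * (s * (1 + Real.log s)) = ((y + 1 : ℕ) : ℝ) * (1 + Real.log s) := by
        field_simp
      rw [e]
      push_cast
      apply mul_le_mul (by linarith) (by linarith) (by linarith) (by positivity)
    have t3 : s * (1 + Real.log s) ≤ Z * (1 + L) := mul_le_mul hsZ (by linarith) (by linarith) hZ0.le
    have e5 : (((y + 1 : ℕ) : ℝ) / s + 1) * (39 * y + 3 * s * (1 + Real.log s)) =
        39 * ((((y + 1 : ℕ) : ℝ) / s) * y) + 3 * ((((y + 1 : ℕ) : ℝ) / s) * (s * (1 + Real.log s))) + 39 * y +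
          3 * (s * (1 + Real.log s)) := by ring
    rw [e5]
    have h6 : Z ≤ Z * (1 + L) := by nlinarith
    have h7 : (y : ℝ) ≤ Z := hyr.trans hSZ
    nlinarith

lemma Gh_maj {N K U M R : ℕ} {G : ℕ → ℂ} (hAp : ApAt N K U G) (hRK : (R : ℝ) ≤ Real.log N ^ K) (hN : 1 ≤ N)
    {t : ℕ} (ht : t ∈ mjr M N R) (hL : 0 ≤ Real.log N) :
    ‖Gh G N ((t : ℝ) / M)‖ ≤ R * ((N / Real.log N ^ U) * (1 + 7 * R)) := by
  have hN0 : (0 : ℝ) < N := by exact_mod_cast hN
  rw [mem_mjr] at ht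
  obtain ⟨-, k, hk, h, hh⟩ := ht
  rw [mem_Icc] at hk
  obtain ⟨η, hη⟩ : ∃ η, η = (t : ℝ) / M - h / (k : ℝ) := ⟨_, rfl⟩
  rw [← hη] at hh
  have hk0 : (0 : ℝ) < k := by exact_mod_cast hk.1
  have hk1 : (1 : ℝ) ≤ k := by exact_mod_cast hk.1
  have hβ : (t : ℝ) / M = h / (k : ℝ) + η := by rw [hη]; ring
  rw [hβ]
  have hηN : |η| * N ≤ R := by
    calc |η| * N ≤ (R / (k * N)) * N := by gcongr
      _ = R / k := by field_simp
      _ ≤ R := div_le_self (Nat.cast_nonneg _) hk1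
  have e1 : Gh G N (h / (k : ℝ) + η) = ∑ r ∈ range k, ee ((r : ℝ) * (h / (k : ℝ))) *
      ∑ l ∈ Icc 1 N, ee ((l : ℝ) * η) • (if l ≡ r [MOD k] then G l else 0) := by
    unfold Gh
    rw [← sum_fiberwise_of_maps_to (s := Icc 1 N) (t := range k) (g := fun l => l % k)
      (fun l _ => mem_range.2 (Nat.mod_lt _ hk.1))]
    refine sum_congr rfl fun r hr => ?_
    rw [mem_range] at hr
    rw [mul_sum, sum_filter]
    refine sum_congr rfl fun l _ => ?_
    have h1 : l ≡ r [MOD k] ↔ l % k = r := by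
      unfold Nat.ModEq
      rw [Nat.mod_eq_of_lt hr]
    simp only [h1]
    split_ifs with h2
    · rw [smul_eq_mul]
      have h3 : (l : ℝ) * (h / (k : ℝ) + η) = ((r : ℝ) * (h / (k : ℝ)) + l * η) + (((l / k : ℕ) : ℤ) * h : ℤ) := by
        have h4 : (l : ℝ) = (k : ℝ) * ((l / k : ℕ) : ℝ) + r := by
          rw [← h2]
          exact_mod_cast (Nat.div_add_mod l k).symm
        obtain ⟨q, hq⟩ : ∃ q, q = l / k := ⟨_, rfl⟩
        rw [← hq] at h4 ⊢
        rw [mul_add, Int.cast_mul, Int.cast_natCast]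
        have : (l : ℝ) * (h / (k : ℝ)) = (r : ℝ) * (h / (k : ℝ)) + (q : ℝ) * h := by
          rw [h4]
          field_simp
          ring
        rw [this]
        ring
      rw [h3, ee_add_int, ee_add]
      ring
    · simp
  rw [e1]
  refine (norm_sum_le _ _).trans ?_
  have h5 : ∀ r ∈ range k, ‖ee ((r : ℝ) * (h / (k : ℝ))) *
      ∑ l ∈ Icc 1 N, ee ((l : ℝ) * η) • (if l ≡ r [MOD k] then G l else 0)‖ ≤
        (N / Real.log N ^ U) * (1 + 7 * R) := by
    intro r _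
    rw [norm_mul, norm_ee, one_mul]
    have h6 := abelI (fun l => if l ≡ r [MOD k] then G l else 0) (fun l => ee ((l : ℝ) * η)) (N / Real.log N ^ U)
      (7 * |η|) N (fun m hm => by
        have h7 := hAp k hk.1 ((by exact_mod_cast hk.2 : (k : ℝ) ≤ R).trans hRK) r m hm
        rw [sum_filter] at h7
        exact h7) (fun i => (norm_ee _).le) (fun i => ee_step η i)
    refine h6.trans ?_
    apply mul_le_mul_of_nonneg_left _ (by positivity)
    nlinarith
  refine (sum_le_sum h5).trans ?_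
  rw [sum_const, card_range, nsmul_eq_mul]
  apply mul_le_mul_of_nonneg_right
  · exact_mod_cast hk.2
  · positivity

end Pool.Agent.K9h59.CF
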