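import Pool.Agent.K9h59.CF.Mean2
import Pool.Agent.R460.SC.Fa

set_option autoImplicit false

/-! The number of the exceptional integers in a set with a small kernel. -/

namespace Pool.Agent.K9h59.CF

open Finset
open Pool.Agent.H373R2.T7 (lamz Vz pz Vz_pos Vz_inv_small lamz_ap lam_ap mem_pz)
open Pool.Agent.R460.GS (ApAt)
open Pool.Agent.Y614.GJ.Core (ev_log)
open Pool.Agent.R460.SQ (thp ppw vm_split ppw_nn sum_ppw DZ ap_DZ bd_DZ)
open Pool.Agent.R460.SB (cvs fv fv_abs fv_neg cvs_fv fv_two near_abs kap kap_nat kap_ge GoodSq Sz pp_count grid_step GoodF GoodU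
  Sz_low loc_lt unweight wl wl_bd)

/-- the correlation for the negative values vanishes -/
lemma cvs_zero {α γ : ℤ} {G : ℕ → ℂ} {y N : ℕ} {n : ℤ} (h : ∀ m ∈ Icc 1 y, |fv α γ n m| ≤ N) (h0 : ∀ m : ℕ, 0 < fv α γ n m) :
    cvs (-α) (-γ) G y N (-n) = 0 := by
  rw [cvs_fv (fun m hm => by rw [fv_neg, abs_neg]; exact h m hm)]
  apply sum_eq_zero
  intro m _
  rw [if_neg]
  rw [fv_neg]
  have := h0 m
  omega

/-- Chebyshev's inequality on a grid -/
lemma cvs_cheb {α γ : ℤ} {G : ℕ → ℂ} {N Y Tg s : ℕ} (D H : Finset ℤ) {R t : ℝ} (hH : H ⊆ D)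
    (hms : ∀ y : ℕ, y ^ 2 ≤ N → ∑ n ∈ D, ‖cvs α γ G y N n‖ ^ 2 ≤ R) (hY : Y ^ 2 ≤ N)
    (hbig : ∀ n ∈ H, ∃ i ∈ range (Tg + 1), t ≤ ‖cvs α γ G (min (i * s) Y) N n‖) (ht : 0 < t) :
    (H.card : ℝ) ≤ (Tg + 1) * R / t ^ 2 := by
  rw [le_div_iff₀ (by positivity)]
  obtain ⟨V, hV⟩ : ∃ V : ℕ → ℤ → ℝ, V = fun i n => ‖cvs α γ G (min (i * s) Y) N n‖ ^ 2 := ⟨_, rfl⟩
  have hV0 : ∀ i n, 0 ≤ V i n := fun i n => by rw [hV]; positivity
  have h1 : ∀ n ∈ H, t ^ 2 ≤ ∑ i ∈ range (Tg + 1), V i n := by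
    intro n hn
    obtain ⟨i, hi, h2⟩ := hbig n hn
    have h3 : V i n ≤ ∑ i ∈ range (Tg + 1), V i n :=
      single_le_sum (f := fun i => V i n) (fun i _ => hV0 i _) hi
    refine le_trans ?_ h3
    rw [hV]
    exact pow_le_pow_left₀ ht.le h2 2
  have h2 : ∀ i, ∑ n ∈ H, V i n ≤ R := by
    intro i
    have h3 := hms (min (i * s) Y) ((Nat.pow_le_pow_left (min_le_right _ _) 2).trans hY)
    refine le_trans ?_ h3
    rw [hV]
    exact sum_le_sum_of_subset_of_nonneg hH fun n _ _ => sq_nonneg _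
  calc (H.card : ℝ) * t ^ 2 = ∑ _n ∈ H, t ^ 2 := by rw [sum_const, nsmul_eq_mul]
    _ ≤ ∑ n ∈ H, ∑ i ∈ range (Tg + 1), V i n := sum_le_sum h1
    _ = ∑ i ∈ range (Tg + 1), ∑ n ∈ H, V i n := sum_comm
    _ ≤ ∑ _i ∈ range (Tg + 1), R := sum_le_sum fun i _ => h2 i
    _ = (Tg + 1) * R := by rw [sum_const, card_range, nsmul_eq_mul]; push_cast; ring

open Classical in
theorem cnt_fam (κ K : ℝ) (hκ0 : 0 ≤ κ) (hκ : κ < 1 / 2) (hK : 1 ≤ K) {a b : ℤ} (ha : 0 < a) (δ : ℝ) (hδ : 0 < δ) (A C : ℕ) :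
    ∃ B : ℕ, ∀ E : ℕ, ∃ X₀ : ℕ, ∀ X : ℕ, X₀ ≤ X → ∀ z : ℕ, Real.log X ^ B ≤ z → (z : ℝ) ≤ Real.log X ^ E →
      ∀ D : Finset ℤ, (∀ n ∈ D, |n| ≤ X) → (X : ℝ) ^ (1 / 2 + δ) ≤ D.card →
      Kern κ K ((a.natAbs + b.natAbs + 1) * X) (2 * (a.natAbs + b.natAbs + 1) * ((a.natAbs + b.natAbs + 1) * X) + 1) D →
      ((D.filter (fun c : ℤ => b ^ 2 + 2 ≤ c ∧ ¬ GoodSq (-a) (-b) C X z c)).card : ℝ) ≤ D.card / Real.log X ^ A := by
  obtain ⟨A', hA'⟩ : ∃ A', A' = A + 3 * C + 8 := ⟨_, rfl⟩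
  obtain ⟨hh, hhh⟩ : ∃ hh, hh = a.natAbs + b.natAbs + 1 := ⟨_, rfl⟩
  obtain ⟨B₁, U, N₁, h1⟩ := mean_gen κ K hκ0 hκ hK (-a) (-b) (by omega) (2 * hh + 1) A'
  refine ⟨B₁ + 1, fun E => ?_⟩
  obtain ⟨N₂, hlz⟩ := lamz_ap E (U + 1)
  obtain ⟨N₃, hla⟩ := lam_ap B₁ (U + 1)
  obtain ⟨N₄, hVz⟩ := Vz_inv_small E
  obtain ⟨X₁, h2⟩ := near_abs (α := -a) (γ := -b) (by omega) (C + 1) E
  obtain ⟨X₂, h3⟩ := Filter.eventually_atTop.1 (ev_log (A + C + 4) (s := min δ (1 / 2)) (by positivity)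
    (2 ^ B₁ + 100 + 64 * ((hh : ℝ) + 1) ^ 2))
  refine ⟨N₁ + N₂ + N₃ + N₄ + X₁ + X₂ + 3, fun X hX z hz1 hz2 D hDX hDc hKern => ?_⟩
  rw [← hhh] at hKern
  have hX1 : 1 ≤ X := by omega
  have hX0 : (0 : ℝ) < X := by exact_mod_cast hX1
  have hX1r : (1 : ℝ) ≤ X := by exact_mod_cast hX1
  obtain ⟨hLb, hLp⟩ := h3 X (by omega)
  have c2 := h2 X (by omega)
  obtain ⟨N, hN⟩ : ∃ N, N = hh * X := ⟨_, rfl⟩
  rw [← hN] at hKern
  have hh1 : 1 ≤ hh := by omega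
  have hh1r : (1 : ℝ) ≤ hh := by exact_mod_cast hh1
  have hXN : X ≤ N := by
    rw [hN]
    exact Nat.le_mul_of_pos_left _ hh1
  have hNr : (N : ℝ) = hh * X := by
    rw [hN]
    push_cast
    ring
  have hN0 : (0 : ℝ) < N := by rw [hNr]; positivity
  have hL2 : Real.log X ≤ Real.log N := Real.log_le_log hX0 (by exact_mod_cast hXN)
  have h2B : (1 : ℝ) ≤ 2 ^ B₁ := one_le_pow₀ (by norm_num)
  have hg2 : 0 ≤ ((hh : ℝ) + 1) ^ 2 := sq_nonneg _
  have hgg : (hh : ℝ) ≤ ((hh : ℝ) + 1) ^ 2 := by nlinarith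
  have hL3 : Real.log N ≤ 2 * Real.log X := by
    rw [hNr, Real.log_mul (by positivity) hX0.ne']
    have h6 : Real.log hh ≤ hh := (Real.log_le_sub_one_of_pos (by linarith)).trans (by linarith)
    linarith
  have hbdX := hVz X (by omega)
  have hbdN := hVz N (by omega)
  have hl1 := hlz N (by omega)
  have hl2 := hla N (by omega)
  have c1 := h1 N (by omega)
  obtain ⟨L, hLd⟩ : ∃ L, L = Real.log (X : ℝ) := ⟨_, rfl⟩
  rw [← hLd] at hLb hLp c2 hL2 hL3 hz1 hz2 hbdX ⊢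
  have hL100 : 100 ≤ L := by linarith
  have hg32 : 64 * ((hh : ℝ) + 1) ^ 2 ≤ L := by linarith
  have hL0 : 0 < L := by linarith
  have hL1 : 1 ≤ L := by linarith
  have hL0' : 0 < Real.log N := by linarith
  have hL1' : 1 ≤ Real.log N := by linarith
  have hL2' : 2 ≤ Real.log N := by linarith
  have hzB : Real.log N ^ B₁ ≤ z := by
    calc Real.log N ^ B₁ ≤ (2 * L) ^ B₁ := pow_le_pow_left₀ hL0'.le hL3 _
      _ = 2 ^ B₁ * L ^ B₁ := mul_pow _ _ _
      _ ≤ L * L ^ B₁ := mul_le_mul_of_nonneg_right (by linarith) (by positivity)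
      _ = L ^ (B₁ + 1) := by ring
      _ ≤ z := hz1
  have hz2' : 2 ≤ z := by
    have h6 : L ^ 1 ≤ L ^ (B₁ + 1) := pow_le_pow_right₀ hL1 (by omega)
    have : (2 : ℝ) ≤ z := by linarith
    exact_mod_cast this
  have hz2N : (z : ℝ) ≤ Real.log N ^ E := hz2.trans (pow_le_pow_left₀ hL0.le hL2 _)
  have hVN : (Vz z)⁻¹ ≤ Real.log N := hbdN z (by omega) hz2N
  have hVX : (Vz z)⁻¹ ≤ L := hbdX z (by omega) hz2
  have hAp : ApAt N B₁ U (DZ z) := by
    refine ap_DZ hL2' ?_ hl2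
    intro q hq hqK c y hy
    refine hl1 z (by omega) hz2N q hq ?_ c y hy
    exact_mod_cast hqK.trans hzB
  -- the mean square
  obtain ⟨R, hR⟩ : ∃ R, R = (D.card : ℝ) * (N / Real.log N ^ A') := ⟨_, rfl⟩
  have hms : ∀ y : ℕ, y ^ 2 ≤ N → ∑ n ∈ D, ‖cvs (-a) (-b) (DZ z) y N n‖ ^ 2 ≤ R := by
    intro y hy
    rw [hR]
    apply c1 (2 * hh * N + 1) (by nlinarith) (by nlinarith) D hKern (DZ z) (fun n hn => bd_DZ hVN hL1' hn) hAp y hy
    intro n hn m hm l hl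
    rw [mem_Icc] at hm hl
    have k1 := abs_le.1 (hDX n hn)
    have hm2 : (m : ℤ) ^ 2 ≤ N := by
      have : m ^ 2 ≤ N := (Nat.pow_le_pow_left hm.2 2).trans hy
      exact_mod_cast this
    have hm3 : (m : ℤ) ≤ N := by
      have h6 : m ≤ m ^ 2 := Nat.le_self_pow (by norm_num) m
      have : m ≤ N := h6.trans (by exact_mod_cast hm2)
      exact_mod_cast this
    have hm0 : (0 : ℤ) ≤ m := Int.natCast_nonneg _
    have hl' : (l : ℤ) ≤ N := by exact_mod_cast hl.2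
    have hl0 : (1 : ℤ) ≤ l := by exact_mod_cast hl.1
    have hXN' : (X : ℤ) ≤ N := by exact_mod_cast hXN
    have k2 : |-a * (m : ℤ) ^ 2 + -b * (m : ℤ)| ≤ (|a| + |b|) * N := by
      refine (abs_add_le _ _).trans ?_
      rw [abs_mul, abs_mul, abs_neg, abs_neg, abs_of_nonneg (sq_nonneg (m : ℤ)), abs_of_nonneg hm0, add_mul]
      exact add_le_add (mul_le_mul_of_nonneg_left hm2 (abs_nonneg _)) (mul_le_mul_of_nonneg_left hm3 (abs_nonneg _))
    have k3 := abs_le.1 k2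
    have k4 : ((2 * hh * N + 1 : ℕ) : ℤ) = 2 * (|a| + |b| + 1) * N + 1 := by
      rw [hhh]
      push_cast
      ring
    rw [k4, abs_lt]
    have k5 : 0 ≤ (|a| + |b|) * (N : ℤ) := by positivity
    constructor <;> linarith [k1.1, k1.2, k3.1, k3.2]
  obtain ⟨M, hM⟩ : ∃ M, M = Real.sqrt X := ⟨_, rfl⟩
  have hM0 : 0 < M := by rw [hM]; exact Real.sqrt_pos.2 hX0
  have hMM : M * M = X := by rw [hM]; exact Real.mul_self_sqrt hX0.le
  have hMr : M = (X : ℝ) ^ (1 / 2 : ℝ) := by rw [hM, Real.sqrt_eq_rpow]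
  have hML : L ^ (C + 4) ≤ M := by
    rw [hMr]
    refine le_trans ?_ (hLp.trans (Real.rpow_le_rpow_of_exponent_le hX1r (min_le_right _ _)))
    exact pow_le_pow_right₀ hL1 (by omega)
  have hMD : M * L ^ (A + C + 4) ≤ D.card := by
    refine le_trans ?_ hDc
    rw [Real.rpow_add hX0, ← hMr]
    apply mul_le_mul_of_nonneg_left _ hM0.le
    exact hLp.trans (Real.rpow_le_rpow_of_exponent_le hX1r (min_le_left _ _))
  obtain ⟨Y, hY⟩ : ∃ Y, Y = Nat.sqrt X := ⟨_, rfl⟩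
  have hY2 : Y ^ 2 ≤ X := by rw [hY]; exact Nat.sqrt_le' X
  have hYy : ∀ y : ℕ, y ^ 2 ≤ X → y ≤ Y := by
    intro y hy
    rw [hY]
    exact Nat.le_sqrt'.2 hy
  have hYM : (Y : ℝ) ≤ M := by
    rw [hM]
    apply Real.le_sqrt_of_sq_le
    exact_mod_cast hY2
  have hNN : ((-a).natAbs + (-b).natAbs + 1) * X ≤ N := by
    rw [Int.natAbs_neg, Int.natAbs_neg, hN, hhh]
  -- the two sets
  obtain ⟨t, ht⟩ : ∃ t : ℝ, t = M / (4 * L ^ C) := ⟨_, rfl⟩
  have ht0 : 0 < t := by rw [ht]; positivity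
  obtain ⟨H, hH⟩ : ∃ H, H = D.filter (fun c : ℤ => b ^ 2 + 2 ≤ c ∧ ¬ GoodSq (-a) (-b) C X z c) := ⟨_, rfl⟩
  rw [← hH]
  obtain ⟨PP, hPP⟩ : ∃ PP : ℤ → ℝ, PP = fun n => ∑ m ∈ Icc 1 Y, ppw (fv (-a) (-b) n m).natAbs := ⟨_, rfl⟩
  have hmem : ∀ n ∈ H, n ∈ D ∧ |n| ≤ X ∧ b ^ 2 + 2 ≤ n ∧ ¬ GoodSq (-a) (-b) C X z n := by
    intro n hn
    rw [hH, mem_filter] at hn
    exact ⟨hn.1, hDX n hn.1, hn.2.1, hn.2.2⟩
  have hsplit : (H.card : ℝ) = ((H.filter (fun n => t ≤ PP n)).card : ℝ) +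
      ((H.filter (fun n => ¬ t ≤ PP n)).card : ℝ) := by
    exact_mod_cast (card_filter_add_card_filter_not (s := H) (fun n => t ≤ PP n)).symm
  have hD0 : (0 : ℝ) ≤ D.card := Nat.cast_nonneg _
  -- the prime powers
  have hH1 : ((H.filter (fun n => t ≤ PP n)).card : ℝ) ≤ (D.card : ℝ) / L ^ A / 2 := by
    have k1 := pp_count (α := -a) (γ := -b) (X := X) (N := N) (Y := Y) (hX1.trans hXN) hNN
      (H.filter (fun n => t ≤ PP n)) (fun n hn => (hmem n (mem_filter.1 hn).1).2.1) hY2 (t := t)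
      (fun n hn => by
        have := (mem_filter.1 hn).2
        rw [hPP] at this
        exact this)
    have hsN : Real.sqrt N ≤ hh * M := by
      rw [hNr, Real.sqrt_mul (by linarith), ← hM]
      have : Real.sqrt hh ≤ hh := by
        rw [Real.sqrt_le_left (by linarith)]
        nlinarith
      gcongr
    have k2 : ((H.filter (fun n => t ≤ PP n)).card : ℝ) * t ≤ M * (4 * (hh * M) * (2 * L)) := by
      refine k1.trans ?_
      gcongr
    have k3 : ((H.filter (fun n => t ≤ PP n)).card : ℝ) ≤ M * (4 * (hh * M) * (2 * L)) / t := by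
      rw [le_div_iff₀ ht0]
      exact k2
    refine k3.trans ?_
    have e1 : M * (4 * (hh * M) * (2 * L)) / t = 32 * hh * M * L ^ (C + 1) := by
      rw [ht]
      field_simp
      ring
    rw [e1, div_div, le_div_iff₀ (by positivity)]
    calc 32 * hh * M * L ^ (C + 1) * (L ^ A * 2) = (64 * hh) * M * L ^ (A + C + 1) := by ring
      _ ≤ L ^ 2 * M * L ^ (A + C + 1) := by
          have : 64 * (hh : ℝ) ≤ L ^ 2 := by nlinarith
          gcongr
      _ = M * L ^ (A + C + 3) := by ring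
      _ ≤ M * L ^ (A + C + 4) := by
          have := pow_le_pow_right₀ hL1 (by omega : A + C + 3 ≤ A + C + 4)
          gcongr
      _ ≤ D.card := hMD
  -- the correlations
  obtain ⟨Tg, hTg⟩ : ∃ Tg, Tg = ⌈L ^ (C + 3)⌉₊ := ⟨_, rfl⟩
  have hT1 : L ^ (C + 3) ≤ Tg := by rw [hTg]; exact Nat.le_ceil _
  have hLV : 1 ≤ L ^ (C + 3) := one_le_pow₀ hL1
  have hTg0 : 0 < Tg := by
    have : (0 : ℝ) < Tg := by linarith
    exact_mod_cast this
  have hT2 : (Tg : ℝ) + 1 ≤ L ^ (C + 4) := by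
    have h4 : (Tg : ℝ) < L ^ (C + 3) + 1 := by
      rw [hTg]
      exact Nat.ceil_lt_add_one (by positivity)
    calc (Tg : ℝ) + 1 ≤ 3 * L ^ (C + 3) := by linarith
      _ ≤ L * L ^ (C + 3) := mul_le_mul_of_nonneg_right (by linarith) (by positivity)
      _ = L ^ (C + 4) := by ring
  obtain ⟨s, hs⟩ : ∃ s, s = Y / Tg + 1 := ⟨_, rfl⟩
  have hs1 : 1 ≤ s := by rw [hs]; exact Nat.le_add_left 1 _
  have hsr : (s : ℝ) ≤ 2 * M / L ^ (C + 3) := by
    have a1 : ((Y / Tg : ℕ) : ℝ) ≤ (Y : ℝ) / Tg := Nat.cast_div_le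
    have a2 : (Y : ℝ) / Tg ≤ M / L ^ (C + 3) := by gcongr
    have a3 : 1 ≤ M / L ^ (C + 3) := by
      rw [one_le_div (by positivity)]
      refine le_trans ?_ hML
      exact pow_le_pow_right₀ hL1 (by omega)
    have a4 : 2 * M / L ^ (C + 3) = M / L ^ (C + 3) + M / L ^ (C + 3) := by ring
    rw [hs, a4]
    push_cast
    linarith
  obtain ⟨H₂, hH₂⟩ : ∃ H₂, H₂ = H.filter (fun n => ¬ t ≤ PP n) := ⟨_, rfl⟩
  have hbig : ∀ n ∈ H₂, ∃ i ∈ range (Tg + 1), t ≤ ‖cvs (-a) (-b) (DZ z) (min (i * s) Y) N n‖ := by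
    intro n hn
    rw [hH₂, mem_filter] at hn
    obtain ⟨-, m1, mb, m3⟩ := hmem n hn.1
    have m4 := hn.2
    rw [not_le, hPP] at m4
    simp only at m4
    unfold GoodSq at m3
    push Not at m3
    obtain ⟨y, hy, hlt⟩ := m3
    rw [← hM, ← hLd] at hlt
    have hyY := hYy y hy
    have d1 : y / s * s ≤ y := Nat.div_mul_le_self y s
    have d0 : y / s ∈ range (Tg + 1) := by
      rw [mem_range]
      have d2 : Y < Tg * s := by
        rw [hs]
        exact Nat.lt_mul_div_succ Y hTg0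
      have d3 : y / s < Tg := by
        rw [Nat.div_lt_iff_lt_mul hs1]
        omega
      omega
    -- the prime powers
    have p1 : ∑ m ∈ Icc 1 y, ppw (fv (-a) (-b) n m).natAbs ≤ t := by
      refine le_trans ?_ m4.le
      apply sum_le_sum_of_subset_of_nonneg (Icc_subset_Icc le_rfl hyY)
      intro m _ _
      exact ppw_nn _
    have p1' : 0 ≤ ∑ m ∈ Icc 1 y, ppw (fv (-a) (-b) n m).natAbs := sum_nonneg fun _ _ => ppw_nn _
    have p2 : ∑ m ∈ Icc 1 y, ArithmeticFunction.vonMangoldt (fv (-a) (-b) n m).natAbs =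
        ∑ m ∈ Icc 1 y, thp (fv (-a) (-b) n m).natAbs + ∑ m ∈ Icc 1 y, ppw (fv (-a) (-b) n m).natAbs := by
      rw [← sum_add_distrib]
      exact sum_congr rfl fun m _ => vm_split _
    have g1 := grid_step (α := -a) (γ := -b) (n := n) (X := X) (N := N) (y := y) (s := s) (z := z) hNN m1 hy hs1 hVN
    have hfvN : ∀ m ∈ Icc 1 (y / s * s), |fv (-a) (-b) n m| ≤ N := by
      intro m hm
      have hm' : m ∈ Icc 1 y := Icc_subset_Icc le_rfl d1 hm
      exact fv_abs hNN m1 hy hm'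
    have g2 := c2 z hz2' hz2 hVX n (y / s * s) N ((Nat.pow_le_pow_left d1 2).trans hy) hfvN
    rw [cvs_zero hfvN (fun m => lt_of_lt_of_le (by norm_num) (fv_two ha mb m)), norm_zero, add_zero, ← hM] at g2
    have g3 : 2 * ((s : ℝ) * Real.log N) ≤ M / L ^ C * (8 / L ^ 2) := by
      calc 2 * ((s : ℝ) * Real.log N) ≤ 2 * ((2 * M / L ^ (C + 3)) * (2 * L)) := by gcongr
        _ = M / L ^ C * (8 / L ^ 2) := by
            rw [pow_add L C 3]
            field_simp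
            ring
    have g4 : M / L ^ (C + 1) = M / L ^ C * (1 / L) := by
      rw [pow_succ]
      field_simp
    have g5 : 8 / L ^ 2 + 1 / L ≤ 1 / 2 := by
      have a1 : 8 / L ^ 2 ≤ 1 / 4 := by
        rw [div_le_div_iff₀ (by positivity) (by norm_num)]
        nlinarith
      have a2 : 1 / L ≤ 1 / 4 := by
        rw [div_le_div_iff₀ hL0 (by norm_num)]
        linarith
      linarith
    have g6 : t = M / L ^ C * (1 / 4) := by rw [ht]; field_simp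
    have g7 : 0 < M / L ^ C := by positivity
    have g8 := mul_le_mul_of_nonneg_left g5 g7.le
    rw [g4] at g2
    have g9 : |∑ m ∈ Icc 1 y, thp (fv (-a) (-b) n m).natAbs - Sz (-a) (-b) n z * y| ≤
        |∑ m ∈ Icc 1 y, ArithmeticFunction.vonMangoldt (fv (-a) (-b) n m).natAbs - Sz (-a) (-b) n z * y| + t := by
      rw [p2]
      have e : ∑ m ∈ Icc 1 y, thp (fv (-a) (-b) n m).natAbs - Sz (-a) (-b) n z * y =
          (∑ m ∈ Icc 1 y, thp (fv (-a) (-b) n m).natAbs +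
            ∑ m ∈ Icc 1 y, ppw (fv (-a) (-b) n m).natAbs - Sz (-a) (-b) n z * y) -
          ∑ m ∈ Icc 1 y, ppw (fv (-a) (-b) n m).natAbs := by ring
      rw [e]
      refine (abs_sub _ _).trans (add_le_add le_rfl ?_)
      rw [abs_of_nonneg p1']
      exact p1
    rw [mul_add] at g8
    refine ⟨y / s, d0, ?_⟩
    rw [min_eq_left (d1.trans hyY)]
    linarith
  have hH2 : (H₂.card : ℝ) ≤ (D.card : ℝ) / L ^ A / 2 := by
    have k1 := cvs_cheb (α := -a) (γ := -b) (G := DZ z) (N := N) (Y := Y) (Tg := Tg) (s := s) D H₂ (R := R) (t := t)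
      (by rw [hH₂, hH]; exact (filter_subset _ _).trans (filter_subset _ _)) hms (hY2.trans hXN) hbig ht0
    refine k1.trans ?_
    have hR0 : 0 ≤ R := by rw [hR]; positivity
    have e1 : R ≤ (D.card : ℝ) * (hh * X / L ^ A') := by
      rw [hR, hNr]
      apply mul_le_mul_of_nonneg_left _ hD0
      apply div_le_div_of_nonneg_left (by positivity) (by positivity)
      rw [← hNr]
      exact pow_le_pow_left₀ hL0.le hL2 _
    calc ((Tg : ℝ) + 1) * R / t ^ 2 ≤ L ^ (C + 4) * ((D.card : ℝ) * (hh * X / L ^ A')) / t ^ 2 := by gcongr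
      _ = 16 * hh * ((D.card : ℝ) / L ^ A) / L ^ 4 := by
          have e2 : L ^ A' = L ^ A * L ^ (2 * C) * L ^ (C + 4) * L ^ 4 := by
            rw [hA', ← pow_add, ← pow_add, ← pow_add]
            congr 1
            omega
          have e3 : t ^ 2 = X / (16 * L ^ (2 * C)) := by
            rw [ht, div_pow, mul_pow, ← pow_mul, mul_comm C 2, sq M, hMM]
            congr 1
            ring
          rw [e2, e3]
          field_simp
      _ ≤ (D.card : ℝ) / L ^ A / 2 := by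
          have e4 : 16 * hh * ((D.card : ℝ) / L ^ A) / L ^ 4 = (D.card : ℝ) / L ^ A * (16 * hh / L ^ 4) := by ring
          have e5 : (D.card : ℝ) / L ^ A / 2 = (D.card : ℝ) / L ^ A * (1 / 2) := by ring
          rw [e4, e5]
          apply mul_le_mul_of_nonneg_left _ (by positivity)
          rw [div_le_div_iff₀ (by positivity) (by norm_num)]
          have : L ≤ L ^ 4 := le_self_pow₀ hL1 (by norm_num)
          nlinarith
  rw [hsplit, ← hH₂]
  linarith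

end Pool.Agent.K9h59.CF
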