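import Pool.Agent.H807R2.Dav1

set_option autoImplicit false

/-! The exponential sums over the integers with restricted digits. -/

namespace Pool.Agent.K9h59.CF

open Finset
open Pool.Agent.H807R2.Dav (ee norm_ee ee_add ee_zero ee_add_int ee_pow ee_int dd dd_nonneg dd_ge dd_add_int KK KK_le KK_le'
  KK_nonneg sum_inv_range sum_inv_range')

/-- the integers below `g ^ k` whose `i`-th digit in base `g` belongs to `D i` for all `i < k` -/
def S (g : ℕ) (D : ℕ → Finset ℕ) (k : ℕ) : Finset ℕ :=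
  (range (g ^ k)).filter (fun n : ℕ => ∀ i < k, n / g ^ i % g ∈ D i)

lemma sum_S_succ {R : Type*} [AddCommMonoid R] {g : ℕ} {D : ℕ → Finset ℕ} {k : ℕ} (hg : 0 < g) (hD : D k ⊆ range g)
    (f : ℕ → R) : ∑ v ∈ S g D (k + 1), f v = ∑ d ∈ D k, ∑ u ∈ S g D k, f (u + g ^ k * d) := by
  have hgk : 0 < g ^ k := Nat.pow_pos hg
  rw [← sum_product']
  symm
  refine sum_nbij' (fun p => p.2 + g ^ k * p.1) (fun v => (v / g ^ k, v % g ^ k)) ?_ ?_ ?_ ?_ ?_
  · intro p hp
    rw [mem_product] at hp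
    obtain ⟨h1, h2⟩ := hp
    unfold S at h2 ⊢
    rw [mem_filter, mem_range] at h2 ⊢
    have h3 := mem_range.1 (hD h1)
    have e : ∀ i ≤ k, (p.2 + g ^ k * p.1) / g ^ i = p.2 / g ^ i + g ^ (k - i) * p.1 := by
      intro i hi
      have e1 : g ^ k * p.1 = g ^ i * (g ^ (k - i) * p.1) := by
        rw [← mul_assoc, ← pow_add]
        congr 2
        omega
      rw [e1, Nat.add_mul_div_left _ _ (Nat.pow_pos hg)]
    refine ⟨?_, fun i hi => ?_⟩
    · calc p.2 + g ^ k * p.1 < g ^ k + g ^ k * p.1 := Nat.add_lt_add_right h2.1 _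
        _ = g ^ k * (p.1 + 1) := by ring
        _ ≤ g ^ k * g := Nat.mul_le_mul_left _ h3
        _ = g ^ (k + 1) := by ring
    · rw [e i (by omega)]
      rcases Nat.lt_or_ge i k with h4 | h4
      · have e2 : g ^ (k - i) * p.1 = g * (g ^ (k - i - 1) * p.1) := by
          rw [← mul_assoc, ← pow_succ']
          congr 2
          omega
        rw [e2, Nat.add_mul_mod_self_left]
        exact h2.2 i h4
      · have h5 : i = k := by omega
        subst h5
        rw [Nat.sub_self, pow_zero, one_mul, Nat.div_eq_of_lt h2.1, zero_add, Nat.mod_eq_of_lt h3]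
        exact h1
  · intro v hv
    unfold S at hv
    rw [mem_filter, mem_range] at hv
    rw [mem_product]
    have h1 : v / g ^ k < g := by
      rw [Nat.div_lt_iff_lt_mul hgk, ← pow_succ']
      exact hv.1
    refine ⟨?_, ?_⟩
    · have := hv.2 k (by omega)
      rwa [Nat.mod_eq_of_lt h1] at this
    · unfold S
      rw [mem_filter, mem_range]
      refine ⟨Nat.mod_lt _ hgk, fun i hi => ?_⟩
      have := hv.2 i (by omega)
      have e1 : v % g ^ k / g ^ i % g = v / g ^ i % g := by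
        have e2 : v = v % g ^ k + g ^ i * (g * (g ^ (k - i - 1) * (v / g ^ k))) := by
          have e3 : g ^ i * (g * (g ^ (k - i - 1) * (v / g ^ k))) = g ^ k * (v / g ^ k) := by
            rw [← mul_assoc, ← mul_assoc, ← pow_succ, ← pow_add]
            congr 2
            omega
          rw [e3]
          exact (Nat.mod_add_div v (g ^ k)).symm
        conv_rhs => rw [e2, Nat.add_mul_div_left _ _ (Nat.pow_pos hg), Nat.add_mul_mod_self_left]
      simp only
      rw [e1]
      exact this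
  · intro p hp
    rw [mem_product] at hp
    have h2 : p.2 < g ^ k := by
      have := hp.2
      unfold S at this
      rw [mem_filter, mem_range] at this
      exact this.1
    ext
    · simp only
      rw [Nat.add_mul_div_left _ _ hgk, Nat.div_eq_of_lt h2, zero_add]
    · simp only
      rw [Nat.add_mul_mod_self_left, Nat.mod_eq_of_lt h2]
  · intro v _
    exact Nat.mod_add_div v (g ^ k)
  · intro p _
    rfl

lemma S_zero (g : ℕ) (D : ℕ → Finset ℕ) : S g D 0 = {0} := by
  unfold S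
  ext v
  rw [mem_filter, mem_range, mem_singleton, pow_zero]
  constructor
  · rintro ⟨h, -⟩
    omega
  · rintro rfl
    exact ⟨by omega, fun i hi => by omega⟩

lemma card_S {g : ℕ} {D : ℕ → Finset ℕ} (hg : 0 < g) : ∀ k : ℕ, (∀ i < k, D i ⊆ range g) →
    (S g D k).card = ∏ i ∈ range k, (D i).card := by
  intro k
  induction k with
  | zero => intro _; rw [S_zero]; simp
  | succ k ih =>
    intro h
    rw [card_eq_sum_ones, sum_S_succ hg (h k (by omega)), prod_range_succ, ← ih (fun i hi => h i (by omega))]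
    simp only [sum_const, smul_eq_mul, mul_one]
    ring

/-- the sum over the digits at one place -/
noncomputable def F (D : Finset ℕ) (x : ℝ) : ℂ := ∑ d ∈ D, ee (d * x)

lemma sum_S {g : ℕ} {D : ℕ → Finset ℕ} (hg : 0 < g) (x : ℝ) : ∀ k : ℕ, (∀ i < k, D i ⊆ range g) →
    ∑ v ∈ S g D k, ee (v * x) = ∏ i ∈ range k, F (D i) ((g : ℝ) ^ i * x) := by
  intro k
  induction k with
  | zero => intro _; rw [S_zero]; simp [ee_zero]
  | succ k ih =>
    intro h
    rw [sum_S_succ hg (h k (by omega)), prod_range_succ, ← ih (fun i hi => h i (by omega))]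
    unfold F
    rw [sum_mul_sum, sum_comm]
    refine sum_congr rfl fun u _ => sum_congr rfl fun d _ => ?_
    rw [← ee_add]
    congr 1
    push_cast
    ring

/-- a union of `T` intervals of digits -/
lemma F_le {g T : ℕ} {D : Finset ℕ} (hD : D ⊆ range g) (hT : (D.filter (fun x => x + 1 ∉ D)).card ≤ T) (hT1 : 1 ≤ T)
    (x : ℝ) : ‖F D x‖ ≤ T * KK g x := by
  have hT1r : (1 : ℝ) ≤ T := by exact_mod_cast hT1
  have hTr : ((D.filter (fun x => x + 1 ∉ D)).card : ℝ) ≤ T := by exact_mod_cast hT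
  have h1 : ‖F D x‖ ≤ g := by
    unfold F
    refine (norm_sum_le _ _).trans ?_
    simp only [norm_ee, sum_const, nsmul_eq_mul, mul_one]
    have := card_le_card hD
    rw [card_range] at this
    exact_mod_cast this
  have h2 : dd x * ‖F D x‖ ≤ 2 * T := by
    have e1 : (1 - ee x) * F D x = ∑ d ∈ D, ee ((d : ℝ) * x) -
        ∑ d ∈ (D.image (fun d : ℕ => d + 1) : Finset ℕ), ee ((d : ℝ) * x) := by
      unfold F
      rw [sum_image (fun a _ b _ h => Nat.succ_injective h), sub_mul, one_mul, mul_sum]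
      congr 1
      refine sum_congr rfl fun d _ => ?_
      rw [← ee_add]
      congr 1
      push_cast
      ring
    obtain ⟨D', hD'⟩ : ∃ D' : Finset ℕ, D' = D.image (fun d : ℕ => d + 1) := ⟨_, rfl⟩
    rw [← hD'] at e1
    have e2 : ∑ d ∈ D, ee (d * x) - ∑ d ∈ D', ee (d * x) = ∑ d ∈ D \ D', ee (d * x) - ∑ d ∈ D' \ D, ee (d * x) := by
      rw [← sum_inter_add_sum_sdiff D D', ← sum_inter_add_sum_sdiff D' D, inter_comm D' D]
      ring
    have hcD : D'.card = D.card := by
      rw [hD']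
      exact card_image_of_injective _ Nat.succ_injective
    have hc1 : (D' \ D).card ≤ (D.filter (fun x => x + 1 ∉ D)).card := by
      have : D' \ D ⊆ (D.filter (fun x => x + 1 ∉ D)).image (fun d : ℕ => d + 1) := by
        intro d hd
        rw [mem_sdiff, hD', mem_image] at hd
        obtain ⟨⟨c, hc, rfl⟩, h⟩ := hd
        rw [mem_image]
        exact ⟨c, mem_filter.2 ⟨hc, h⟩, rfl⟩
      exact (card_le_card this).trans card_image_le
    have hc2 : (D \ D').card = (D' \ D).card := card_sdiff_comm hcD.symm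
    have h3 : dd x * ‖F D x‖ = ‖∑ d ∈ D \ D', ee (d * x) - ∑ d ∈ D' \ D, ee (d * x)‖ := by
      rw [← e2, ← e1, norm_mul]
      rfl
    rw [h3]
    refine (norm_sub_le _ _).trans ?_
    have h4 : ∀ A : Finset ℕ, ‖∑ d ∈ A, ee (d * x)‖ ≤ A.card := by
      intro A
      refine (norm_sum_le _ _).trans ?_
      simp only [norm_ee, sum_const, nsmul_eq_mul, mul_one]
      exact le_rfl
    have h5 := h4 (D \ D')
    have h6 := h4 (D' \ D)
    rw [hc2] at h5
    have h7 : ((D' \ D).card : ℝ) ≤ ((D.filter (fun x => x + 1 ∉ D)).card : ℝ) := by exact_mod_cast hc1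
    linarith
  unfold KK
  have h0 := dd_nonneg x
  have hg0 : (0 : ℝ) ≤ g := Nat.cast_nonneg _
  rw [mul_div_assoc', le_div_iff₀ (by positivity)]
  have h5 : (g : ℝ) * (dd x * ‖F D x‖) ≤ g * (2 * T) := mul_le_mul_of_nonneg_left h2 hg0
  nlinarith

/-- the majorant on a window -/
noncomputable def Wf (g r : ℕ) : ℝ := if r = 0 ∨ g ≤ r + 2 then 3 * g else (3 * g / 4) * (1 / r + 1 / ((g : ℝ) - 2 - r))

lemma Wf_nonneg (g r : ℕ) : 0 ≤ Wf g r := by
  unfold Wf
  split_ifs with h
  · positivity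
  · push Not at h
    have : (r : ℝ) + 2 < g := by exact_mod_cast h.2
    have h2 : 0 < (g : ℝ) - 2 - r := by linarith
    positivity

lemma sum_Wf {g : ℕ} (hg : 3 ≤ g) : ∑ r ∈ range g, Wf g r ≤ g * (11 + 2 * Real.log g) := by
  have hg0 : (0 : ℝ) < g := by exact_mod_cast (by omega : 0 < g)
  have h1 : ∑ r ∈ range g, Wf g r ≤ ∑ r ∈ range g, (if r = 0 ∨ g ≤ r + 2 then 3 * (g : ℝ) else 0) +
      ∑ r ∈ range (g - 2), (3 * (g : ℝ) / 4) * (1 / r + 1 / ((g : ℝ) - 2 - r)) := by
    have h2 : ∑ r ∈ range g, Wf g r ≤ ∑ r ∈ range g, ((if r = 0 ∨ g ≤ r + 2 then 3 * (g : ℝ) else 0) +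
        (if r < g - 2 then (3 * (g : ℝ) / 4) * (1 / r + 1 / ((g : ℝ) - 2 - r)) else 0)) := by
      refine sum_le_sum fun r hr => ?_
      unfold Wf
      split_ifs with h3 h4 h4
      · have h5 : (r : ℝ) + 2 < g := by exact_mod_cast (by omega : r + 2 < g)
        have : 0 < (g : ℝ) - 2 - r := by linarith
        have : 0 ≤ (3 * (g : ℝ) / 4) * (1 / r + 1 / ((g : ℝ) - 2 - r)) := by positivity
        linarith
      · linarith
      · linarith
      · exfalso
        push Not at h3
        omega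
    refine h2.trans (le_of_eq ?_)
    rw [sum_add_distrib]
    congr 1
    rw [← sum_filter]
    apply sum_congr _ fun _ _ => rfl
    ext r
    rw [mem_filter, mem_range, mem_range]
    omega
  refine h1.trans ?_
  have h3 : ∑ r ∈ range g, (if r = 0 ∨ g ≤ r + 2 then 3 * (g : ℝ) else 0) ≤ 9 * g := by
    rw [← sum_filter, sum_const, nsmul_eq_mul]
    have h4 : ((range g).filter (fun r => r = 0 ∨ g ≤ r + 2)).card ≤ 3 := by
      calc ((range g).filter (fun r => r = 0 ∨ g ≤ r + 2)).card ≤ ({0, g - 2, g - 1} : Finset ℕ).card := by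
            apply card_le_card
            intro r hr
            rw [mem_filter, mem_range] at hr
            rw [mem_insert, mem_insert, mem_singleton]
            omega
        _ ≤ 3 := card_le_three
    have h5 : (((range g).filter (fun r => r = 0 ∨ g ≤ r + 2)).card : ℝ) ≤ 3 := by exact_mod_cast h4
    nlinarith
  have h6 : ∑ r ∈ range (g - 2), (3 * (g : ℝ) / 4) * (1 / r + 1 / ((g : ℝ) - 2 - r)) ≤
      (3 * (g : ℝ) / 4) * (2 * (1 + Real.log g)) := by
    rw [← mul_sum]
    apply mul_le_mul_of_nonneg_left _ (by positivity)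
    rw [sum_add_distrib]
    have h7 := sum_inv_range (g - 2)
    have h8 := sum_inv_range' (g - 2)
    have h9 : Real.log ((g - 2 : ℕ) : ℝ) ≤ Real.log g := by
      apply Real.log_le_log
      · exact_mod_cast (by omega : 0 < g - 2)
      · exact_mod_cast (by omega : g - 2 ≤ g)
    have e : ∑ r ∈ range (g - 2), 1 / ((g : ℝ) - 2 - r) = ∑ r ∈ range (g - 2), 1 / (((g - 2 : ℕ) : ℝ) - r) := by
      refine sum_congr rfl fun r _ => ?_
      rw [Nat.cast_sub (by omega)]
      push_cast
      rfl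
    rw [e]
    linarith
  have hlog : 0 ≤ Real.log g := Real.log_natCast_nonneg _
  nlinarith [mul_nonneg hg0.le hlog]

lemma KK_window {g : ℕ} (hg : 3 ≤ g) {x : ℝ} {m : ℤ} (h0 : (m : ℝ) ≤ g * x) (h1 : g * x ≤ m + 2) :
    KK g x ≤ Wf g (m % (g : ℤ)).toNat := by
  have hg0 : (0 : ℝ) < g := by exact_mod_cast (by omega : 0 < g)
  have hgz : (0 : ℤ) < g := by exact_mod_cast (by omega : 0 < g)
  obtain ⟨r, hr⟩ : ∃ r, r = (m % (g : ℤ)).toNat := ⟨_, rfl⟩
  have hrm : (r : ℤ) = m % g := by rw [hr]; exact Int.toNat_of_nonneg (Int.emod_nonneg _ hgz.ne')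
  rw [← hr]
  unfold Wf
  split_ifs with h
  · exact KK_le (Nat.cast_nonneg _) x
  · push Not at h
    obtain ⟨h2, h3⟩ := h
    have hr1 : (1 : ℝ) ≤ r := by exact_mod_cast Nat.one_le_iff_ne_zero.2 h2
    have hr2 : (r : ℝ) + 3 ≤ g := by exact_mod_cast (by omega : r + 3 ≤ g)
    obtain ⟨u, hu⟩ : ∃ u, u = x - ((m / (g : ℤ) : ℤ) : ℝ) := ⟨_, rfl⟩
    have e1 : x = u + ((m / (g : ℤ) : ℤ) : ℝ) := by rw [hu]; ring
    have e2 : (m : ℝ) = (r : ℝ) + g * ((m / (g : ℤ) : ℤ) : ℝ) := by
      have := Int.emod_add_mul_ediv m (g : ℤ)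
      rw [← hrm] at this
      exact_mod_cast this.symm
    have h4 : (r : ℝ) ≤ g * u := by
      rw [e1, e2] at h0
      linarith
    have h5 : g * u ≤ r + 2 := by
      rw [e1, e2] at h1
      linarith
    have h6 : (r : ℝ) / g ≤ u := by rw [div_le_iff₀ hg0]; linarith
    have h7 : u ≤ ((r : ℝ) + 2) / g := by rw [le_div_iff₀ hg0]; linarith
    have h8 : ((r : ℝ) + 2) / g ≤ 1 := by rw [div_le_one hg0]; linarith
    have h9 : 0 ≤ (r : ℝ) / g := by positivity
    have h10 := dd_ge (h9.trans h6) (h7.trans h8)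
    obtain ⟨w, hw⟩ : ∃ w, w = min (r : ℝ) ((g : ℝ) - 2 - r) := ⟨_, rfl⟩
    have hw1 : 1 ≤ w := by
      rw [hw]
      exact le_min hr1 (by linarith)
    have h11 : w / g ≤ min u (1 - u) := by
      apply le_min
      · refine le_trans ?_ h6
        apply div_le_div_of_nonneg_right _ hg0.le
        rw [hw]
        exact min_le_left _ _
      · have : w / g ≤ ((g : ℝ) - 2 - r) / g := by
          apply div_le_div_of_nonneg_right _ hg0.le
          rw [hw]
          exact min_le_right _ _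
        refine this.trans ?_
        have e3 : ((g : ℝ) - 2 - r) / g = 1 - (r + 2) / g := by field_simp; ring
        rw [e3]
        linarith
    have h12 : 4 * w / g ≤ dd x := by
      rw [e1, dd_add_int]
      refine le_trans ?_ h10
      have e4 : 4 * w / g = 4 * (w / g) := by ring
      rw [e4]
      linarith
    have hw0 : 0 < w := by linarith
    refine (KK_le' hg0.le (by positivity) h12).trans ?_
    have e5 : 3 / (4 * w / g) = (3 * g / 4) * (1 / w) := by field_simp
    rw [e5]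
    apply mul_le_mul_of_nonneg_left _ (by positivity)
    have hr3 : 0 < (g : ℝ) - 2 - r := by linarith
    have hr0 : (0 : ℝ) < r := by linarith
    rcases min_cases (r : ℝ) ((g : ℝ) - 2 - r) with ⟨h13, _⟩ | ⟨h13, _⟩
    · rw [hw, h13]
      have : 0 < 1 / ((g : ℝ) - 2 - r) := by positivity
      linarith
    · rw [hw, h13]
      have : 0 < 1 / (r : ℝ) := by positivity
      linarith

lemma sum_prod_le (A : Finset ℕ) (g : ℕ) (E : Finset ℕ) (a : ℕ → ℕ → ℕ) (ha : ∀ i ∈ A, ∀ t ∈ E, a i t < g)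
    (f : ℕ → ℕ → ℝ) (hf : ∀ i x, 0 ≤ f i x) (c : ℝ) (hc0 : 0 ≤ c)
    (hc : ∀ t₀ ∈ E, ((E.filter (fun t => ∀ i ∈ A, a i t = a i t₀)).card : ℝ) ≤ c) :
    ∑ t ∈ E, ∏ i ∈ A, f i (a i t) ≤ c * ∏ i ∈ A, ∑ x ∈ range g, f i x := by
  classical
  rw [prod_sum, mul_sum]
  obtain ⟨φ, hφ⟩ : ∃ φ : ℕ → (∀ i ∈ A, ℕ), φ = fun t i _ => a i t := ⟨_, rfl⟩
  have hmap : ∀ t ∈ E, φ t ∈ A.pi (fun _ => range g) := by
    intro t ht
    rw [mem_pi]
    intro i hi
    rw [hφ, mem_range]
    exact ha i hi t ht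
  rw [← sum_fiberwise_of_maps_to hmap]
  refine sum_le_sum fun p _ => ?_
  have h1 : ∀ t ∈ E.filter (fun t => φ t = p), ∏ i ∈ A, f i (a i t) = ∏ x ∈ A.attach, f x.1 (p x.1 x.2) := by
    intro t ht
    rw [← prod_attach]
    refine prod_congr rfl fun x _ => ?_
    have := (mem_filter.1 ht).2
    rw [← this, hφ]
  rw [sum_congr rfl h1, sum_const, nsmul_eq_mul]
  apply mul_le_mul_of_nonneg_right _ (prod_nonneg fun _ _ => hf _ _)
  rcases (E.filter (fun t => φ t = p)).eq_empty_or_nonempty with h2 | ⟨t₀, ht₀⟩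
  · rw [h2]
    simpa using hc0
  · refine le_trans ?_ (hc t₀ (mem_filter.1 ht₀).1)
    rw [Nat.cast_le]
    apply card_le_card
    intro t ht
    rw [mem_filter] at ht ht₀ ⊢
    refine ⟨ht.1, fun i hi => ?_⟩
    have h3 : φ t = φ t₀ := ht.2.trans ht₀.2.symm
    rw [hφ] at h3
    exact congr_fun (congr_fun h3 i) hi

end Pool.Agent.K9h59.CF
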