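import Pool.Agent.K9h59.CF.Cq
import Pool.Agent.K9h59.CF.TlB
import Pool.Agent.K9h59.CF.Dk

set_option autoImplicit false

/-! Sums of a prime and a square in sets with a small kernel. -/

namespace Pool.Agent.K9h59.CF

open Finset Filter Topology
open Pool.Agent.W468.ConjF (SJ PJ PJ_le PJ_tendsto)
open Pool.Agent.H373R2.T7 (Vz pz Vz_pos Vz_inv_small nuB mem_pz)
open Pool.Agent.R460.SQ (thp)
open Pool.Agent.R460.SB (Sz Sz_prod Sz_bd Sz_low nu_leg loc_lt fv QS)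
open Pool.Agent.R460.SC (PJ_lim sol_lin)
open Pool.Agent.Y614.GJ.Core (ev_log)
open Pool.Agent.Y868.TB (Sol)

lemma fv_sq (n : ℤ) (m : ℕ) : fv 1 0 n m = n - (m : ℤ) ^ 2 := by
  unfold fv
  ring

lemma loc_sq (n : ℤ) {p : ℕ} (hp : p.Prime) : nuB (QS 1 0 n) p < p := by
  apply loc_lt hp
  by_contra hcon
  push Not at hcon
  have h0 := hcon 0
  have h1 := hcon 1
  rw [fv_sq] at h0 h1
  push_cast at h0 h1
  have h2 : (p : ℤ) ∣ 1 := by
    have := dvd_sub h0 h1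
    ring_nf at this
    exact this
  have h3 : p ∣ 1 := by exact_mod_cast h2
  exact hp.one_lt.ne' (Nat.dvd_one.1 h3)

lemma jac_four (n : ℤ) {p : ℕ} (hp : p.Prime) (h2 : p ≠ 2) : jacobiSym (4 * n) p = jacobiSym n p := by
  have e : (4 * n : ℤ) = 2 ^ 2 * n := by ring
  rw [e, jacobiSym.mul_left, jacobiSym.pow_left]
  have h4 : jacobiSym 2 p ^ 2 = 1 := by
    apply jacobiSym.sq_one
    have := (Nat.coprime_primes Nat.prime_two hp).2 (Ne.symm h2)
    exact_mod_cast this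
  rw [h4, one_mul]

/-- one factor -/
lemma fac_sq (n : ℤ) {p : ℕ} (hp : p.Prime) (h2 : p ≠ 2) :
    (1 - (nuB (QS 1 0 n) p : ℝ) / p) / (1 - 1 / (p : ℝ)) = 1 - (jacobiSym (4 * n) p : ℝ) / ((p : ℝ) - 1) := by
  have hp2 : (2 : ℝ) ≤ p := by exact_mod_cast hp.two_le
  have hpa : ¬ (p : ℤ) ∣ 1 := by
    intro h
    have := Int.le_of_dvd one_pos h
    have := hp.two_le
    omega
  have h1 := nu_leg 1 0 n hp h2 hpa
  have h3 : (4 * 1 * n + 0 ^ 2 : ℤ) = 4 * n := by ring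
  rw [h3] at h1
  have h5 : (nuB (QS 1 0 n) p : ℝ) = 1 + (jacobiSym (4 * n) p : ℝ) := by exact_mod_cast h1
  rw [h5]
  have h6 : (p : ℝ) ≠ 0 := by linarith
  have h7 : (p : ℝ) - 1 ≠ 0 := by linarith
  field_simp
  ring

lemma nu_two_sq (n : ℤ) : nuB (QS 1 0 n) 2 = 1 := by
  classical
  unfold nuB
  have h : ((range 2).filter (fun r => QS 1 0 n 2 r)).card = 1 := by
    rw [card_eq_one]
    rcases Int.even_or_odd n with h0 | h0
    · refine ⟨0, ?_⟩
      ext r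
      rw [mem_filter, mem_range, mem_singleton]
      unfold QS
      obtain ⟨k, hk⟩ := h0
      constructor
      · rintro ⟨h1, h2⟩
        interval_cases r
        · rfl
        · norm_num at h2
          omega
      · rintro rfl
        refine ⟨by norm_num, ?_⟩
        norm_num
        omega
    · refine ⟨1, ?_⟩
      ext r
      rw [mem_filter, mem_range, mem_singleton]
      unfold QS
      obtain ⟨k, hk⟩ := h0
      constructor
      · rintro ⟨h1, h2⟩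
        interval_cases r
        · norm_num at h2
          omega
        · rfl
      · rintro rfl
        refine ⟨by norm_num, ?_⟩
        norm_num
        omega
  convert h using 1

/-- the singular series with the Legendre symbol -/
lemma Sz_sq (n : ℤ) (z : ℕ) : Sz 1 0 n z =
    ∏ w ∈ (Icc 3 z).filter Nat.Prime, (1 - (jacobiSym n w : ℝ) / ((w : ℝ) - 1)) := by
  rw [Sz_prod]
  have e : pz z = ((Icc 3 z).filter Nat.Prime) ∪ ((Icc 1 z).filter (fun p => p = 2)) := by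
    ext p
    rw [mem_pz, mem_union, mem_filter, mem_filter, mem_Icc, mem_Icc]
    constructor
    · rintro ⟨h1, h2⟩
      by_cases h3 : p = 2
      · right
        exact ⟨⟨h2.one_le, h1⟩, h3⟩
      · left
        have := h2.two_le
        exact ⟨⟨by omega, h1⟩, h2⟩
    · rintro (⟨⟨h1, h2⟩, h3⟩ | ⟨⟨h1, h2⟩, h3⟩)
      · exact ⟨h2, h3⟩
      · rw [h3] at h2 ⊢
        exact ⟨h2, Nat.prime_two⟩
  rw [e, prod_union]
  · have e2 : ∏ p ∈ (Icc 1 z).filter (fun p => p = 2),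
        (1 - (nuB (QS 1 0 n) p : ℝ) / p) / (1 - 1 / (p : ℝ)) = 1 := by
      apply prod_eq_one
      intro p hp
      rw [(mem_filter.1 hp).2, nu_two_sq]
      norm_num
    rw [e2, mul_one]
    refine prod_congr rfl fun p hp => ?_
    rw [mem_filter, mem_Icc] at hp
    rw [fac_sq n hp.2 (by omega), jac_four n hp.2 (by omega)]
  · rw [disjoint_left]
    intro p h1 h2
    rw [mem_filter, mem_Icc] at h1
    have := (mem_filter.1 h2).2
    omega

/-- the Euler product beyond `z` -/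
lemma Sz_split_sq (n : ℤ) {z N : ℕ} (hz : 2 ≤ z) (hN : z ≤ N) : Sz 1 0 n N = Sz 1 0 n z * PJ (4 * n) z N := by
  rw [Sz_prod, Sz_prod]
  have e1 : pz N = pz z ∪ (Ioc z N).filter Nat.Prime := by
    ext p
    rw [mem_union, mem_pz, mem_pz, mem_filter, mem_Ioc]
    constructor
    · rintro ⟨h1, h2⟩
      by_cases h3 : p ≤ z
      · exact Or.inl ⟨h3, h2⟩
      · exact Or.inr ⟨⟨by omega, h1⟩, h2⟩
    · rintro (⟨h1, h2⟩ | ⟨⟨h1, h2⟩, h3⟩)
      · exact ⟨by omega, h2⟩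
      · exact ⟨h2, h3⟩
  have hdis : Disjoint (pz z) ((Ioc z N).filter Nat.Prime) := by
    rw [disjoint_left]
    intro p hp hp'
    rw [mem_pz] at hp
    rw [mem_filter, mem_Ioc] at hp'
    omega
  rw [e1, prod_union hdis]
  congr 1
  unfold PJ
  apply prod_congr rfl
  intro p hp
  rw [mem_filter, mem_Ioc] at hp
  exact fac_sq n hp.2 (by omega)

/-- the conclusion for one integer -/
def GoodN (C X : ℕ) (n : ℤ) : Prop :=
  (∃ m : ℕ, 1 ≤ m ∧ (m : ℤ) ^ 2 < n ∧ (fv 1 0 n m).natAbs.Prime) ∧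
  ∃ S : ℝ, 0 < S ∧ Tendsto (fun z : ℕ => Sz 1 0 n z) atTop (𝓝 S) ∧ ∀ y : ℕ, (y : ℤ) ^ 2 < n →
    |∑ m ∈ Icc 1 y, thp (fv 1 0 n m).natAbs - S * y| ≤ Real.sqrt X / Real.log X ^ C

theorem goodN_of {n : ℤ} {C X z K : ℕ} (hz : 2 ≤ z) (hX1 : 1 ≤ X) (hnX : n ≤ X) (hn : (X : ℤ) ≤ (K + 1) * n)
    (hL : 64 + 4 * ((K : ℝ) + 1) ≤ Real.log X) (hLs : Real.log X ^ 2 ≤ X)
    (hV : (Vz z)⁻¹ ≤ Real.log X) (hzL : Real.log X ^ (C + 4) ≤ z) (hsq : ¬ IsSquare (4 * n))
    (htail : ∀ᶠ M in atTop, |SJ (4 * n) z M| ≤ 1 / Real.log X ^ (C + 4))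
    (h : GoodP 1 0 (C + 4) X z n) : GoodN C X n := by
  obtain ⟨L, hLd⟩ : ∃ L, L = Real.log (X : ℝ) := ⟨_, rfl⟩
  rw [← hLd] at hL hLs hV hzL htail
  have hK0 : (0 : ℝ) ≤ K := Nat.cast_nonneg _
  have hX0 : (0 : ℝ) < X := by exact_mod_cast hX1
  have hL64 : 64 ≤ L := by linarith
  have hL0 : 0 < L := by linarith
  have hL1 : 1 ≤ L := by linarith
  have hz0 : (0 : ℝ) < z := by exact_mod_cast (by omega : 0 < z)
  have hP0 : 0 < L ^ (C + 4) := by positivity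
  have h5z : 5 / (z : ℝ) ≤ 5 / L ^ (C + 4) := div_le_div_of_nonneg_left (by norm_num) hP0 hzL
  have hLP : L ≤ L ^ (C + 4) := le_self_pow₀ hL1 (by omega)
  have h6 : 1 / L ^ (C + 4) + 5 / z ≤ 6 / L ^ (C + 4) := by
    have : 6 / L ^ (C + 4) = 1 / L ^ (C + 4) + 5 / L ^ (C + 4) := by ring
    linarith
  have h7 : 6 / L ^ (C + 4) ≤ 1 / 2 := by
    rw [div_le_div_iff₀ hP0 (by norm_num)]
    linarith
  obtain ⟨ℓ, hℓ0, hℓ, hℓ1⟩ := PJ_lim hsq hz (by positivity) (h6.trans h7) htail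
  have hVp := Vz_pos z
  have hlow := Sz_low (α := 1) (γ := 0) one_ne_zero n z (fun p hp => loc_sq n (mem_pz.1 hp).2)
  have hlow' : Vz z ^ 2 ≤ Sz 1 0 n z := by
    refine le_trans (le_of_eq ?_) hlow
    norm_num
  have hS0 : 0 < Sz 1 0 n z := lt_of_lt_of_le (by positivity) hlow'
  have hSL : 1 / L ^ 2 ≤ Sz 1 0 n z := by
    refine le_trans ?_ hlow'
    have : 1 / L ≤ Vz z := by
      rw [one_div]
      exact inv_le_of_inv_le₀ hVp hV
    calc 1 / L ^ 2 = (1 / L) ^ 2 := by rw [div_pow, one_pow]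
      _ ≤ Vz z ^ 2 := by gcongr
  obtain ⟨M, hM⟩ : ∃ M, M = Real.sqrt X := ⟨_, rfl⟩
  have hM0 : 0 < M := by rw [hM]; exact Real.sqrt_pos.2 hX0
  have hMM : M * M = X := by rw [hM]; exact Real.mul_self_sqrt hX0.le
  have hLM : L ≤ M := by
    rw [hM]
    exact Real.le_sqrt_of_sq_le hLs
  have hnr : (X : ℝ) ≤ (K + 1) * n := by exact_mod_cast hn
  have hn0 : (0 : ℝ) < n := by
    by_contra h0
    push Not at h0
    nlinarith
  have hn1 : 1 ≤ n := by
    have : (0 : ℤ) < n := by exact_mod_cast hn0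
    omega
  have hyX : ∀ y : ℕ, (y : ℤ) ^ 2 < n → y ^ 2 ≤ X := by
    intro y hy
    have : (y : ℤ) ^ 2 ≤ X := by linarith
    exact_mod_cast this
  have hpos : ∀ y : ℕ, (y : ℤ) ^ 2 < n → ∀ m ∈ Icc 1 y, 0 < fv 1 0 n m := by
    intro y hy m hm
    rw [fv_sq]
    rw [mem_Icc] at hm
    have : (m : ℤ) ^ 2 ≤ (y : ℤ) ^ 2 := by
      have := Nat.pow_le_pow_left hm.2 2
      exact_mod_cast this
    linarith
  refine ⟨?_, Sz 1 0 n z * ℓ, by positivity, ?_, ?_⟩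
  · obtain ⟨y, hy⟩ : ∃ y, y = Nat.sqrt (n.toNat - 1) := ⟨_, rfl⟩
    have hnn : (n.toNat : ℤ) = n := Int.toNat_of_nonneg (by omega)
    have hy1 : y ^ 2 ≤ n.toNat - 1 := by rw [hy]; exact Nat.sqrt_le' _
    have hy2 : n.toNat - 1 < (y + 1) ^ 2 := by rw [hy]; exact Nat.lt_succ_sqrt' _
    have hy3 : (y : ℤ) ^ 2 < n := by
      have : y ^ 2 < n.toNat := by omega
      have : ((y ^ 2 : ℕ) : ℤ) < n.toNat := by exact_mod_cast this
      push_cast at this
      omega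
    have hy4 : (n : ℝ) ≤ ((y : ℝ) + 1) ^ 2 := by
      have : n.toNat ≤ (y + 1) ^ 2 := by omega
      have h1 : ((n.toNat : ℤ) : ℝ) ≤ (((y + 1) ^ 2 : ℕ) : ℝ) := by exact_mod_cast this
      rw [hnn] at h1
      push_cast at h1
      exact h1
    have hyM : M / L ≤ y := by
      have h1 : (M / L + 1) ^ 2 ≤ ((y : ℝ) + 1) ^ 2 := by
        refine le_trans ?_ hy4
        have h2 : M / L + 1 ≤ 2 * (M / L) := by
          have : 1 ≤ M / L := by rw [one_le_div hL0]; exact hLM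
          linarith
        have h3 : 0 ≤ M / L := by positivity
        calc (M / L + 1) ^ 2 ≤ (2 * (M / L)) ^ 2 := by gcongr
          _ = 4 * (M * M) / (L * L) := by ring
          _ = 4 * X / (L * L) := by rw [hMM]
          _ ≤ n := by
              rw [div_le_iff₀ (by positivity)]
              calc 4 * (X : ℝ) ≤ 4 * ((K + 1) * n) := by linarith
                _ = n * (4 * (K + 1)) := by ring
                _ ≤ n * (L * L) := by
                    apply mul_le_mul_of_nonneg_left _ hn0.le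
                    nlinarith
      have h2 := abs_le_of_sq_le_sq h1 (by positivity)
      have h3 := le_abs_self (M / L + 1)
      linarith
    have h8 := h y (hyX y hy3) (hpos y hy3)
    rw [← hM, ← hLd] at h8
    by_contra hno
    have h9 : ∑ m ∈ Icc 1 y, thp (fv 1 0 n m).natAbs = 0 := by
      apply sum_eq_zero
      intro m hm
      unfold thp
      rw [if_neg]
      intro hp
      apply hno
      have h10 := mem_Icc.1 hm
      refine ⟨m, h10.1, ?_, hp⟩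
      have := Nat.pow_le_pow_left h10.2 2
      have h11 : (m : ℤ) ^ 2 ≤ (y : ℤ) ^ 2 := by exact_mod_cast this
      linarith
    rw [h9, zero_sub, abs_neg] at h8
    have h10 : (1 / L ^ 2) * (M / L) ≤ M / L ^ (C + 4) := by
      refine le_trans ?_ ((le_abs_self _).trans h8)
      exact mul_le_mul hSL hyM (by positivity) hS0.le
    have h11 : (1 / L ^ 2) * (M / L) = M / L ^ (C + 4) * L ^ (C + 1) := by
      have : L ^ (C + 4) = L ^ 2 * L * L ^ (C + 1) := by ring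
      rw [this]
      field_simp
    have h12 : 0 < M / L ^ (C + 4) := by positivity
    have h13 : L ≤ L ^ (C + 1) := le_self_pow₀ hL1 (by omega)
    nlinarith
  · refine (hℓ.const_mul (Sz 1 0 n z)).congr' ?_
    filter_upwards [eventually_ge_atTop z] with M hM
    rw [Sz_split_sq n hz hM]
  · intro y hy
    have h8 := h y (hyX y hy) (hpos y hy)
    rw [← hLd, ← hM] at h8 ⊢
    obtain ⟨s0, s1⟩ := Sz_bd 1 0 n z
    have hyN : (y : ℝ) ≤ M := by
      rw [hM]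
      apply Real.le_sqrt_of_sq_le
      exact_mod_cast hyX y hy
    have e : ∑ m ∈ Icc 1 y, thp (fv 1 0 n m).natAbs - Sz 1 0 n z * ℓ * y =
        (∑ m ∈ Icc 1 y, thp (fv 1 0 n m).natAbs - Sz 1 0 n z * y) - Sz 1 0 n z * (ℓ - 1) * y := by ring
    rw [e]
    refine (abs_sub _ _).trans ?_
    have h9 : |Sz 1 0 n z * (ℓ - 1) * y| ≤ L * (12 / L ^ (C + 4)) * M := by
      have hy0 : (0 : ℝ) ≤ (y : ℝ) := Nat.cast_nonneg y
      rw [abs_mul, abs_mul, abs_of_nonneg s0, abs_of_nonneg hy0]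
      have h10 : |ℓ - 1| ≤ 12 / L ^ (C + 4) := by
        refine hℓ1.trans ?_
        have : 12 / L ^ (C + 4) = 2 * (6 / L ^ (C + 4)) := by ring
        linarith
      gcongr
      exact s1.trans hV
    have h11 : M / L ^ (C + 4) ≤ M / L ^ C / 2 := by
      rw [div_div, div_le_div_iff₀ (by positivity) (by positivity), pow_add]
      have h12 : 2 ≤ L ^ 4 := by
        have := le_self_pow₀ hL1 (by norm_num : (4 : ℕ) ≠ 0)
        linarith
      have : 0 ≤ M * L ^ C := by positivity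
      nlinarith
    have h12 : L * (12 / L ^ (C + 4)) * M ≤ M / L ^ C / 2 := by
      have e1 : L * (12 / L ^ (C + 4)) * M = M / L ^ C * (12 / L ^ 3) := by
        rw [pow_add L C 4]
        field_simp
        try ring
      rw [e1, div_eq_mul_inv (M / L ^ C) 2]
      apply mul_le_mul_of_nonneg_left _ (by positivity)
      rw [div_le_iff₀ (by positivity)]
      have : L ≤ L ^ 3 := le_self_pow₀ hL1 (by norm_num)
      linarith
    linarith

open Classical in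
theorem fam_sq (κ Q : ℝ) (hκ0 : 0 ≤ κ) (hκ : κ < 1 / 2) (hQ : 1 ≤ Q) (δ : ℝ) (hδ : 0 < δ) (A C K : ℕ) :
    ∃ X₀ : ℕ, ∀ X : ℕ, X₀ ≤ X → ∀ D : Finset ℤ, (∀ n ∈ D, n ≤ X ∧ (X : ℤ) ≤ (K + 1) * n) →
      (X : ℝ) ^ (1 / 2 + δ) ≤ D.card → Kern κ Q (2 * X) (4 * (2 * X) + 1) D →
      ((D.filter (fun n : ℤ => ¬ GoodN C X n)).card : ℝ) ≤ D.card / Real.log X ^ A := by
  obtain ⟨B₁, hB₁⟩ := cnt_pos κ Q hκ0 hκ hQ (α := 1) (γ := 0) one_ne_zero δ hδ (A + 1) (C + 4)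
  obtain ⟨B₂, hB₂⟩ := tail_fam (C + 4) 2 (by norm_num) (δ / 4) (by linarith)
  obtain ⟨B', hB'⟩ : ∃ B', B' = B₁ + B₂ + C + 5 := ⟨_, rfl⟩
  obtain ⟨N₁, h1⟩ := hB₁ (B' + 1)
  obtain ⟨N₂, h2⟩ := hB₂ (B' + 1)
  obtain ⟨N₃, h3⟩ := Vz_inv_small (B' + 1)
  obtain ⟨N₄, h4⟩ := Filter.eventually_atTop.1 (ev_log (A + 2) (s := min (δ / 4) (1 / 2)) (by positivity)
    (200 + 4 * ((K : ℝ) + 1)))
  refine ⟨N₁ + N₂ + N₃ + N₄ + 5, fun X hX D hDX hDc hKern => ?_⟩
  obtain ⟨hLb, hLp⟩ := h4 X (by omega)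
  have hX1 : 1 ≤ X := by omega
  have hX0 : (0 : ℝ) < X := by exact_mod_cast hX1
  have hX1r : (1 : ℝ) ≤ X := by exact_mod_cast hX1
  have hK0 : (0 : ℝ) ≤ K := Nat.cast_nonneg _
  have hn0 : ∀ n ∈ D, 1 ≤ n := by
    intro n hn
    have h5 := (hDX n hn).2
    by_contra h0
    push Not at h0
    have h6 : (K + 1 : ℤ) * n ≤ 0 := by
      apply mul_nonpos_of_nonneg_of_nonpos (by positivity)
      omega
    have h7 : (1 : ℤ) ≤ X := by exact_mod_cast hX1
    omega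
  have c1 := h1 X (by omega)
  have c2 := h2 X (by omega)
  have c3 := h3 X (by omega)
  obtain ⟨L, hL⟩ : ∃ L, L = Real.log (X : ℝ) := ⟨_, rfl⟩
  rw [← hL] at hLb hLp c1 c2 c3 ⊢
  have hL100 : 200 ≤ L := by linarith
  have hL0 : 0 < L := by linarith
  have hL1 : 1 ≤ L := by linarith
  -- the parameter `z`
  have hL1B : 1 ≤ L ^ B' := one_le_pow₀ hL1
  obtain ⟨i0, hi0⟩ : ∃ i0, i0 = Nat.log 2 ⌈L ^ B'⌉₊ + 1 := ⟨_, rfl⟩
  have hzlo : L ^ B' ≤ (2 : ℝ) ^ i0 := by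
    have e1 : ⌈L ^ B'⌉₊ < 2 ^ i0 := by rw [hi0]; exact Nat.lt_pow_succ_log_self (by norm_num) _
    have e2 : (⌈L ^ B'⌉₊ : ℝ) ≤ 2 ^ i0 := by exact_mod_cast e1.le
    exact (Nat.le_ceil _).trans e2
  have hzhi : (2 : ℝ) ^ i0 ≤ L ^ (B' + 1) := by
    have e0 : 0 < ⌈L ^ B'⌉₊ := Nat.ceil_pos.2 (by linarith)
    have e1 : 2 ^ Nat.log 2 ⌈L ^ B'⌉₊ ≤ ⌈L ^ B'⌉₊ := Nat.pow_log_le_self 2 e0.ne'
    have e2 : (2 : ℝ) ^ Nat.log 2 ⌈L ^ B'⌉₊ ≤ ⌈L ^ B'⌉₊ := by exact_mod_cast e1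
    have e3 := Nat.ceil_lt_add_one (show 0 ≤ L ^ B' by linarith)
    rw [hi0, pow_succ, pow_succ L]
    nlinarith
  obtain ⟨z, hz⟩ : ∃ z, z = 2 ^ i0 := ⟨_, rfl⟩
  have hzr : (z : ℝ) = (2 : ℝ) ^ i0 := by rw [hz]; push_cast; rfl
  have hzL : L ≤ z := by
    rw [hzr]
    exact (le_self_pow₀ hL1 (by omega)).trans hzlo
  have hz2 : 2 ≤ z := by
    have : (2 : ℝ) ≤ z := by linarith
    exact_mod_cast this
  have hpw : ∀ j, j ≤ B' → L ^ j ≤ (2 : ℝ) ^ i0 := fun j hj => (pow_le_pow_right₀ hL1 hj).trans hzlo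
  have hnat : (1 : ℤ).natAbs + (0 : ℤ).natAbs + 1 = 2 := rfl
  rw [hnat] at c1
  have d1 := c1 z (by rw [hzr]; exact hpw _ (by omega)) (by rw [hzr]; exact hzhi) D
    (fun n hn => abs_le.2 ⟨by linarith [hn0 n hn, Int.natCast_nonneg X], (hDX n hn).1⟩) hDc hKern
  have d3 := c3 z (by omega) (by rw [hzr]; exact hzhi)
  -- the discriminants
  have hXh : L ≤ (X : ℝ) ^ (1 / 2 : ℝ) := by
    refine le_trans (le_self_pow₀ hL1 (by omega : A + 2 ≠ 0)) (hLp.trans ?_)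
    exact Real.rpow_le_rpow_of_exponent_le hX1r (min_le_right _ _)
  obtain ⟨R, hR⟩ : ∃ R, R = 4 * X := ⟨_, rfl⟩
  have hRX : R ≤ X ^ 2 := by
    rw [hR, sq]
    exact Nat.mul_le_mul_right _ (by omega)
  have hfR : ∀ k ∈ Icc 1 X, (0 + 4 * (k : ℤ)).natAbs ≤ R := by
    intro k hk
    rw [mem_Icc] at hk
    omega
  obtain ⟨W, hW⟩ : ∃ W : ℝ, W = (Nat.sqrt R : ℝ) + 1 := ⟨_, rfl⟩
  have hW0 : 0 ≤ W := by rw [hW]; positivity
  obtain ⟨Ex, hEx1, hEx2⟩ := c2 i0 (hpw _ (by omega)) hzhi (fun k : ℕ => 0 + 4 * (k : ℤ))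
    (fun k hk => (hfR k hk).trans hRX) W hW0 (fun d => by
      rw [hW]
      exact_mod_cast sol_lin 0 4 (by omega) X R hfR d)
  obtain ⟨h, hh⟩ : ∃ h, h = (X : ℝ) ^ (δ / 4) := ⟨_, rfl⟩
  obtain ⟨M, hM⟩ : ∃ M, M = (X : ℝ) ^ (1 / 2 : ℝ) := ⟨_, rfl⟩
  have hMs : M = Real.sqrt X := by rw [hM, Real.sqrt_eq_rpow]
  have hMM : M * M = X := by rw [hMs]; exact Real.mul_self_sqrt hX0.le
  have hLh : L ^ (A + 2) ≤ h := by
    rw [hh]
    exact hLp.trans (Real.rpow_le_rpow_of_exponent_le hX1r (min_le_left _ _))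
  have hLh1 : L ≤ h := (le_self_pow₀ hL1 (by omega)).trans hLh
  have hh1 : 1 ≤ h := by linarith
  rw [← hM] at hXh
  have hM1 : 1 ≤ M := by linarith
  have hWM : W ≤ h * M := by
    have e1 : (Nat.sqrt R : ℝ) ≤ 2 * M := by
      have e2 : (Nat.sqrt R : ℝ) ≤ Real.sqrt R := Real.nat_sqrt_le_real_sqrt
      refine e2.trans ?_
      rw [Real.sqrt_le_left (by positivity), hR]
      push_cast
      nlinarith
    rw [hW]
    have e5 : 2 * M + 1 ≤ L * M := by nlinarith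
    have e6 : L * M ≤ h * M := mul_le_mul_of_nonneg_right hLh1 (by linarith)
    linarith
  have hDM : h * h * h * h * M ≤ D.card := by
    refine le_trans (le_of_eq ?_) hDc
    rw [hh, hM, ← Real.rpow_add hX0, ← Real.rpow_add hX0, ← Real.rpow_add hX0, ← Real.rpow_add hX0]
    congr 1
    ring
  have hD0 : (0 : ℝ) ≤ D.card := Nat.cast_nonneg _
  have hExc : (Ex.card : ℝ) ≤ D.card / L ^ (A + 1) := by
    rw [le_div_iff₀ (by positivity)]
    rw [← hh] at hEx1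
    calc (Ex.card : ℝ) * L ^ (A + 1) ≤ (h * (h * M)) * h := by
          apply mul_le_mul _ _ (by positivity) (by positivity)
          · exact hEx1.trans (mul_le_mul_of_nonneg_left hWM (by linarith))
          · exact (pow_le_pow_right₀ hL1 (by omega)).trans hLh
      _ = (h * h * h * M) * 1 := by ring
      _ ≤ (h * h * h * M) * h := by gcongr
      _ = h * h * h * h * M := by ring
      _ ≤ D.card := hDM
  obtain ⟨F1, hF1⟩ : ∃ F1, F1 = D.filter (fun c : ℤ => ¬ GoodP 1 0 (C + 4) X z c) := ⟨_, rfl⟩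
  rw [← hF1] at d1
  have hsub : D.filter (fun c : ℤ => ¬ GoodN C X c) ⊆ F1 ∪ Ex.image (fun n : ℕ => (n : ℤ)) := by
    intro c hc
    rw [mem_filter] at hc
    obtain ⟨g1, g4⟩ := hc
    obtain ⟨g3, g2⟩ := hDX c g1
    have g5 := hn0 c g1
    rw [mem_union, hF1, mem_filter]
    by_cases hE : c.toNat ∈ Ex
    · right
      rw [mem_image]
      exact ⟨c.toNat, hE, Int.toNat_of_nonneg (by omega)⟩
    left
    refine ⟨g1, fun hg => g4 ?_⟩
    have hcI : c.toNat ∈ Icc 1 X := by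
      rw [mem_Icc]
      constructor <;> omega
    obtain ⟨e1, e2⟩ := hEx2 c.toNat hcI hE
    have hcc : (c.toNat : ℤ) = c := Int.toNat_of_nonneg (by omega)
    have e3 : 0 + 4 * ((c.toNat : ℕ) : ℤ) = 4 * c := by
      rw [hcc]
      ring
    simp only [e3] at e1 e2
    refine goodN_of (K := K) hz2 hX1 g3 g2 (by rw [← hL]; linarith) (by
      rw [← hL, ← hMM]
      nlinarith) (by rw [← hL]; exact d3) (by
      rw [← hL, hzr]
      exact hpw _ (by omega)) e1 ?_ hg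
    rw [← hL, hz]
    exact e2
  have hcard : ((D.filter (fun c : ℤ => ¬ GoodN C X c)).card : ℝ) ≤ (F1.card : ℝ) + (Ex.card : ℝ) := by
    have e1 := card_le_card hsub
    have e3 := card_union_le F1 (Ex.image (fun n : ℕ => (n : ℤ)))
    have e4 : (Ex.image (fun n : ℕ => (n : ℤ))).card ≤ Ex.card := card_image_le
    have e5 : (D.filter (fun c : ℤ => ¬ GoodN C X c)).card ≤ F1.card + Ex.card := by omega
    exact_mod_cast e5
  refine hcard.trans ?_
  calc (F1.card : ℝ) + (Ex.card : ℝ) ≤ D.card / L ^ (A + 1) + D.card / L ^ (A + 1) := by linarith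
    _ = D.card / L ^ A * (2 / L) := by
        rw [pow_succ]
        field_simp
        ring
    _ ≤ D.card / L ^ A * 1 := by
        apply mul_le_mul_of_nonneg_left _ (by positivity)
        rw [div_le_one hL0]
        linarith
    _ = _ := mul_one _

open Classical in
/-- the theorem for the integers with restricted digits -/
theorem dig_sq {g : ℕ} (κ : ℝ) (hκ0 : 0 ≤ κ) (hκ : κ < 1 / 2) (A C K : ℕ) :
    ∃ k₀ : ℕ, ∀ k : ℕ, k₀ ≤ k → ∀ D : ℕ → Finset ℕ, Dg g k κ D → ∀ c₀ : ℕ, g ^ k ≤ c₀ → c₀ ≤ K * g ^ k →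
      (((S g D k).filter (fun v : ℕ => ¬ GoodN C ((K + 1) * g ^ k) ((c₀ : ℤ) + (v : ℤ)))).card : ℝ) ≤
        (S g D k).card / Real.log (((K + 1) * g ^ k : ℕ) : ℝ) ^ A := by
  rcases Nat.lt_or_ge g 3 with hg | hg
  · refine ⟨0, fun k _ D hD => ?_⟩
    have := hD.hg
    omega
  obtain ⟨δ, hδ⟩ : ∃ δ, δ = (1 / 2 - κ) / 2 := ⟨_, rfl⟩
  have hδ0 : 0 < δ := by rw [hδ]; linarith
  obtain ⟨C₁, hC₁⟩ : ∃ C₁ : ℕ, C₁ = 8 * (K + 1) + 1 := ⟨_, rfl⟩
  have hC₁0 : (0 : ℝ) ≤ C₁ := Nat.cast_nonneg _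
  have hC₁1 : (1 : ℝ) ≤ C₁ := by
    have : 1 ≤ C₁ := by omega
    exact_mod_cast this
  obtain ⟨X₀, h0⟩ := fam_sq κ (16 * C₁ + 64 * (C₁ + 1) * (g : ℝ) ^ 2) hκ0 hκ (by
    have : (0 : ℝ) ≤ 64 * (C₁ + 1) * (g : ℝ) ^ 2 := by positivity
    linarith) δ hδ0 A C K
  refine ⟨X₀ + K + 1, fun k hk D hD c₀ hc₁ hc₀ => ?_⟩
  have hg0 : 0 < g := by omega
  have hgr : (0 : ℝ) < g := by exact_mod_cast hg0
  have hg1 : (1 : ℝ) ≤ g := by exact_mod_cast hg0
  have hgk : 0 < g ^ k := Nat.pow_pos hg0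
  obtain ⟨X, hX⟩ : ∃ X, X = (K + 1) * g ^ k := ⟨_, rfl⟩
  have hkX : k < g ^ k := Nat.lt_pow_self (by omega)
  have hXg : g ^ k ≤ X := by rw [hX]; exact Nat.le_mul_of_pos_left _ (by omega)
  rw [← hX]
  have hXr : (X : ℝ) = (K + 1) * (g : ℝ) ^ k := by rw [hX]; push_cast; ring
  have hX0 : (0 : ℝ) < X := by rw [hXr]; positivity
  have hcc : ((Sh (c₀ : ℤ) (S g D k)).card : ℝ) = (S g D k).card := by rw [card_Sh]
  have hmain := h0 X (by omega) (Sh (c₀ : ℤ) (S g D k)) (by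
    intro n hn
    unfold Sh at hn
    rw [mem_image] at hn
    obtain ⟨v, hv, rfl⟩ := hn
    unfold S at hv
    rw [mem_filter, mem_range] at hv
    have h1 : c₀ + v ≤ X := by
      rw [hX]
      have := hv.1
      nlinarith
    have h2 : X ≤ (K + 1) * (c₀ + v) := by
      rw [hX]
      exact Nat.mul_le_mul_left _ (by omega)
    constructor
    · exact_mod_cast h1
    · exact_mod_cast h2) (by
    rw [card_Sh]
    refine le_trans ?_ (card_S_ge hD)
    have h1 : (X : ℝ) ^ (1 / 2 + δ) ≤ (K + 1) * ((g : ℝ) ^ (1 - κ)) ^ k := by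
      rw [hXr, Real.mul_rpow (by positivity) (by positivity)]
      apply mul_le_mul
      · calc ((K : ℝ) + 1) ^ (1 / 2 + δ) ≤ ((K : ℝ) + 1) ^ (1 : ℝ) := by
              apply Real.rpow_le_rpow_of_exponent_le
              · have : (0 : ℝ) ≤ K := Nat.cast_nonneg _
                linarith
              · rw [hδ]; linarith
          _ = _ := Real.rpow_one _
      · rw [← Real.rpow_natCast, ← Real.rpow_mul hgr.le, ← Real.rpow_natCast, ← Real.rpow_mul hgr.le]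
        apply Real.rpow_le_rpow_of_exponent_le hg1
        rw [mul_comm]
        apply mul_le_mul_of_nonneg_right _ (Nat.cast_nonneg _)
        rw [hδ]
        linarith
      · positivity
      · positivity
    refine h1.trans ?_
    rw [mul_pow]
    apply mul_le_mul_of_nonneg_right _ (by positivity)
    have h2 : K + 1 ≤ 11 ^ k := by
      have : k < 11 ^ k := Nat.lt_pow_self (by norm_num)
      omega
    exact_mod_cast h2) (by
    apply kern_dig hD (by linarith) (by positivity)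
    · omega
    · rw [hX, hC₁]
      calc 2 * ((K + 1) * g ^ k) = (2 * (K + 1)) * g ^ k := by ring
        _ ≤ (8 * (K + 1) + 1) * g ^ k := Nat.mul_le_mul_right _ (by omega)
    · rw [hX, hC₁]
      calc 4 * (2 * ((K + 1) * g ^ k)) + 1 ≤ 4 * (2 * ((K + 1) * g ^ k)) + g ^ k := by omega
        _ = (8 * (K + 1) + 1) * g ^ k := by ring)
  rw [hcc] at hmain
  refine le_trans ?_ hmain
  have e1 : ((S g D k).filter (fun v : ℕ => ¬ GoodN C X ((c₀ : ℤ) + (v : ℤ)))).card =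
      (((S g D k).filter (fun v : ℕ => ¬ GoodN C X ((c₀ : ℤ) + (v : ℤ)))).image (fun v : ℕ => (c₀ : ℤ) + (v : ℤ))).card := by
    rw [card_image_of_injective]
    intro x y h
    have h' : (c₀ : ℤ) + (x : ℤ) = (c₀ : ℤ) + (y : ℤ) := h
    omega
  rw [e1]
  rw [Nat.cast_le]
  apply card_le_card
  intro n hn
  rw [mem_image] at hn
  obtain ⟨v, hv, rfl⟩ := hn
  rw [mem_filter] at hv ⊢
  refine ⟨?_, hv.2⟩
  unfold Sh
  rw [mem_image]
  exact ⟨v, hv.1, rfl⟩

end Pool.Agent.K9h59.CF
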