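import Pool.Agent.K9h59.CF.Dig
import Pool.Agent.K9h59.CF.Arc

set_option autoImplicit false

/-! The sums of the exponential sums over the integers with restricted digits over the major arcs. -/

namespace Pool.Agent.K9h59.CF

open Finset
open Pool.Agent.H807R2.Dav (ee norm_ee ee_add KK KK_nonneg)

/-- the first digits of `t / M` -/
def pf (g M i t : ℕ) : ℕ := g ^ i * t / M

/-- the digit of `t / M` -/
def dg (g M i t : ℕ) : ℕ := pf g M (i + 1) t % g

lemma pf_succ {g M : ℕ} (hg : 0 < g) (i t : ℕ) : pf g M (i + 1) t = g * pf g M i t + dg g M i t := by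
  have h1 : pf g M (i + 1) t / g = pf g M i t := by
    unfold pf
    rw [pow_succ', mul_assoc, Nat.div_div_eq_div_mul, mul_comm M g, Nat.mul_div_mul_left _ _ hg]
  unfold dg
  conv_lhs => rw [← Nat.div_add_mod (pf g M (i + 1) t) g, h1]

lemma pf_zero {g M t : ℕ} (ht : t < M) : pf g M 0 t = 0 := by
  unfold pf
  rw [pow_zero, one_mul, Nat.div_eq_of_lt ht]

/-- equal digits at the places `j ≤ i < j + e` -/
lemma pf_eq {g M : ℕ} (hg : 0 < g) (j t t' : ℕ) : ∀ e : ℕ, (∀ i, j ≤ i → i < j + e → dg g M i t = dg g M i t') →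
    (pf g M (j + e) t : ℤ) - g ^ e * pf g M j t = (pf g M (j + e) t' : ℤ) - g ^ e * pf g M j t' := by
  intro e
  induction e with
  | zero => intro _; simp
  | succ e ih =>
    intro h
    have h1 := ih (fun i h2 h3 => h i h2 (by omega))
    rw [← Nat.add_assoc, pf_succ hg, pf_succ hg, h (j + e) (by omega) (by omega)]
    push_cast
    have e1 : ∀ s : ℕ, ((g : ℤ) * (pf g M (j + e) s) + (dg g M (j + e) t' : ℕ)) - (g : ℤ) ^ (e + 1) * pf g M j s =
        g * ((pf g M (j + e) s : ℤ) - g ^ e * pf g M j s) + (dg g M (j + e) t' : ℕ) := by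
      intro s
      ring
    rw [e1 t, e1 t', h1]

lemma pf_real {g M i t : ℕ} (hM : 0 < M) : (pf g M i t : ℝ) ≤ g ^ i * (t / M) ∧ (g : ℝ) ^ i * (t / M) < pf g M i t + 1 := by
  have hM0 : (0 : ℝ) < M := by exact_mod_cast hM
  have e : (g : ℝ) ^ i * (t / M) = ((g ^ i * t : ℕ) : ℝ) / M := by push_cast; ring
  rw [e]
  unfold pf
  constructor
  · exact Nat.cast_div_le
  · rw [div_lt_iff₀ hM0]
    have := Nat.lt_div_mul_add (a := g ^ i * t) (b := M) hM
    have h2 : ((g ^ i * t : ℕ) : ℝ) < (g ^ i * t / M : ℕ) * M + M := by exact_mod_cast this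
    linarith

lemma card_cell {g M k l : ℕ} (hM : 0 < M) (hg : 0 < g) :
    (((range M).filter (fun t => pf g M k t = l)).card : ℝ) ≤ (M : ℝ) / g ^ k + 1 := by
  have hgk : 0 < g ^ k := Nat.pow_pos hg
  have hgk0 : (0 : ℝ) < (g : ℝ) ^ k := by exact_mod_cast hgk
  rcases ((range M).filter (fun t => pf g M k t = l)).eq_empty_or_nonempty with h | h
  · rw [h]
    simp only [card_empty, Nat.cast_zero]
    positivity
  · obtain ⟨m, hm, hmin⟩ := exists_min_image _ (fun t : ℕ => t) h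
    have hsub : (range M).filter (fun t => pf g M k t = l) ⊆ Icc m (m + M / g ^ k) := by
      intro t ht
      rw [mem_Icc]
      have h1 := hmin t ht
      refine ⟨h1, ?_⟩
      rw [mem_filter] at ht hm
      have h2 := ht.2
      have h3 := hm.2
      unfold pf at h2 h3
      have h4 : g ^ k * t < g ^ k * m + M := by
        have a1 := Nat.lt_div_mul_add (a := g ^ k * t) (b := M) hM
        have a2 := Nat.div_mul_le_self (g ^ k * m) M
        rw [h2] at a1
        rw [h3] at a2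
        omega
      have h5 : g ^ k * (t - m) < M := by
        rw [Nat.mul_sub]
        omega
      have h6 : t - m ≤ M / g ^ k := by
        rw [Nat.le_div_iff_mul_le hgk]
        rw [mul_comm]
        exact h5.le
      omega
    have h1 := card_le_card hsub
    rw [Nat.card_Icc] at h1
    have h2 : ((M / g ^ k : ℕ) : ℝ) ≤ (M : ℝ) / g ^ k := by
      have := Nat.cast_div_le (α := ℝ) (m := M) (n := g ^ k)
      push_cast at this
      exact this
    have h3' : ((range M).filter (fun t => pf g M k t = l)).card ≤ M / g ^ k + 1 := by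
      generalize M / g ^ k = q at h1
      omega
    have h3 : (((range M).filter (fun t => pf g M k t = l)).card : ℝ) ≤ ((M / g ^ k + 1 : ℕ) : ℝ) := by
      exact_mod_cast h3'
    push_cast at h3
    linarith

/-- the set of integers `c₀ + v` -/
def Sh (c₀ : ℤ) (T : Finset ℕ) : Finset ℤ := T.image (fun v : ℕ => c₀ + (v : ℤ))

lemma card_Sh (c₀ : ℤ) (T : Finset ℕ) : (Sh c₀ T).card = T.card := by
  unfold Sh
  apply card_image_of_injective
  intro a b h
  simp only at h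
  omega

lemma norm_SS_Sh (c₀ : ℤ) (T : Finset ℕ) (x : ℝ) : ‖SS (Sh c₀ T) x‖ = ‖∑ v ∈ T, ee (v * x)‖ := by
  unfold SS Sh
  rw [sum_image (fun a _ b _ h => by
    have h' : c₀ + (a : ℤ) = c₀ + (b : ℤ) := h
    omega)]
  have e : ∀ v : ℕ, ee (((c₀ + (v : ℤ) : ℤ) : ℝ) * x) = ee (c₀ * x) * ee (v * x) := by
    intro v
    rw [← ee_add]
    congr 1
    push_cast
    ring
  rw [sum_congr rfl fun v _ => e v, ← mul_sum, norm_mul, norm_ee, one_mul]

/-- the number of the blocks of consecutive elements -/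
def br (D : Finset ℕ) : ℕ := (D.filter (fun x => x + 1 ∉ D)).card

lemma br_pos {D : Finset ℕ} (h : D.Nonempty) : 1 ≤ br D := by
  obtain ⟨m, hm, hmax⟩ := exists_max_image D (fun t : ℕ => t) h
  unfold br
  apply card_pos.2
  refine ⟨m, mem_filter.2 ⟨hm, fun hc => ?_⟩⟩
  have h1 : m + 1 ≤ m := hmax _ hc
  omega

/-- the conditions for the digits -/
structure Dg (g k : ℕ) (κ : ℝ) (D : ℕ → Finset ℕ) : Prop where
  hg : 3 ≤ g
  hD : ∀ i < k, D i ⊆ range g
  hne : ∀ i < k, (D i).Nonempty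
  hκ : 0 ≤ κ
  hC : ∀ i < k, br (D i) * (g * (11 + 2 * Real.log g)) ≤ (D i).card * (g : ℝ) ^ κ

/-- the factors -/
noncomputable def fw (g : ℕ) (D : ℕ → Finset ℕ) (τ : ℝ) (i a : ℕ) : ℝ :=
  br (D i) * Wf g ((⌊(g : ℝ) ^ (i + 1) * τ⌋ + (a : ℤ)) % (g : ℤ)).toNat

lemma fw_nonneg (g : ℕ) (D : ℕ → Finset ℕ) (τ : ℝ) (i a : ℕ) : 0 ≤ fw g D τ i a := by
  unfold fw
  exact mul_nonneg (Nat.cast_nonneg _) (Wf_nonneg _ _)

lemma sum_fw {g : ℕ} {D : ℕ → Finset ℕ} (hg : 3 ≤ g) (τ : ℝ) (i : ℕ) :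
    ∑ a ∈ range g, fw g D τ i a ≤ br (D i) * (g * (11 + 2 * Real.log g)) := by
  have hgz : (0 : ℤ) < g := by exact_mod_cast (by omega : 0 < g)
  unfold fw
  rw [← mul_sum]
  apply mul_le_mul_of_nonneg_left _ (Nat.cast_nonneg _)
  refine le_trans (le_of_eq ?_) (sum_Wf hg)
  obtain ⟨c, hc⟩ : ∃ c : ℤ, c = ⌊(g : ℝ) ^ (i + 1) * τ⌋ := ⟨_, rfl⟩
  rw [← hc]
  have hinj : Set.InjOn (fun a : ℕ => ((c + (a : ℤ)) % (g : ℤ)).toNat) (range g : Set ℕ) := by
    intro a ha b hb h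
    have ha' : (a : ℤ) < g := by exact_mod_cast mem_range.1 (mem_coe.1 ha)
    have hb' : (b : ℤ) < g := by exact_mod_cast mem_range.1 (mem_coe.1 hb)
    simp only at h
    have h1 := Int.emod_nonneg (c + a) hgz.ne'
    have h2 := Int.emod_nonneg (c + b) hgz.ne'
    have h3 : (c + (a : ℤ)) % g = (c + b) % g := by omega
    have h4 : (g : ℤ) ∣ (c + a) - (c + b) := Int.ModEq.dvd (Int.ModEq.symm h3)
    obtain ⟨d, hd⟩ := h4
    have hd0 : d = 0 := by
      by_contra h0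
      rcases lt_or_gt_of_ne h0 with h | h
      · nlinarith
      · nlinarith
    rw [hd0, mul_zero] at hd
    omega
  have himg : (range g).image (fun a : ℕ => ((c + (a : ℤ)) % (g : ℤ)).toNat) = range g := by
    apply eq_of_subset_of_card_le
    · intro r hr
      rw [mem_image] at hr
      obtain ⟨a, -, rfl⟩ := hr
      rw [mem_range]
      have := Int.emod_lt_of_pos (c + a) hgz
      have := Int.emod_nonneg (c + a) hgz.ne'
      omega
    · rw [card_image_of_injOn hinj]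
  conv_rhs => rw [← himg]
  rw [sum_image (fun a ha b hb h => hinj (mem_coe.2 ha) (mem_coe.2 hb) h)]

/-- one factor -/
lemma F_fw {g k M : ℕ} {κ : ℝ} {D : ℕ → Finset ℕ} (h : Dg g k κ D) (hM : 0 < M) (τ : ℝ) {i : ℕ} (hi : i < k) (t : ℕ) :
    ‖F (D i) ((g : ℝ) ^ i * (τ + t / M))‖ ≤ fw g D τ i (dg g M i t) := by
  have hg0 : 0 < g := by have := h.hg; omega
  refine (F_le (h.hD i hi) (le_refl (br (D i))) (br_pos (h.hne i hi)) _).trans ?_
  unfold fw
  apply mul_le_mul_of_nonneg_left _ (Nat.cast_nonneg _)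
  obtain ⟨c, hc⟩ : ∃ c : ℤ, c = ⌊(g : ℝ) ^ (i + 1) * τ⌋ := ⟨_, rfl⟩
  have h1 := Int.floor_le ((g : ℝ) ^ (i + 1) * τ)
  have h2 := Int.lt_floor_add_one ((g : ℝ) ^ (i + 1) * τ)
  rw [← hc] at h1 h2 ⊢
  obtain ⟨h3, h4⟩ := pf_real (g := g) (M := M) (i := i + 1) (t := t) hM
  have e1 : (g : ℝ) * ((g : ℝ) ^ i * (τ + t / M)) = (g : ℝ) ^ (i + 1) * τ + (g : ℝ) ^ (i + 1) * (t / M) := by ring
  have h5 := KK_window (g := g) h.hg (x := (g : ℝ) ^ i * (τ + t / M)) (m := c + (pf g M (i + 1) t : ℤ)) (by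
    rw [e1]
    push_cast
    linarith) (by
    rw [e1]
    push_cast
    linarith)
  have e2 : (c + (pf g M (i + 1) t : ℤ)) % (g : ℤ) = (c + (dg g M i t : ℤ)) % (g : ℤ) := by
    have : (pf g M (i + 1) t : ℤ) = dg g M i t + g * (pf g M i t : ℤ) := by
      rw [pf_succ hg0]
      push_cast
      ring
    rw [this, ← add_assoc, Int.add_mul_emod_self_left]
  rw [e2] at h5
  exact h5

lemma F_triv (D : Finset ℕ) (x : ℝ) : ‖F D x‖ ≤ D.card := by
  unfold F
  refine (norm_sum_le _ _).trans ?_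
  simp only [norm_ee, sum_const, nsmul_eq_mul, mul_one]
  exact le_rfl

/-- the general bound -/
lemma ker_gen {g k M : ℕ} {κ : ℝ} {D : ℕ → Finset ℕ} (h : Dg g k κ D) (hM : 0 < M) (c₀ : ℤ) (τ : ℝ)
    (A : Finset ℕ) (hA : A ⊆ range k) (E : Finset ℕ) (c : ℝ) (hc0 : 0 ≤ c)
    (hc : ∀ t₀ ∈ E, ((E.filter (fun t => ∀ i ∈ A, dg g M i t = dg g M i t₀)).card : ℝ) ≤ c) :
    ∑ t ∈ E, ‖SS (Sh c₀ (S g D k)) (τ + t / M)‖ ≤ c * ((S g D k).card * ((g : ℝ) ^ κ) ^ A.card) := by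
  have hg0 : 0 < g := by have := h.hg; omega
  have h1 : ∀ t ∈ E, ‖SS (Sh c₀ (S g D k)) (τ + t / M)‖ ≤
      (∏ i ∈ range k \ A, ((D i).card : ℝ)) * ∏ i ∈ A, fw g D τ i (dg g M i t) := by
    intro t _
    rw [norm_SS_Sh, sum_S hg0 _ k h.hD, norm_prod, ← prod_sdiff hA]
    apply mul_le_mul
    · exact prod_le_prod (fun i _ => norm_nonneg _) fun i _ => F_triv _ _
    · exact prod_le_prod (fun i _ => norm_nonneg _) fun i hi => F_fw h hM τ (mem_range.1 (hA hi)) t
    · exact prod_nonneg fun i _ => norm_nonneg _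
    · exact prod_nonneg fun i _ => Nat.cast_nonneg _
  refine (sum_le_sum h1).trans ?_
  rw [← mul_sum]
  have h2 := sum_prod_le A g E (dg g M) (fun i _ t _ => Nat.mod_lt _ hg0) (fw g D τ) (fw_nonneg g D τ) c hc0 hc
  have h3 : ∏ i ∈ A, ∑ x ∈ range g, fw g D τ i x ≤ ∏ i ∈ A, (((D i).card : ℝ) * (g : ℝ) ^ κ) := by
    apply prod_le_prod (fun i _ => sum_nonneg fun _ _ => fw_nonneg _ _ _ _ _)
    intro i hi
    exact (sum_fw h.hg τ i).trans (h.hC i (mem_range.1 (hA hi)))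
  rw [prod_mul_distrib, prod_const] at h3
  have hp0 : 0 ≤ ∏ i ∈ range k \ A, ((D i).card : ℝ) := prod_nonneg fun i _ => Nat.cast_nonneg _
  calc (∏ i ∈ range k \ A, ((D i).card : ℝ)) * ∑ t ∈ E, ∏ i ∈ A, fw g D τ i (dg g M i t)
      ≤ (∏ i ∈ range k \ A, ((D i).card : ℝ)) * (c * ((∏ i ∈ A, ((D i).card : ℝ)) * ((g : ℝ) ^ κ) ^ A.card)) := by
        apply mul_le_mul_of_nonneg_left _ hp0
        exact h2.trans (mul_le_mul_of_nonneg_left h3 hc0)
    _ = c * (((∏ i ∈ range k \ A, ((D i).card : ℝ)) * ∏ i ∈ A, ((D i).card : ℝ)) * ((g : ℝ) ^ κ) ^ A.card) := by ring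
    _ = _ := by
        rw [prod_sdiff hA, card_S hg0 k h.hD]
        push_cast
        rfl

/-- all the frequencies -/
lemma ker_all {g k M : ℕ} {κ : ℝ} {D : ℕ → Finset ℕ} (h : Dg g k κ D) (hM : 0 < M) (c₀ : ℤ) (τ : ℝ) :
    ∑ t ∈ range M, ‖SS (Sh c₀ (S g D k)) (τ + t / M)‖ ≤
      ((M : ℝ) / g ^ k + 1) * ((S g D k).card * ((g : ℝ) ^ κ) ^ k) := by
  have hg0 : 0 < g := by have := h.hg; omega
  have h1 := ker_gen h hM c₀ τ (range k) subset_rfl (range M) ((M : ℝ) / g ^ k + 1) (by positivity) (by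
    intro t₀ ht₀
    refine le_trans ?_ (card_cell (l := pf g M k t₀) hM hg0)
    rw [Nat.cast_le]
    apply card_le_card
    intro t ht
    rw [mem_filter] at ht ⊢
    refine ⟨ht.1, ?_⟩
    have h2 := pf_eq hg0 0 t t₀ k (fun i _ hi => ht.2 i (mem_range.2 (by omega)))
    rw [zero_add, pf_zero (mem_range.1 ht.1), pf_zero (mem_range.1 ht₀)] at h2
    simpa using h2)
  rwa [card_range] at h1

end Pool.Agent.K9h59.CF
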