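import Pool.Agent.K9h59.CF.Ker

set_option autoImplicit false

/-! The major arcs and the integers with restricted digits. -/

namespace Pool.Agent.K9h59.CF

open Finset

open Classical in
/-- the part of the major arcs with the denominators of the order `2 ^ q` -/
noncomputable def lev (M N R q : ℕ) : Finset ℕ :=
  (range M).filter (fun t : ℕ => ∃ k : ℕ, 2 ^ q ≤ k ∧ k < 2 ^ (q + 1) ∧ ∃ h : ℤ, |(t : ℝ) / M - h / (k : ℝ)| ≤ R / (k * N))

lemma frac_eq {a b : ℤ} {k l q : ℕ} (hk0 : 0 < k) (hl0 : 0 < l) (hk : k < 2 ^ (q + 1)) (hl : l < 2 ^ (q + 1))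
    (h : |(a : ℝ) / k - b / l| < 1 / 4 ^ (q + 1)) : (a : ℝ) / k = b / l := by
  have hk1 : (0 : ℝ) < k := by exact_mod_cast hk0
  have hl1 : (0 : ℝ) < l := by exact_mod_cast hl0
  by_contra hne
  have h1 : (a : ℝ) / k - b / l = ((a * l - b * k : ℤ) : ℝ) / (k * l) := by
    push_cast
    field_simp
  have h2 : a * l - b * k ≠ 0 := by
    intro h0
    rw [h0] at h1
    apply hne
    rw [Int.cast_zero, zero_div] at h1
    linarith
  have h3 : (1 : ℝ) ≤ |((a * l - b * k : ℤ) : ℝ)| := by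
    rw [← Int.cast_abs]
    exact_mod_cast Int.one_le_abs h2
  rw [h1, abs_div, abs_of_pos (by positivity : (0 : ℝ) < k * l), div_lt_div_iff₀ (by positivity) (by positivity)] at h
  have h4 : (k : ℝ) * l < 4 ^ (q + 1) := by
    have a1 : (k : ℝ) < 2 ^ (q + 1) := by exact_mod_cast hk
    have a2 : (l : ℝ) < 2 ^ (q + 1) := by exact_mod_cast hl
    calc (k : ℝ) * l < 2 ^ (q + 1) * 2 ^ (q + 1) := by
          apply mul_lt_mul a1 a2.le hl1 (by positivity)
      _ = 4 ^ (q + 1) := by rw [← mul_pow]; norm_num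
  have h5 : (4 : ℝ) ^ (q + 1) ≤ |((a * l - b * k : ℤ) : ℝ)| * 4 ^ (q + 1) := by
    have : (0 : ℝ) < 4 ^ (q + 1) := by positivity
    nlinarith
  linarith

lemma ker_lev {g k M N R q C : ℕ} {κ : ℝ} {D : ℕ → Finset ℕ} (h : Dg g k κ D) (hM : 0 < M) (hgN : g ^ k ≤ N)
    (hNC : N ≤ C * g ^ k) (hMC : M ≤ C * g ^ k) (hR : 1 ≤ R) (hq : 2 ^ q ≤ R) (hRN : 16 * C * R ^ 2 ≤ N)
    (c₀ : ℤ) (τ : ℝ) :
    ∑ t ∈ lev M N R q, ‖SS (Sh c₀ (S g D k)) (τ + t / M)‖ ≤
      (C + 1) * ((S g D k).card * (32 * (g : ℝ) ^ 2 * R * 2 ^ q) ^ κ) := by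
  classical
  have hg3 := h.hg
  have hg0 : 0 < g := by omega
  have hgr : (0 : ℝ) < g := by exact_mod_cast hg0
  have hg1 : (1 : ℝ) ≤ g := by exact_mod_cast hg0
  have hgk : 0 < g ^ k := Nat.pow_pos hg0
  have hC0 : 0 < C := by
    by_contra h0
    have : C = 0 := by omega
    rw [this, zero_mul] at hMC
    omega
  have hN0 : 0 < N := by omega
  have hNr : (0 : ℝ) < N := by exact_mod_cast hN0
  have hMr : (0 : ℝ) < M := by exact_mod_cast hM
  have hRr : (1 : ℝ) ≤ R := by exact_mod_cast hR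
  have hRk : 16 * R ^ 2 ≤ g ^ k := by
    have h1 : C * (16 * R ^ 2) ≤ C * g ^ k := by
      calc C * (16 * R ^ 2) = 16 * C * R ^ 2 := by ring
        _ ≤ N := hRN
        _ ≤ _ := hNC
    exact Nat.le_of_mul_le_mul_left h1 hC0
  have hRR : R ≤ R ^ 2 := Nat.le_self_pow (by norm_num) R
  have h2q : (2 : ℝ) ^ q ≤ R := by exact_mod_cast hq
  have h2q0 : (0 : ℝ) < 2 ^ q := by positivity
  have h2q1 : (1 : ℝ) ≤ 2 ^ q := one_le_pow₀ (by norm_num)
  have h4q : (4 : ℝ) ^ q = 2 ^ q * 2 ^ q := by rw [← mul_pow]; norm_num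
  have h4qn : 4 ^ q ≤ R ^ 2 := by
    calc 4 ^ q = 2 ^ q * 2 ^ q := by rw [← mul_pow]; norm_num
      _ ≤ R * R := Nat.mul_le_mul hq hq
      _ = R ^ 2 := by ring
  -- the number of the first digits
  obtain ⟨j, hj⟩ : ∃ j, j = Nat.clog g (8 * 4 ^ q) := ⟨_, rfl⟩
  have h4q1 : 1 ≤ 4 ^ q := Nat.one_le_pow _ _ (by norm_num)
  have hj1 : 8 * 4 ^ q ≤ g ^ j := by rw [hj]; exact Nat.le_pow_clog (by omega) _
  have hj2 : g ^ j ≤ g * (8 * 4 ^ q) := by
    have h1 : 0 < Nat.clog g (8 * 4 ^ q) := Nat.clog_pos (by omega) (by omega)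
    have h2 := Nat.pow_pred_clog_lt_self (b := g) (by omega) (x := 8 * 4 ^ q) (by omega)
    rw [← hj] at h1 h2
    obtain ⟨i, rfl⟩ : ∃ i, j = i + 1 := ⟨j - 1, by omega⟩
    rw [Nat.pred_succ] at h2
    rw [pow_succ']
    exact Nat.mul_le_mul_left _ h2.le
  have hjk : j ≤ k := by
    rw [hj]
    apply Nat.clog_le_of_le_pow
    omega
  -- the number of the last digits
  obtain ⟨n, hn⟩ : ∃ n, n = 2 * R / 2 ^ q + 2 := ⟨_, rfl⟩
  have hn1 : 2 * (R : ℝ) / 2 ^ q + 1 ≤ n := by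
    have h1 := Nat.lt_div_mul_add (a := 2 * R) (b := 2 ^ q) (by positivity)
    have h2 : 2 * (R : ℝ) < (2 * R / 2 ^ q : ℕ) * 2 ^ q + 2 ^ q := by exact_mod_cast h1
    have h3 : 2 * (R : ℝ) / 2 ^ q < (2 * R / 2 ^ q : ℕ) + 1 := by
      rw [div_lt_iff₀ h2q0]
      linarith
    rw [hn]
    push_cast at h3 ⊢
    linarith
  have hn2 : (n : ℝ) ≤ 4 * R / 2 ^ q := by
    have h1 : ((2 * R / 2 ^ q : ℕ) : ℝ) ≤ 2 * R / 2 ^ q := by
      have := Nat.cast_div_le (α := ℝ) (m := 2 * R) (n := 2 ^ q)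
      push_cast at this
      exact this
    have h2 : (1 : ℝ) ≤ R / 2 ^ q := by rw [one_le_div h2q0]; exact h2q
    have e : 4 * (R : ℝ) / 2 ^ q = 2 * R / 2 ^ q + 2 * (R / 2 ^ q) := by ring
    rw [hn, e]
    push_cast at h1 ⊢
    linarith
  obtain ⟨e, he⟩ : ∃ e, e = Nat.clog g n := ⟨_, rfl⟩
  have he1 : n ≤ g ^ e := by rw [he]; exact Nat.le_pow_clog (by omega) _
  have he2 : g ^ e ≤ g * n := by
    have hn3 : 1 < n := by
      generalize 2 * R / 2 ^ q = w at hn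
      omega
    have h1 : 0 < Nat.clog g n := Nat.clog_pos (by omega) hn3
    have h2 := Nat.pow_pred_clog_lt_self (b := g) (by omega) (x := n) hn3
    rw [← he] at h1 h2
    obtain ⟨i, rfl⟩ : ∃ i, e = i + 1 := ⟨e - 1, by omega⟩
    rw [Nat.pred_succ] at h2
    rw [pow_succ']
    exact Nat.mul_le_mul_left _ h2.le
  have hek : e ≤ k := by
    rw [he]
    apply Nat.clog_le_of_le_pow
    have : 2 * R / 2 ^ q ≤ 2 * R := Nat.div_le_self _ _
    omega
  obtain ⟨A, hA⟩ : ∃ A, A = range j ∪ Ico (k - e) k := ⟨_, rfl⟩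
  have hAk : A ⊆ range k := by
    intro i hi
    rw [hA, mem_union, mem_range, mem_Ico] at hi
    rw [mem_range]
    omega
  have hAc : A.card ≤ j + e := by
    rw [hA]
    refine (card_union_le _ _).trans ?_
    rw [card_range, Nat.card_Ico]
    omega
  -- the fibres
  have hfib : ∀ t₀ ∈ lev M N R q, (((lev M N R q).filter (fun t => ∀ i ∈ A, dg g M i t = dg g M i t₀)).card : ℝ) ≤
      (C : ℝ) + 1 := by
    intro t₀ ht₀
    have h1 : ((M : ℝ) / g ^ k + 1) ≤ C + 1 := by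
      have : (M : ℝ) ≤ C * g ^ k := by exact_mod_cast hMC
      have h2 : (M : ℝ) / g ^ k ≤ C := by
        rw [div_le_iff₀ (by positivity)]
        exact this
      linarith
    refine le_trans ?_ h1
    refine le_trans ?_ (card_cell (l := pf g M k t₀) hM hg0)
    rw [Nat.cast_le]
    apply card_le_card
    intro t ht
    rw [mem_filter] at ht ⊢
    obtain ⟨ht1, ht2⟩ := ht
    unfold lev at ht1 ht₀
    rw [mem_filter] at ht1 ht₀
    obtain ⟨ht3, l, hl1, hl2, b, hb⟩ := ht1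
    obtain ⟨ht4, l₀, hl3, hl4, b₀, hb₀⟩ := ht₀
    refine ⟨ht3, ?_⟩
    have hl0 : 0 < l := lt_of_lt_of_le (by positivity) hl1
    have hl00 : 0 < l₀ := lt_of_lt_of_le (by positivity) hl3
    obtain ⟨θ, hθ⟩ : ∃ θ, θ = (t : ℝ) / M := ⟨_, rfl⟩
    obtain ⟨θ₀, hθ₀⟩ : ∃ θ₀, θ₀ = (t₀ : ℝ) / M := ⟨_, rfl⟩
    have hw : ∀ l : ℕ, 2 ^ q ≤ l → (R : ℝ) / (l * N) ≤ R / (2 ^ q * N) := by
      intro l hl
      have : (2 : ℝ) ^ q ≤ l := by exact_mod_cast hl
      gcongr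
    have hb' := hb.trans (hw l hl1)
    have hb₀' := hb₀.trans (hw l₀ hl3)
    rw [← hθ] at hb'
    rw [← hθ₀] at hb₀'
    -- the first digits
    have p1 := pf_eq hg0 0 t t₀ j (fun i _ hi => ht2 i (by
      rw [hA, mem_union, mem_range]
      exact Or.inl (by omega)))
    rw [zero_add, pf_zero (mem_range.1 ht3), pf_zero (mem_range.1 ht4)] at p1
    have p2 : pf g M j t = pf g M j t₀ := by simpa using p1
    obtain ⟨p3, p4⟩ := pf_real (g := g) (M := M) (i := j) (t := t) hM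
    obtain ⟨p5, p6⟩ := pf_real (g := g) (M := M) (i := j) (t := t₀) hM
    rw [p2] at p3 p4
    rw [← hθ] at p3 p4
    rw [← hθ₀] at p5 p6
    have hgj : (0 : ℝ) < (g : ℝ) ^ j := by positivity
    have p7 : |θ - θ₀| < 1 / (g : ℝ) ^ j := by
      rw [lt_div_iff₀ hgj, ← abs_of_pos hgj, ← abs_mul, abs_lt]
      constructor <;> nlinarith
    have p8 : 1 / (g : ℝ) ^ j ≤ 1 / (8 * 4 ^ q) := by
      apply one_div_le_one_div_of_le (by positivity)
      exact_mod_cast hj1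
    have p9 : 2 * ((R : ℝ) / (2 ^ q * N)) ≤ 1 / (8 * 4 ^ q) := by
      rw [← mul_div_assoc, div_le_div_iff₀ (by positivity) (by positivity), h4q]
      have a1 : 16 * (R : ℝ) ^ 2 ≤ N := by exact_mod_cast hRk.trans hgN
      calc 2 * (R : ℝ) * (8 * (2 ^ q * 2 ^ q)) = 2 ^ q * (16 * (R * 2 ^ q)) := by ring
        _ ≤ 2 ^ q * (16 * (R * R)) := by gcongr
        _ = 2 ^ q * (16 * R ^ 2) := by ring
        _ ≤ 2 ^ q * N := by gcongr
        _ = _ := by ring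
    have f1 : |(b : ℝ) / l - b₀ / l₀| < 1 / 4 ^ (q + 1) := by
      have a1 : (b : ℝ) / l - b₀ / l₀ = (θ - θ₀) - (θ - b / l) + (θ₀ - b₀ / l₀) := by ring
      have a2 : |(b : ℝ) / l - b₀ / l₀| ≤ |θ - θ₀| + |θ - b / l| + |θ₀ - b₀ / l₀| := by
        rw [a1]
        refine (abs_add_le _ _).trans ?_
        have := abs_sub (θ - θ₀) (θ - b / l)
        linarith
      have a3 : (1 : ℝ) / 4 ^ (q + 1) = 1 / (8 * 4 ^ q) + 1 / (8 * 4 ^ q) := by
        rw [pow_succ]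
        field_simp
        norm_num
      rw [a3]
      linarith
    have f2 := frac_eq hl0 hl00 hl2 hl4 f1
    have f3 : |θ - θ₀| ≤ 2 * ((R : ℝ) / (2 ^ q * N)) := by
      have a1 : θ - θ₀ = (θ - b / l) - (θ₀ - b₀ / l₀) := by rw [f2]; ring
      rw [a1]
      refine (abs_sub _ _).trans ?_
      linarith
    -- the last digits
    have s1 := pf_eq hg0 (k - e) t t₀ e (fun i hi1 hi2 => ht2 i (by
      rw [hA, mem_union, mem_Ico]
      exact Or.inr (by omega)))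
    rw [show k - e + e = k by omega] at s1
    obtain ⟨s3, s4⟩ := pf_real (g := g) (M := M) (i := k) (t := t) hM
    obtain ⟨s5, s6⟩ := pf_real (g := g) (M := M) (i := k) (t := t₀) hM
    rw [← hθ] at s3 s4
    rw [← hθ₀] at s5 s6
    have s7 : (g : ℝ) ^ k * |θ - θ₀| ≤ 2 * R / 2 ^ q := by
      have a1 : (g : ℝ) ^ k ≤ N := by exact_mod_cast hgN
      calc (g : ℝ) ^ k * |θ - θ₀| ≤ N * (2 * ((R : ℝ) / (2 ^ q * N))) := by gcongr
        _ = _ := by field_simp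
    have s8 : |(pf g M k t : ℝ) - pf g M k t₀| < 2 * R / 2 ^ q + 1 := by
      have a1 : |(g : ℝ) ^ k * θ - g ^ k * θ₀| ≤ 2 * R / 2 ^ q := by
        rw [← mul_sub, abs_mul, abs_of_pos (by positivity : (0 : ℝ) < (g : ℝ) ^ k)]
        exact s7
      have a2 := abs_le.1 a1
      rw [abs_lt]
      constructor <;> linarith
    have s9 : |(pf g M k t : ℤ) - pf g M k t₀| < (g : ℤ) ^ e := by
      have a1 : (n : ℝ) ≤ (g : ℝ) ^ e := by exact_mod_cast he1
      have a2 : |(pf g M k t : ℝ) - pf g M k t₀| < (g : ℝ) ^ e := by linarith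
      exact_mod_cast a2
    have s10 : (g : ℤ) ^ e ∣ (pf g M k t : ℤ) - pf g M k t₀ := by
      refine ⟨(pf g M (k - e) t : ℤ) - pf g M (k - e) t₀, ?_⟩
      linarith
    have s11 := Int.eq_zero_of_abs_lt_dvd s10 s9
    omega
  have h1 := ker_gen h hM c₀ τ A hAk (lev M N R q) ((C : ℝ) + 1) (by positivity) hfib
  refine h1.trans ?_
  apply mul_le_mul_of_nonneg_left _ (by positivity)
  apply mul_le_mul_of_nonneg_left _ (Nat.cast_nonneg _)
  have hgκ : 1 ≤ (g : ℝ) ^ κ := Real.one_le_rpow hg1 h.hκ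
  calc ((g : ℝ) ^ κ) ^ A.card ≤ ((g : ℝ) ^ κ) ^ (j + e) := pow_le_pow_right₀ hgκ hAc
    _ = ((g : ℝ) ^ (j + e)) ^ κ := by
        rw [← Real.rpow_natCast, ← Real.rpow_mul hgr.le, mul_comm, Real.rpow_mul hgr.le, Real.rpow_natCast]
    _ ≤ _ := by
        apply Real.rpow_le_rpow (by positivity) _ h.hκ
        rw [pow_add]
        have a1 : (g : ℝ) ^ j ≤ g * (8 * 4 ^ q) := by exact_mod_cast hj2
        have a2 : (g : ℝ) ^ e ≤ g * (4 * R / 2 ^ q) := by
          have : (g : ℝ) ^ e ≤ g * n := by exact_mod_cast he2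
          refine this.trans ?_
          gcongr
        calc (g : ℝ) ^ j * (g : ℝ) ^ e ≤ (g * (8 * 4 ^ q)) * (g * (4 * R / 2 ^ q)) := by gcongr
          _ = _ := by
              rw [h4q]
              field_simp
              ring

open Classical in
lemma mjr_lev {M N R t : ℕ} (ht : t ∈ mjr M N R) : ∃ q ∈ range (Nat.log 2 R + 1), t ∈ lev M N R q := by
  rw [mem_mjr] at ht
  obtain ⟨h1, k, hk, h, hh⟩ := ht
  rw [mem_Icc] at hk
  refine ⟨Nat.log 2 k, ?_, ?_⟩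
  · rw [mem_range]
    have := Nat.log_mono_right (b := 2) hk.2
    omega
  · unfold lev
    rw [mem_filter]
    exact ⟨h1, k, Nat.pow_log_le_self 2 (by omega), Nat.lt_pow_succ_log_self (by norm_num) k, h, hh⟩

lemma sum_bU {ι : Type*} [DecidableEq ι] (s : Finset ι) (t : ι → Finset ℕ) (f : ℕ → ℝ) (hf : ∀ x, 0 ≤ f x) :
    ∑ x ∈ s.biUnion t, f x ≤ ∑ i ∈ s, ∑ x ∈ t i, f x := by
  induction s using Finset.induction_on with
  | empty => simp
  | insert a s ha ih =>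
    rw [biUnion_insert, sum_insert ha]
    have h1 := sum_union_inter (s₁ := t a) (s₂ := s.biUnion t) (f := f)
    have h2 : 0 ≤ ∑ x ∈ t a ∩ s.biUnion t, f x := sum_nonneg fun _ _ => hf _
    linarith

/-- the major arcs -/
lemma ker_mjr {g k M N R C : ℕ} {κ : ℝ} {D : ℕ → Finset ℕ} (h : Dg g k κ D) (hM : 0 < M) (hgN : g ^ k ≤ N)
    (hNC : N ≤ C * g ^ k) (hMC : M ≤ C * g ^ k) (hR : 1 ≤ R) (hRN : 16 * C * R ^ 2 ≤ N) (c₀ : ℤ) (τ : ℝ) :
    ∑ t ∈ mjr M N R, ‖SS (Sh c₀ (S g D k)) (τ + t / M)‖ ≤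
      (Nat.log 2 R + 1) * ((C + 1) * ((S g D k).card * (32 * (g : ℝ) ^ 2 * R * R) ^ κ)) := by
  classical
  have h1 : ∑ t ∈ mjr M N R, ‖SS (Sh c₀ (S g D k)) (τ + t / M)‖ ≤
      ∑ t ∈ (range (Nat.log 2 R + 1)).biUnion (fun q => lev M N R q), ‖SS (Sh c₀ (S g D k)) (τ + t / M)‖ := by
    apply sum_le_sum_of_subset_of_nonneg
    · intro t ht
      rw [mem_biUnion]
      exact mjr_lev ht
    · intro _ _ _
      exact norm_nonneg _
  refine h1.trans ((sum_bU _ _ _ fun _ => norm_nonneg _).trans ?_)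
  have h2 : ∀ q ∈ range (Nat.log 2 R + 1), ∑ t ∈ lev M N R q, ‖SS (Sh c₀ (S g D k)) (τ + t / M)‖ ≤
      (C + 1) * ((S g D k).card * (32 * (g : ℝ) ^ 2 * R * R) ^ κ) := by
    intro q hq
    rw [mem_range] at hq
    have hq' : 2 ^ q ≤ R := (Nat.pow_le_pow_right (by norm_num) (by omega)).trans (Nat.pow_log_le_self 2 (by omega))
    refine (ker_lev h hM hgN hNC hMC hR hq' hRN c₀ τ).trans ?_
    have : (2 : ℝ) ^ q ≤ R := by exact_mod_cast hq'
    have hκ := h.hκ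
    gcongr
  refine (sum_le_sum h2).trans ?_
  rw [sum_const, card_range, nsmul_eq_mul]
  push_cast
  exact le_rfl

end Pool.Agent.K9h59.CF
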