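import Pool.Agent.K9h59.CF.Mean

set_option autoImplicit false

/-! The mean square of the correlation with a quadratic polynomial over a set with a small kernel: the theorem. -/

namespace Pool.Agent.K9h59.CF

open Finset
open Pool.Agent.R460.SB (cvs)
open Pool.Agent.R460.GS (ApAt)
open Pool.Agent.Y614.GJ.Core (ev_log)

theorem mean_gen (κ K : ℝ) (hκ0 : 0 ≤ κ) (hκ : κ < 1 / 2) (hK : 1 ≤ K) (α γ : ℤ) (hα : α ≠ 0) (C₁ A : ℕ) :
    ∃ B U N₀ : ℕ, ∀ N : ℕ, N₀ ≤ N → ∀ M : ℕ, N < M → M ≤ C₁ * N → ∀ D : Finset ℤ, Kern κ K N M D →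
      ∀ G : ℕ → ℂ, (∀ n ∈ Icc 1 N, ‖G n‖ ≤ Real.log N ^ 2) → ApAt N B U G → ∀ y : ℕ, y ^ 2 ≤ N →
      (∀ n ∈ D, ∀ m ∈ Icc 1 y, ∀ l ∈ Icc 1 N, |(l : ℤ) + (α * (m : ℤ) ^ 2 + γ * (m : ℤ)) - n| < M) →
      ∑ n ∈ D, ‖cvs α γ G y N n‖ ^ 2 ≤ D.card * (N / Real.log N ^ A) := by
  classical
  obtain ⟨a, ha⟩ : ∃ a, a = 2 * α.natAbs := ⟨_, rfl⟩
  have hnat0 : 0 < α.natAbs := Int.natAbs_pos.2 hα
  have ha2 : 2 ≤ a := by omega
  have har : (1 : ℝ) ≤ a := by exact_mod_cast (by omega : 1 ≤ a)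
  obtain ⟨Kc, hKc⟩ : ∃ Kc, Kc = ⌈K⌉₊ := ⟨_, rfl⟩
  have hKKc : K ≤ Kc := by rw [hKc]; exact Nat.le_ceil _
  have hKc1 : (1 : ℝ) ≤ Kc := hK.trans hKKc
  have hKc1n : 1 ≤ Kc := by exact_mod_cast hKc1
  obtain ⟨ν, hν⟩ : ∃ ν, ν = 1 - 2 * κ := ⟨_, rfl⟩
  have hν0 : 0 < ν := by rw [hν]; linarith
  obtain ⟨C, hC⟩ : ∃ C : ℕ, C = ⌈((A : ℝ) + 20) / ν⌉₊ := ⟨_, rfl⟩
  have hCν : (A : ℝ) + 20 ≤ C * ν := by
    have : ((A : ℝ) + 20) / ν ≤ C := by rw [hC]; exact Nat.le_ceil _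
    rwa [div_le_iff₀ hν0] at this
  obtain ⟨U, hU⟩ : ∃ U, U = 4 * C + 4 + A + 20 := ⟨_, rfl⟩
  obtain ⟨N₁, hN₁⟩ := Filter.eventually_atTop.1 (ev_log (A + 6) (s := 1 / 2 - κ) (by linarith)
    (100 + 200000 * (a * K * Kc) + 20000 * (K * C₁)))
  obtain ⟨N₂, hN₂⟩ := Filter.eventually_atTop.1 (ev_log (C + 1) (s := 1 / 2) (by norm_num) 1)
  refine ⟨C + 1, U, N₁ + N₂ + 1, fun N hN M hNM hMC D hKern G hG hAp y hy hcl => ?_⟩
  obtain ⟨hLb, hLp⟩ := hN₁ N (by omega)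
  obtain ⟨-, hLp2⟩ := hN₂ N (by omega)
  have hN1 : 1 ≤ N := by omega
  have hN0 : (0 : ℝ) < N := by exact_mod_cast hN1
  have hN1r : (1 : ℝ) ≤ N := by exact_mod_cast hN1
  have hM0 : (0 : ℝ) < M := by exact_mod_cast (by omega : 0 < M)
  have hNMr : (N : ℝ) ≤ M := by exact_mod_cast hNM.le
  have hMCr : (M : ℝ) ≤ C₁ * N := by exact_mod_cast hMC
  have hC1 : 1 ≤ C₁ := by
    by_contra h0
    have : C₁ = 0 := by omega
    rw [this, zero_mul] at hMC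
    omega
  have hC1r : (1 : ℝ) ≤ C₁ := by exact_mod_cast hC1
  obtain ⟨L, hL⟩ : ∃ L, L = Real.log (N : ℝ) := ⟨_, rfl⟩
  rw [← hL] at hLb hLp hLp2 hG ⊢
  have hK0 : 0 < K := by linarith
  have haK : 0 < (a : ℝ) * K * Kc := by positivity
  have hKC : 0 < K * (C₁ : ℝ) := by positivity
  have hL100 : 100 ≤ L := by linarith
  have hL0 : 0 < L := by linarith
  have hL1 : 1 ≤ L := by linarith
  have hLa : 200000 * ((a : ℝ) * K * Kc) ≤ L := by linarith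
  have hLc : 20000 * (K * C₁) ≤ L := by linarith
  have h1L : 1 + L ≤ 2 * L := by linarith
  have haKK : (a : ℝ) ≤ a * K * Kc := by
    calc (a : ℝ) = a * 1 * 1 := by ring
      _ ≤ a * K * Kc := by gcongr
  have haKc : (a : ℝ) * Kc ≤ a * K * Kc := by
    calc (a : ℝ) * Kc = a * 1 * Kc := by ring
      _ ≤ a * K * Kc := by gcongr
  have haK' : (a : ℝ) * K ≤ a * K * Kc := by
    calc (a : ℝ) * K = a * K * 1 := by ring
      _ ≤ a * K * Kc := by gcongr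
  obtain ⟨S, hS⟩ : ∃ S, S = Real.sqrt N := ⟨_, rfl⟩
  have hSS : S * S = N := by rw [hS]; exact Real.mul_self_sqrt hN0.le
  have hS0 : 0 < S := by rw [hS]; exact Real.sqrt_pos.2 hN0
  have hSr : S = (N : ℝ) ^ (1 / 2 : ℝ) := by rw [hS, Real.sqrt_eq_rpow]
  rw [← hSr] at hLp2
  have hLC1 : 1 ≤ L ^ C := one_le_pow₀ hL1
  -- the first level
  obtain ⟨j₀, hj₀⟩ : ∃ j, j = Nat.log 2 ⌈L ^ C⌉₊ + 1 := ⟨_, rfl⟩
  have hj1 : L ^ C ≤ (2 : ℝ) ^ j₀ := by
    have h1 : ⌈L ^ C⌉₊ < 2 ^ j₀ := by rw [hj₀]; exact Nat.lt_pow_succ_log_self (by norm_num) _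
    have h2 : (⌈L ^ C⌉₊ : ℝ) ≤ 2 ^ j₀ := by exact_mod_cast h1.le
    exact (Nat.le_ceil _).trans h2
  have hj2 : (2 : ℝ) ^ j₀ ≤ 4 * L ^ C := by
    have h0 : 0 < ⌈L ^ C⌉₊ := Nat.ceil_pos.2 (by linarith)
    have h1 : 2 ^ Nat.log 2 ⌈L ^ C⌉₊ ≤ ⌈L ^ C⌉₊ := Nat.pow_log_le_self 2 h0.ne'
    have h2 : (2 : ℝ) ^ Nat.log 2 ⌈L ^ C⌉₊ ≤ ⌈L ^ C⌉₊ := by exact_mod_cast h1
    have h3 := Nat.ceil_lt_add_one (show 0 ≤ L ^ C by linarith)
    rw [hj₀, pow_succ]
    linarith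
  -- the last level
  obtain ⟨Y, hY⟩ : ∃ Y, Y = Nat.sqrt (N / (Kc * a ^ 2)) := ⟨_, rfl⟩
  obtain ⟨J, hJ⟩ : ∃ J, J = Nat.log 2 Y := ⟨_, rfl⟩
  have hKa : 0 < Kc * a ^ 2 := by positivity
  have hJ2 : S ≤ 2 * a * Kc * 2 ^ J := by
    have h1 : N / (Kc * a ^ 2) < (Y + 1) ^ 2 := by rw [hY]; exact Nat.lt_succ_sqrt' _
    have h2 : Y < 2 ^ (J + 1) := by rw [hJ]; exact Nat.lt_pow_succ_log_self (by norm_num) _
    have h3 : N < (2 ^ (J + 1)) ^ 2 * (Kc * a ^ 2) := by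
      have h4 : N / (Kc * a ^ 2) < (2 ^ (J + 1)) ^ 2 := h1.trans_le (Nat.pow_le_pow_left h2 2)
      rwa [Nat.div_lt_iff_lt_mul hKa] at h4
    have h5 : (N : ℝ) ≤ (2 ^ (J + 1)) ^ 2 * (Kc * a ^ 2) := by exact_mod_cast h3.le
    rw [hS]
    apply Real.sqrt_le_iff.2
    refine ⟨by positivity, h5.trans ?_⟩
    calc ((2 : ℝ) ^ (J + 1)) ^ 2 * ((Kc : ℝ) * (a : ℝ) ^ 2) = (2 * (a : ℝ) * 2 ^ J) ^ 2 * ((Kc : ℝ) * 1) := by ring
      _ ≤ (2 * (a : ℝ) * 2 ^ J) ^ 2 * ((Kc : ℝ) * Kc) := by gcongr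
      _ = (2 * (a : ℝ) * Kc * 2 ^ J) ^ 2 := by ring
  have hjJ : j₀ ≤ J := by
    have h1 : (2 : ℝ) ^ j₀ ≤ 2 ^ J := by
      have h2 : (2 * a * Kc) * (4 * L ^ C) ≤ (2 * a * Kc) * 2 ^ J := by
        calc (2 * (a : ℝ) * Kc) * (4 * L ^ C) = 8 * (a * Kc) * L ^ C := by ring
          _ ≤ L * L ^ C := by
              apply mul_le_mul_of_nonneg_right _ (by positivity)
              linarith
          _ = L ^ (C + 1) := by ring
          _ ≤ S := hLp2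
          _ ≤ _ := hJ2
      have h3 := le_of_mul_le_mul_left h2 (by positivity)
      linarith
    have h2 : 2 ^ j₀ ≤ 2 ^ J := by exact_mod_cast h1
    exact (Nat.pow_le_pow_iff_right (by norm_num)).1 h2
  have hJ1 : Kc * (a * 2 ^ J) ^ 2 ≤ N := by
    have hY0 : Y ≠ 0 := by
      intro h0
      rw [h0, Nat.log_zero_right] at hJ
      rw [hJ] at hjJ
      omega
    have h1 : 2 ^ J ≤ Y := by rw [hJ]; exact Nat.pow_log_le_self 2 hY0
    have h2 : Y ^ 2 ≤ N / (Kc * a ^ 2) := by rw [hY]; exact Nat.sqrt_le' _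
    calc Kc * (a * 2 ^ J) ^ 2 = (2 ^ J) ^ 2 * (Kc * a ^ 2) := by ring
      _ ≤ (N / (Kc * a ^ 2)) * (Kc * a ^ 2) := Nat.mul_le_mul_right _ ((Nat.pow_le_pow_left h1 2).trans h2)
      _ ≤ N := Nat.div_mul_le_self _ _
  have hlev : ∀ j, j ≤ J → Kc * (a * 2 ^ j) ^ 2 ≤ N ∧ (2 ^ j) ^ 2 ≤ N := by
    intro j hj
    have h1 : Kc * (a * 2 ^ j) ^ 2 ≤ N := by
      refine le_trans ?_ hJ1
      apply Nat.mul_le_mul_left
      apply Nat.pow_le_pow_left
      exact Nat.mul_le_mul_left _ (Nat.pow_le_pow_right (by norm_num) hj)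
    refine ⟨h1, le_trans ?_ h1⟩
    calc (2 ^ j) ^ 2 = 1 * (1 * 2 ^ j) ^ 2 := by ring
      _ ≤ Kc * (a * 2 ^ j) ^ 2 := by
          apply Nat.mul_le_mul hKc1n
          apply Nat.pow_le_pow_left
          exact Nat.mul_le_mul_right _ (by omega)
  have hJL : (J : ℝ) ≤ 2 * L := by
    have h1 : (2 : ℝ) ^ J ≤ N := by
      have h2 := (hlev J le_rfl).2
      have h3 : 2 ^ J ≤ N := le_trans (Nat.le_self_pow (by norm_num) _) h2
      exact_mod_cast h3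
    have h2 := Real.log_le_log (by positivity) h1
    rw [Real.log_pow, ← hL] at h2
    have h3 := Real.log_two_gt_d9
    have h4 : (0 : ℝ) ≤ J := Nat.cast_nonneg _
    nlinarith
  obtain ⟨E, hE⟩ : ∃ E : ℕ → Finset ℕ, E = fun j => mjr M N (a * 2 ^ j) := ⟨_, rfl⟩
  have hEE : ∀ j, E j ⊆ E (j + 1) := by
    intro j
    rw [hE]
    apply mjr_mono
    exact Nat.mul_le_mul_left _ (Nat.pow_le_pow_right (by norm_num) (by omega))
  have hEM : ∀ j, E j ⊆ range M := by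
    intro j
    rw [hE]
    exact mjr_sub _ _ _
  -- the kernel
  have hker : ∀ j, j ≤ J → ∀ τ : ℝ, ∑ t ∈ E j, ‖SS D (τ + t / M)‖ ≤
      K * ((1 + L) * (D.card * ((a : ℝ) * 2 ^ j) ^ (2 * κ))) := by
    intro j hj τ
    have h1 := hKern.maj (a * 2 ^ j) (by have : 0 < a * 2 ^ j := by positivity
                                         omega) (by
      have h2 : ((Kc * (a * 2 ^ j) ^ 2 : ℕ) : ℝ) ≤ N := by exact_mod_cast (hlev j hj).1
      push_cast at h2 ⊢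
      refine le_trans ?_ h2
      gcongr) τ
    rw [← hL] at h1
    push_cast at h1
    rw [hE]
    exact h1
  have hD0 : (0 : ℝ) ≤ D.card := Nat.cast_nonneg _
  obtain ⟨Q, hQ⟩ : ∃ Q, Q = (D.card : ℝ) * (N / L ^ A) := ⟨_, rfl⟩
  have hQ0 : 0 ≤ Q := by rw [hQ]; positivity
  -- the first term
  have t0 : ∑ n ∈ D, ‖Pt α γ G y N M (E j₀) n‖ ^ 2 ≤ (M : ℝ) ^ 2 * Q / 9 := by
    obtain ⟨R, hR⟩ : ∃ R, R = a * 2 ^ j₀ := ⟨_, rfl⟩
    have hRr : (R : ℝ) = a * 2 ^ j₀ := by rw [hR]; push_cast; ring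
    have hR1 : 1 ≤ R := by
      have : 0 < a * 2 ^ j₀ := by positivity
      omega
    have hR1r : (1 : ℝ) ≤ R := by exact_mod_cast hR1
    have hRL : (R : ℝ) ≤ L ^ (C + 1) := by
      rw [hRr]
      calc (a : ℝ) * 2 ^ j₀ ≤ a * (4 * L ^ C) := by gcongr
        _ = (4 * a) * L ^ C := by ring
        _ ≤ L * L ^ C := by
            apply mul_le_mul_of_nonneg_right _ (by positivity)
            linarith
        _ = _ := by ring
    have hR2 : R ^ 2 ≤ N := by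
      have := (hlev j₀ hjJ).1
      rw [← hR] at this
      exact le_trans (Nat.le_mul_of_pos_left _ hKc1n) this
    have hW0 : ∀ τ : ℝ, ∑ t ∈ E j₀, ‖SS D (τ + t / M)‖ ≤ K * (2 * L * (D.card * R)) := by
      intro τ
      refine (hker j₀ hjJ τ).trans ?_
      rw [← hRr]
      have h1 : (R : ℝ) ^ (2 * κ) ≤ R := by
        calc (R : ℝ) ^ (2 * κ) ≤ (R : ℝ) ^ (1 : ℝ) := Real.rpow_le_rpow_of_exponent_le hR1r (by linarith)
          _ = R := Real.rpow_one _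
      gcongr
    refine (part0 (E j₀) hW0).trans ?_
    have h1 : ∑ t ∈ E j₀, ‖Gh G N ((t : ℝ) / M)‖ ^ 2 * ‖Tq α γ y ((t : ℝ) / M)‖ ^ 2 ≤
        (12 * C₁ * (R : ℝ) ^ 3) * ((8 * (R : ℝ) ^ 2 * (N / L ^ U)) ^ 2 * N) := by
      have h2 : ∀ t ∈ E j₀, ‖Gh G N ((t : ℝ) / M)‖ ^ 2 * ‖Tq α γ y ((t : ℝ) / M)‖ ^ 2 ≤
          (8 * (R : ℝ) ^ 2 * (N / L ^ U)) ^ 2 * N := by
        intro t ht
        apply mul_le_mul _ _ (sq_nonneg _) (sq_nonneg _)
        · apply pow_le_pow_left₀ (norm_nonneg _)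
          rw [hE] at ht
          simp only [← hR] at ht
          refine (Gh_maj hAp (by rw [← hL]; exact hRL) hN1 ht (by rw [← hL]; exact hL0.le)).trans ?_
          rw [← hL]
          have h3 : 1 + 7 * (R : ℝ) ≤ 8 * R := by linarith
          calc (R : ℝ) * ((N / L ^ U) * (1 + 7 * R)) ≤ R * ((N / L ^ U) * (8 * R)) := by gcongr
            _ = _ := by ring
        · have h3 : ‖Tq α γ y ((t : ℝ) / M)‖ ≤ y := by
            unfold Tq
            refine (norm_sum_le _ _).trans ?_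
            simp only [Pool.Agent.H807R2.Dav.norm_ee, sum_const, nsmul_eq_mul, mul_one, Nat.card_Icc,
              Nat.add_sub_cancel]
            exact le_rfl
          calc ‖Tq α γ y ((t : ℝ) / M)‖ ^ 2 ≤ (y : ℝ) ^ 2 := pow_le_pow_left₀ (norm_nonneg _) h3 2
            _ ≤ N := by exact_mod_cast hy
      refine (sum_le_sum h2).trans ?_
      rw [sum_const, nsmul_eq_mul]
      apply mul_le_mul_of_nonneg_right _ (by positivity)
      have h3 : ((E j₀).card : ℝ) ≤ R * ((R + 3) * (2 * (M * (R / N)) + 1)) := by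
        rw [hE]
        simp only [← hR]
        exact card_mjr (by omega) hN1 hR2
      refine h3.trans ?_
      have h4 : 2 * ((M : ℝ) * (R / N)) + 1 ≤ 3 * C₁ * R := by
        have h5 : (M : ℝ) * (R / N) ≤ C₁ * R := by
          rw [mul_div_assoc', div_le_iff₀ hN0]
          nlinarith
        have h6 : (1 : ℝ) ≤ C₁ * R := by nlinarith
        linarith
      calc (R : ℝ) * ((R + 3) * (2 * (M * (R / N)) + 1)) ≤ R * ((4 * R) * (3 * C₁ * R)) := by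
            gcongr
            linarith
        _ = _ := by ring
    calc K * (2 * L * (D.card * R)) * ∑ t ∈ E j₀, ‖Gh G N ((t : ℝ) / M)‖ ^ 2 * ‖Tq α γ y ((t : ℝ) / M)‖ ^ 2 ≤
          K * (2 * L * (D.card * R)) * ((12 * C₁ * (R : ℝ) ^ 3) * ((8 * (R : ℝ) ^ 2 * (N / L ^ U)) ^ 2 * N)) := by
          apply mul_le_mul_of_nonneg_left h1 (by positivity)
      _ = (1536 * (K * C₁) * L * (R : ℝ) ^ 8) * (D.card * N * N ^ 2) / L ^ (2 * U) := by
          rw [mul_comm 2 U, pow_mul]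
          field_simp
          ring
      _ ≤ (1536 * (K * C₁) * L * (L ^ (C + 1)) ^ 8) * (D.card * N * M ^ 2) / L ^ (2 * U) := by gcongr
      _ ≤ (L * L * (L ^ (C + 1)) ^ 8) * (D.card * N * M ^ 2) / L ^ (2 * U) / 9 := by
          rw [div_div]
          rw [div_le_div_iff₀ (by positivity) (by positivity)]
          have h5 : 9 * (1536 * (K * C₁)) ≤ L := by linarith
          have h6 : 0 ≤ L * (L ^ (C + 1)) ^ 8 * (D.card * N * M ^ 2) * L ^ (2 * U) := by positivity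
          nlinarith
      _ ≤ (M : ℝ) ^ 2 * Q / 9 := by
          apply div_le_div_of_nonneg_right _ (by norm_num)
          rw [hQ, div_le_iff₀ (by positivity)]
          have h5 : L * L * (L ^ (C + 1)) ^ 8 * L ^ A ≤ L ^ (2 * U) := by
            calc L * L * (L ^ (C + 1)) ^ 8 * L ^ A = L ^ (8 * C + 10 + A) := by
                  rw [← pow_mul]
                  ring
              _ ≤ _ := pow_le_pow_right₀ hL1 (by omega)
          have h6 : (M : ℝ) ^ 2 * (D.card * (N / L ^ A)) * L ^ (2 * U) =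
              (D.card * N * M ^ 2) * (L ^ (2 * U) / L ^ A) := by
            field_simp
          rw [h6]
          have h7 : L * L * (L ^ (C + 1)) ^ 8 ≤ L ^ (2 * U) / L ^ A := by
            rw [le_div_iff₀ (by positivity)]
            exact h5
          calc L * L * (L ^ (C + 1)) ^ 8 * (D.card * N * M ^ 2) ≤ (L ^ (2 * U) / L ^ A) * (D.card * N * M ^ 2) := by
                gcongr
            _ = _ := by ring
  -- the terms in the middle
  have tj : ∀ j ∈ Ico j₀ J, ∑ n ∈ D, ‖Pt α γ G y N M (E (j + 1) \ E j) n‖ ^ 2 ≤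
      (K * (2 * L) * (400 * (2 * L)) * (2 * a)) * (D.card * N / L ^ (A + 20)) * (M * (N * L ^ 4)) := by
    intro j hj
    rw [mem_Ico] at hj
    have hjr : L ^ C ≤ (2 : ℝ) ^ j := hj1.trans (pow_le_pow_right₀ (by norm_num) hj.1)
    have h2j : (0 : ℝ) < 2 ^ j := by positivity
    have hW : ∀ τ : ℝ, ∑ t ∈ E (j + 1) \ E j, ‖SS D (τ + t / M)‖ ≤
        K * (2 * L * (D.card * ((2 * a) * ((2 : ℝ) ^ j) ^ (2 * κ)))) := by
      intro τ
      have h1 : ∑ t ∈ E (j + 1) \ E j, ‖SS D (τ + t / M)‖ ≤ ∑ t ∈ E (j + 1), ‖SS D (τ + t / M)‖ :=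
        sum_le_sum_of_subset_of_nonneg sdiff_subset fun _ _ _ => norm_nonneg _
      refine (h1.trans (hker (j + 1) (by omega) τ)).trans ?_
      have h2 : ((a : ℝ) * 2 ^ (j + 1)) ^ (2 * κ) ≤ (2 * a) * ((2 : ℝ) ^ j) ^ (2 * κ) := by
        have e : (a : ℝ) * 2 ^ (j + 1) = (2 * a) * 2 ^ j := by ring
        rw [e, Real.mul_rpow (by positivity) (by positivity)]
        apply mul_le_mul_of_nonneg_right _ (by positivity)
        calc (2 * (a : ℝ)) ^ (2 * κ) ≤ (2 * (a : ℝ)) ^ (1 : ℝ) :=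
              Real.rpow_le_rpow_of_exponent_le (by linarith) (by linarith)
          _ = _ := Real.rpow_one _
      gcongr
    have hΘ : ∀ t ∈ E (j + 1) \ E j, ‖Tq α γ y ((t : ℝ) / M)‖ ^ 2 ≤ 400 * (2 * L) * (N / 2 ^ j) := by
      intro t ht
      rw [mem_sdiff] at ht
      have h1 := Tq_le hα (γ := γ) (R := 2 ^ j) (Nat.one_le_two_pow) (hlev j (by omega)).2 hy (hEM _ ht.1) (by
        have h2 := ht.2
        rw [hE] at h2
        rw [← ha]
        exact h2)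
      refine h1.trans ?_
      rw [← hL]
      push_cast
      gcongr
    refine (part1 (E (j + 1) \ E j) (sdiff_subset.trans (hEM _)) hW (by positivity) (by positivity) hΘ hNM hG).trans ?_
    have h3 : ((2 : ℝ) ^ j) ^ (2 * κ) / 2 ^ j ≤ 1 / L ^ (A + 20) := by
      have e1 : ((2 : ℝ) ^ j) ^ (2 * κ) / 2 ^ j = 1 / ((2 : ℝ) ^ j) ^ ν := by
        rw [hν, Real.rpow_sub h2j, Real.rpow_one, one_div_div]
      rw [e1]
      apply one_div_le_one_div_of_le (by positivity)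
      calc L ^ (A + 20) = L ^ ((A : ℝ) + 20) := by
            rw [← Real.rpow_natCast]
            push_cast
            rfl
        _ ≤ L ^ (C * ν) := Real.rpow_le_rpow_of_exponent_le hL1 hCν
        _ = (L ^ C) ^ ν := by rw [Real.rpow_mul hL0.le, Real.rpow_natCast]
        _ ≤ ((2 : ℝ) ^ j) ^ ν := Real.rpow_le_rpow (by positivity) hjr hν0.le
    calc K * (2 * L * (D.card * ((2 * a) * ((2 : ℝ) ^ j) ^ (2 * κ)))) * (400 * (2 * L) * (N / 2 ^ j) * (M * (N * (L ^ 2) ^ 2)))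
        = (K * (2 * L) * (400 * (2 * L)) * (2 * a)) * (D.card * N * (((2 : ℝ) ^ j) ^ (2 * κ) / 2 ^ j)) * (M * (N * L ^ 4)) := by
          ring
      _ ≤ (K * (2 * L) * (400 * (2 * L)) * (2 * a)) * (D.card * N * (1 / L ^ (A + 20))) * (M * (N * L ^ 4)) := by
          gcongr
      _ = _ := by ring
  have t1 : ∑ n ∈ D, ‖∑ j ∈ Ico j₀ J, Pt α γ G y N M (E (j + 1) \ E j) n‖ ^ 2 ≤ (M : ℝ) ^ 2 * Q / 9 := by
    obtain ⟨Z, hZ⟩ : ∃ Z, Z = (K * (2 * L) * (400 * (2 * L)) * (2 * a)) * (D.card * N / L ^ (A + 20)) * (M * (N * L ^ 4)) :=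
      ⟨_, rfl⟩
    rw [← hZ] at tj
    have hZ0 : 0 ≤ Z := by rw [hZ]; positivity
    have hcard : ((Ico j₀ J).card : ℝ) ≤ 2 * L := by
      rw [Nat.card_Ico]
      have : ((J - j₀ : ℕ) : ℝ) ≤ J := by exact_mod_cast Nat.sub_le _ _
      linarith
    have h1 : ∀ n ∈ D, ‖∑ j ∈ Ico j₀ J, Pt α γ G y N M (E (j + 1) \ E j) n‖ ^ 2 ≤
        (2 * L) * ∑ j ∈ Ico j₀ J, ‖Pt α γ G y N M (E (j + 1) \ E j) n‖ ^ 2 := by
      intro n _
      have h2 : ‖∑ j ∈ Ico j₀ J, Pt α γ G y N M (E (j + 1) \ E j) n‖ ^ 2 ≤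
          (∑ j ∈ Ico j₀ J, ‖Pt α γ G y N M (E (j + 1) \ E j) n‖) ^ 2 :=
        pow_le_pow_left₀ (norm_nonneg _) (norm_sum_le _ _) 2
      refine (h2.trans sq_sum_le_card_mul_sum_sq).trans ?_
      exact mul_le_mul_of_nonneg_right hcard (sum_nonneg fun _ _ => sq_nonneg _)
    calc ∑ n ∈ D, ‖∑ j ∈ Ico j₀ J, Pt α γ G y N M (E (j + 1) \ E j) n‖ ^ 2 ≤
          ∑ n ∈ D, (2 * L) * ∑ j ∈ Ico j₀ J, ‖Pt α γ G y N M (E (j + 1) \ E j) n‖ ^ 2 := sum_le_sum h1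
      _ = (2 * L) * ∑ j ∈ Ico j₀ J, ∑ n ∈ D, ‖Pt α γ G y N M (E (j + 1) \ E j) n‖ ^ 2 := by
          rw [← mul_sum, sum_comm]
      _ ≤ (2 * L) * ∑ _j ∈ Ico j₀ J, Z := by
          apply mul_le_mul_of_nonneg_left (sum_le_sum tj) (by positivity)
      _ = (2 * L) * ((Ico j₀ J).card * Z) := by rw [sum_const, nsmul_eq_mul]
      _ ≤ (2 * L) * ((2 * L) * Z) := by gcongr
      _ = (12800 * (a * K)) * (D.card * N * (N * M)) * (L ^ 8 / L ^ (A + 20)) := by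
          rw [hZ]
          ring
      _ ≤ (12800 * (a * K)) * (D.card * N * (M * M)) * (L ^ 8 / L ^ (A + 20)) := by gcongr
      _ ≤ (M : ℝ) ^ 2 * Q / 9 := by
          have e1 : L ^ 8 / L ^ (A + 20) = 1 / (L ^ A * L ^ 12) := by
            rw [div_eq_div_iff (by positivity) (by positivity)]
            ring
          rw [e1, hQ]
          have h4 : 9 * (12800 * (a * K)) ≤ L ^ 12 := by
            have h5 : L ≤ L ^ 12 := le_self_pow₀ hL1 (by norm_num)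
            linarith
          have e2 : (M : ℝ) ^ 2 * (D.card * (N / L ^ A)) / 9 = (D.card * N * (M * M)) * (1 / (9 * L ^ A)) := by
            field_simp
          have e3 : (12800 * (a * K)) * (D.card * N * (M * M)) * (1 / (L ^ A * L ^ 12)) =
              (D.card * N * (M * M)) * ((12800 * (a * K)) / (L ^ A * L ^ 12)) := by ring
          rw [e2, e3]
          apply mul_le_mul_of_nonneg_left _ (by positivity)
          rw [div_le_div_iff₀ (by positivity) (by positivity), one_mul]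
          have : 0 < L ^ A := by positivity
          nlinarith
  -- the last term
  have t2 : ∑ n ∈ D, ‖Pt α γ G y N M (range M \ E J) n‖ ^ 2 ≤ (M : ℝ) ^ 2 * Q / 9 := by
    have hW : ∀ τ : ℝ, ∑ t ∈ range M \ E J, ‖SS D (τ + t / M)‖ ≤ K * (D.card * (N : ℝ) ^ κ) := by
      intro τ
      have h1 : ∑ t ∈ range M \ E J, ‖SS D (τ + t / M)‖ ≤ ∑ t ∈ range M, ‖SS D (τ + t / M)‖ :=
        sum_le_sum_of_subset_of_nonneg sdiff_subset fun _ _ _ => norm_nonneg _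
      exact h1.trans (hKern.all τ)
    have hΘ : ∀ t ∈ range M \ E J, ‖Tq α γ y ((t : ℝ) / M)‖ ^ 2 ≤ 400 * (2 * L) * (2 * a * Kc * S) := by
      intro t ht
      rw [mem_sdiff] at ht
      have h1 := Tq_le hα (γ := γ) (R := 2 ^ J) (Nat.one_le_two_pow) (hlev J le_rfl).2 hy ht.1 (by
        have h2 := ht.2
        rw [hE] at h2
        rw [← ha]
        exact h2)
      refine h1.trans ?_
      rw [← hL]
      push_cast
      have h3 : (N : ℝ) / 2 ^ J ≤ 2 * a * Kc * S := by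
        rw [div_le_iff₀ (by positivity), ← hSS]
        calc S * S ≤ (2 * a * Kc * 2 ^ J) * S := by gcongr
          _ = _ := by ring
      gcongr
    refine (part1 (range M \ E J) sdiff_subset hW (by positivity) (by positivity) hΘ hNM hG).trans ?_
    have h4 : (N : ℝ) ^ κ * S * L ^ (A + 6) ≤ N := by
      calc (N : ℝ) ^ κ * S * L ^ (A + 6) ≤ (N : ℝ) ^ κ * S * (N : ℝ) ^ (1 / 2 - κ) := by gcongr
        _ = ((N : ℝ) ^ κ * (N : ℝ) ^ (1 / 2 - κ)) * (N : ℝ) ^ (1 / 2 : ℝ) := by rw [← hSr]; ring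
        _ = N := by
            rw [← Real.rpow_add hN0, ← Real.rpow_add hN0]
            have : κ + (1 / 2 - κ) + 1 / 2 = 1 := by ring
            rw [this, Real.rpow_one]
    calc K * (D.card * (N : ℝ) ^ κ) * (400 * (2 * L) * (2 * a * Kc * S) * (M * (N * (L ^ 2) ^ 2)))
        = (1600 * (a * K * Kc)) * L ^ 5 * ((N : ℝ) ^ κ * S) * (D.card * N * M) := by ring
      _ ≤ (L / 9) * L ^ 5 * ((N : ℝ) ^ κ * S) * (D.card * N * M) := by
          gcongr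
          linarith
      _ = ((N : ℝ) ^ κ * S * L ^ (A + 6)) * (D.card * N * M) / L ^ A / 9 := by
          rw [pow_add L A 6]
          field_simp
      _ ≤ N * (D.card * N * M) / L ^ A / 9 := by gcongr
      _ ≤ M * (D.card * N * M) / L ^ A / 9 := by gcongr
      _ = _ := by
          rw [hQ]
          ring
  -- the sum
  have hsum : (M : ℝ) ^ 2 * ∑ n ∈ D, ‖cvs α γ G y N n‖ ^ 2 ≤ (M : ℝ) ^ 2 * Q := by
    have h1 : ∀ n ∈ D, (M : ℝ) ^ 2 * ‖cvs α γ G y N n‖ ^ 2 ≤ 3 * (‖Pt α γ G y N M (E j₀) n‖ ^ 2 +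
        ‖∑ j ∈ Ico j₀ J, Pt α γ G y N M (E (j + 1) \ E j) n‖ ^ 2 + ‖Pt α γ G y N M (range M \ E J) n‖ ^ 2) := by
      intro n hn
      have h2 := cvs_inv (α := α) (γ := γ) (G := G) (y := y) (N := N) (M := M) (by omega) (n := n) (hcl n hn)
      have h3 : (M : ℂ) * cvs α γ G y N n = Pt α γ G y N M (range M) n := h2
      have h4 : (M : ℝ) ^ 2 * ‖cvs α γ G y N n‖ ^ 2 = ‖Pt α γ G y N M (range M) n‖ ^ 2 := by
        rw [← h3, norm_mul, Complex.norm_natCast, mul_pow]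
      rw [h4, Pt_split E hEE hEM hjJ n]
      exact norm3 _ _ _
    rw [mul_sum]
    refine (sum_le_sum h1).trans ?_
    rw [← mul_sum, sum_add_distrib, sum_add_distrib]
    linarith
  have hM2 : 0 < (M : ℝ) ^ 2 := by positivity
  have := le_of_mul_le_mul_left hsum hM2
  rw [hQ] at this
  exact this

end Pool.Agent.K9h59.CF
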