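import Pool.Agent.R460.SB.Pars

set_option autoImplicit false

/-! A test of Schur for the mean square over a set of integers, and the inversion formula. -/

namespace Pool.Agent.K9h59.CF

open Finset
open Pool.Agent.H807R2.Dav (ee norm_ee ee_add ee_zero)
open Pool.Agent.Y697.GJ (conj_ee geo_sum)
open Pool.Agent.R460.SB (cvs)

/-- the exponential sum over a set -/
noncomputable def SS (D : Finset ℤ) (x : ℝ) : ℂ := ∑ n ∈ D, ee (n * x)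

lemma conj_SS (D : Finset ℤ) (x : ℝ) : (starRingEnd ℂ) (SS D x) = SS D (-x) := by
  unfold SS
  rw [map_sum]
  refine sum_congr rfl fun n _ => ?_
  rw [conj_ee, mul_neg]

lemma norm_SS_neg (D : Finset ℤ) (x : ℝ) : ‖SS D (-x)‖ = ‖SS D x‖ := by
  rw [← conj_SS, RCLike.norm_conj]

theorem schur {ι : Type*} (I : Finset ι) (D : Finset ℤ) (c : ι → ℂ) (x : ι → ℝ) (W : ℝ)
    (hW : ∀ i ∈ I, ∑ j ∈ I, ‖SS D (x i - x j)‖ ≤ W) :
    ∑ n ∈ D, ‖∑ i ∈ I, c i * ee (n * x i)‖ ^ 2 ≤ W * ∑ i ∈ I, ‖c i‖ ^ 2 := by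
  have h1 : ∀ n : ℤ, ((‖∑ i ∈ I, c i * ee (n * x i)‖ : ℝ) : ℂ) ^ 2 =
      ∑ i ∈ I, ∑ j ∈ I, c i * (starRingEnd ℂ) (c j) * ee (n * (x i - x j)) := by
    intro n
    rw [← Complex.ofReal_pow, ← Complex.normSq_eq_norm_sq, ← Complex.mul_conj, map_sum, sum_mul_sum]
    refine sum_congr rfl fun i _ => sum_congr rfl fun j _ => ?_
    rw [map_mul, conj_ee, mul_sub, sub_eq_add_neg, ee_add]
    ring
  have h2 : ((∑ n ∈ D, ‖∑ i ∈ I, c i * ee (n * x i)‖ ^ 2 : ℝ) : ℂ) =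
      ∑ i ∈ I, ∑ j ∈ I, c i * (starRingEnd ℂ) (c j) * SS D (x i - x j) := by
    push_cast
    rw [sum_congr rfl fun n _ => h1 n, sum_comm]
    refine sum_congr rfl fun i _ => ?_
    rw [sum_comm]
    refine sum_congr rfl fun j _ => ?_
    unfold SS
    rw [mul_sum]
  have h0 : 0 ≤ ∑ n ∈ D, ‖∑ i ∈ I, c i * ee (n * x i)‖ ^ 2 := sum_nonneg fun _ _ => sq_nonneg _
  have h3 : ∑ n ∈ D, ‖∑ i ∈ I, c i * ee (n * x i)‖ ^ 2 =
      ‖((∑ n ∈ D, ‖∑ i ∈ I, c i * ee (n * x i)‖ ^ 2 : ℝ) : ℂ)‖ := by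
    rw [Complex.norm_real, Real.norm_of_nonneg h0]
  have hsym : ∀ i j, ‖SS D (x i - x j)‖ = ‖SS D (x j - x i)‖ := by
    intro i j
    rw [← norm_SS_neg, neg_sub]
  rw [h3, h2]
  calc ‖∑ i ∈ I, ∑ j ∈ I, c i * (starRingEnd ℂ) (c j) * SS D (x i - x j)‖
      ≤ ∑ i ∈ I, ∑ j ∈ I, ((‖c i‖ ^ 2 / 2) * ‖SS D (x i - x j)‖ + (‖c j‖ ^ 2 / 2) * ‖SS D (x i - x j)‖) := by
        refine (norm_sum_le _ _).trans (sum_le_sum fun i _ => (norm_sum_le _ _).trans (sum_le_sum fun j _ => ?_))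
        rw [norm_mul, norm_mul, RCLike.norm_conj, ← add_mul]
        apply mul_le_mul_of_nonneg_right _ (norm_nonneg _)
        nlinarith [sq_nonneg (‖c i‖ - ‖c j‖)]
    _ = ∑ i ∈ I, ‖c i‖ ^ 2 * ∑ j ∈ I, ‖SS D (x i - x j)‖ := by
        simp only [sum_add_distrib]
        have e : ∑ i ∈ I, ∑ j ∈ I, (‖c j‖ ^ 2 / 2) * ‖SS D (x i - x j)‖ =
            ∑ i ∈ I, ∑ j ∈ I, (‖c i‖ ^ 2 / 2) * ‖SS D (x i - x j)‖ := by
          rw [sum_comm]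
          refine sum_congr rfl fun i _ => sum_congr rfl fun j _ => ?_
          rw [hsym j i]
        rw [e, ← sum_add_distrib]
        refine sum_congr rfl fun i _ => ?_
        rw [← sum_add_distrib, mul_sum]
        refine sum_congr rfl fun j _ => ?_
        ring
    _ ≤ ∑ i ∈ I, ‖c i‖ ^ 2 * W := by
        refine sum_le_sum fun i hi => ?_
        exact mul_le_mul_of_nonneg_left (hW i hi) (sq_nonneg _)
    _ = _ := by rw [← sum_mul, mul_comm]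

/-- the exponential sum with the weights `G` -/
noncomputable def Gh (G : ℕ → ℂ) (N : ℕ) (β : ℝ) : ℂ := ∑ l ∈ Icc 1 N, G l * ee (l * β)

/-- the quadratic sum -/
noncomputable def Tq (α γ : ℤ) (y : ℕ) (β : ℝ) : ℂ :=
  ∑ m ∈ Icc 1 y, ee (((α : ℝ) * (m : ℝ) ^ 2 + (γ : ℝ) * (m : ℝ)) * β)

lemma cvs_inv {α γ : ℤ} {G : ℕ → ℂ} {y N M : ℕ} (hM0 : M ≠ 0) {n : ℤ}
    (h : ∀ m ∈ Icc 1 y, ∀ l ∈ Icc 1 N, |(l : ℤ) + (α * (m : ℤ) ^ 2 + γ * (m : ℤ)) - n| < M) :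
    (M : ℂ) * cvs α γ G y N n =
      ∑ t ∈ range M, (Gh G N ((t : ℝ) / M) * Tq α γ y ((t : ℝ) / M)) * ee (n * (-((t : ℝ) / M))) := by
  have h1 : ∀ t : ℕ, (Gh G N ((t : ℝ) / M) * Tq α γ y ((t : ℝ) / M)) * ee (n * (-((t : ℝ) / M))) =
      ∑ m ∈ Icc 1 y, ∑ l ∈ Icc 1 N, G l *
        ee ((((l : ℤ) + (α * (m : ℤ) ^ 2 + γ * (m : ℤ)) - n : ℤ) : ℝ) * ((t : ℝ) / M)) := by
    intro t
    unfold Gh Tq
    rw [sum_mul_sum, sum_comm, sum_mul]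
    refine sum_congr rfl fun m _ => ?_
    rw [sum_mul]
    refine sum_congr rfl fun l _ => ?_
    have e : ((((l : ℤ) + (α * (m : ℤ) ^ 2 + γ * (m : ℤ)) - n : ℤ) : ℝ) * ((t : ℝ) / M)) =
        (l : ℝ) * ((t : ℝ) / M) + ((((α : ℝ) * (m : ℝ) ^ 2 + (γ : ℝ) * (m : ℝ)) * ((t : ℝ) / M)) +
          (n : ℝ) * (-((t : ℝ) / M))) := by
      push_cast
      ring
    rw [e, ee_add, ee_add]
    ring
  rw [sum_congr rfl fun t _ => h1 t, sum_comm]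
  unfold cvs
  rw [mul_sum]
  refine sum_congr rfl fun m hm => ?_
  rw [sum_comm, mul_sum]
  refine sum_congr rfl fun l hl => ?_
  rw [← mul_sum, geo_sum hM0]
  have h2 := h m hm l hl
  by_cases h3 : (l : ℤ) + (α * (m : ℤ) ^ 2 + γ * (m : ℤ)) = n
  · rw [if_pos h3, if_pos (by rw [h3, sub_self]; exact dvd_zero _)]
    ring
  · rw [if_neg h3, if_neg, mul_zero, mul_zero]
    intro h4
    apply h3
    have h5 := Int.eq_zero_of_abs_lt_dvd h4 h2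
    linarith

end Pool.Agent.K9h59.CF
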