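import Pool.Agent.R460.SC.So

set_option autoImplicit false

/-! Block sums of `(D / p) / p` with a fixed threshold and many factors. -/

namespace Pool.Agent.K9h59.CF

open Finset Filter Topology
open Pool.Agent.W468.ConjF
open Pool.Agent.H307R2.OP (J PB badCount)
open Pool.Agent.Y868.TB (Sol)

open Classical in
/-- bad kernels, with the threshold `τ` -/
noncomputable def BadT (τ : ℝ) (Δ i0 I : ℕ) : Finset ℕ := (range (Δ + 1)).filter (fun δ => Squarefree δ ∧ δ % 2 = 1 ∧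
  ∃ i ∈ Icc i0 I, ∃ r ∈ ({1, 3, 5, 7} : Finset ℕ), τ < |∑ p ∈ PB i r, J p δ / p|)

lemma badT_card {τ : ℝ} (hτ : 0 < τ) (Δ i0 I m : ℕ) (hi0 : 1 ≤ i0) (hm : 1 ≤ m) (hΔ : Δ ^ 3 ≤ (2 * 2 ^ i0) ^ m) :
    (#(BadT τ Δ i0 I) : ℝ) ≤ (I : ℝ) * (8 * (2 * m / τ ^ 2) ^ m) := by
  classical
  have hsub : BadT τ Δ i0 I ⊆ (Icc i0 I).biUnion (fun i => ({1, 3, 5, 7} : Finset ℕ).biUnion (fun r =>
      (range (Δ + 1)).filter (fun δ => Squarefree δ ∧ δ % 2 = 1 ∧ τ < |∑ p ∈ PB i r, J p δ / p|))) := by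
    intro δ hδ
    rw [BadT, mem_filter] at hδ
    obtain ⟨h1, h2, h3, i, hi, r, hr, h4⟩ := hδ
    rw [mem_biUnion]
    refine ⟨i, hi, ?_⟩
    rw [mem_biUnion]
    exact ⟨r, hr, mem_filter.2 ⟨h1, h2, h3, h4⟩⟩
  have hone : ∀ i ∈ Icc i0 I, ∀ r ∈ ({1, 3, 5, 7} : Finset ℕ),
      (#((range (Δ + 1)).filter (fun δ => Squarefree δ ∧ δ % 2 = 1 ∧ τ < |∑ p ∈ PB i r, J p δ / p|)) : ℝ) ≤
        2 * (2 * m / τ ^ 2) ^ m := by
    intro i hi r hr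
    rw [mem_Icc] at hi
    exact badCount (2 ^ i) Δ m τ (PB i r)
      ((range (Δ + 1)).filter (fun δ => Squarefree δ ∧ δ % 2 = 1 ∧ τ < |∑ p ∈ PB i r, J p δ / p|))
      (by
        calc 2 = 2 ^ 1 := rfl
          _ ≤ 2 ^ i := Nat.pow_le_pow_right (by norm_num) (by omega))
      hm (hΔ.trans (Nat.pow_le_pow_left (Nat.mul_le_mul_left 2 (Nat.pow_le_pow_right (by norm_num) hi.1)) m))
      hτ
      (by
        intro p hp
        rw [PB, mem_filter, mem_Ioc] at hp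
        refine ⟨hp.2.1, hp.1.1, ?_⟩
        have := hp.1.2
        rw [pow_succ] at this
        omega)
      (by
        intro δ hδ
        rw [mem_filter, mem_range] at hδ
        exact ⟨hδ.2.1, hδ.2.2.1, by omega, hδ.2.2.2⟩)
  have hN := (card_le_card hsub).trans (card_biUnion_le.trans (sum_le_sum fun i (_ : i ∈ Icc i0 I) => card_biUnion_le))
  have hR := (Nat.cast_le (α := ℝ)).2 hN
  simp only [Nat.cast_sum] at hR
  calc (#(BadT τ Δ i0 I) : ℝ) ≤ ∑ i ∈ Icc i0 I, ∑ r ∈ ({1, 3, 5, 7} : Finset ℕ), (#((range (Δ + 1)).filter (fun δ => Squarefree δ ∧ δ % 2 = 1 ∧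
        τ < |∑ p ∈ PB i r, J p δ / p|)) : ℝ) := hR
    _ ≤ ∑ i ∈ Icc i0 I, ∑ r ∈ ({1, 3, 5, 7} : Finset ℕ), 2 * (2 * m / τ ^ 2) ^ m :=
        sum_le_sum fun i hi => sum_le_sum fun r hr => hone i hi r hr
    _ = #(Icc i0 I) * (8 * (2 * m / τ ^ 2) ^ m) := by
        simp only [sum_const, nsmul_eq_mul, show #({1, 3, 5, 7} : Finset ℕ) = 4 from rfl]
        push_cast; ring
    _ ≤ (I : ℝ) * (8 * (2 * m / τ ^ 2) ^ m) := by
        apply mul_le_mul_of_nonneg_right _ (by positivity)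
        rw [Nat.card_Icc]
        exact_mod_cast (by omega : I + 1 - i0 ≤ I)

/-- all but few members are good on all blocks -/
theorem mid_count_T {τ : ℝ} (hτ : 0 < τ) (f : ℕ → ℤ) (H Δ i0 I m : ℕ) (W : ℝ) (hW0 : 0 ≤ W)
    (hSc : ∀ d : ℤ, (#(Sol f H d) : ℝ) ≤ W)
    (hΔ : ∀ b ∈ Icc 1 H, (f b).natAbs ≤ Δ) (hi0 : 1 ≤ i0) (hm : 1 ≤ m)
    (hΔ3 : Δ ^ 3 ≤ (2 * 2 ^ i0) ^ m) :
    ∃ E : Finset ℕ, (#E : ℝ) ≤ (4 * ((I : ℝ) * (8 * (2 * m / τ ^ 2) ^ m)) + 1) * W ∧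
      ∀ b ∈ Icc 1 H, b ∉ E → ¬ IsSquare (f b) ∧ ∀ i ∈ Icc i0 I,
        |∑ p ∈ Blk i, (jacobiSym (f b) p : ℝ) / p| ≤ 4 * τ + 4 * (Nat.log 2 Δ / 2 ^ i) := by
  classical
  set T := ({1, -1, 2, -2} : Finset ℤ) ×ˢ BadT τ Δ i0 I with hT
  set E := Sol f H 1 ∪ T.biUnion (fun t => Sol f H (t.1 * t.2)) with hE
  refine ⟨E, ?_, ?_⟩
  · have h2 : #T = 4 * #(BadT τ Δ i0 I) := by
      rw [hT, card_product, show #({1, -1, 2, -2} : Finset ℤ) = 4 from rfl]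
    calc (#E : ℝ) ≤ #(Sol f H 1) + ∑ t ∈ T, (#(Sol f H (t.1 * t.2)) : ℝ) := by
          have := (card_union_le (Sol f H 1) (T.biUnion (fun t => Sol f H (t.1 * t.2)))).trans
            (Nat.add_le_add_left card_biUnion_le _)
          exact_mod_cast this
      _ ≤ W + ∑ t ∈ T, W := add_le_add (hSc 1) (sum_le_sum fun t _ => hSc _)
      _ = (4 * (#(BadT τ Δ i0 I) : ℝ) + 1) * W := by
          rw [sum_const, nsmul_eq_mul, h2]; push_cast; ring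
      _ ≤ _ := by
          apply mul_le_mul_of_nonneg_right _ hW0
          have := badT_card hτ Δ i0 I m hi0 hm hΔ3
          linarith
  · intro b hb hbE
    rw [hE, mem_union, not_or] at hbE
    have hns : ¬ IsSquare (f b) := by
      rintro ⟨r, hr⟩
      apply hbE.1
      rw [Sol, mem_filter]
      refine ⟨hb, r.natAbs, ?_⟩
      rw [hr, one_mul, Int.natCast_natAbs, sq_abs, sq]
    have hD0 : f b ≠ 0 := by
      intro h; apply hns; rw [h]; exact ⟨0, by simp⟩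
    refine ⟨hns, fun i hi => ?_⟩
    obtain ⟨δ, s, u, hu, hD, hδ1, hδ2⟩ := kernel _ hD0
    rw [mem_Icc] at hi
    refine block_bound _ Δ (hΔ b hb) δ s u hu hD0 hD hδ2 i (by omega) _ ?_
    by_contra hcon
    push Not at hcon
    obtain ⟨r, hr, hrτ⟩ := hcon
    apply hbE.2
    have hab : (f b).natAbs = u.natAbs * s ^ 2 * δ := by
      rw [hD, Int.natAbs_mul, Int.natAbs_mul, Int.natAbs_pow]
      simp
    have hu1 : 1 ≤ u.natAbs := by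
      simp only [mem_insert, mem_singleton] at hu
      rcases hu with rfl | rfl | rfl | rfl <;> norm_num
    have hδ0 : 1 ≤ δ := by omega
    have hs0 : s ≠ 0 := by
      rintro rfl
      apply hD0; rw [hD]; simp
    have hle := hΔ b hb
    rw [hab] at hle
    rw [mem_biUnion]
    refine ⟨(u, δ), ?_, ?_⟩
    · rw [hT, mem_product]
      refine ⟨hu, ?_⟩
      show δ ∈ BadT τ Δ i0 I
      rw [BadT, mem_filter, mem_range, Nat.lt_succ_iff]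
      refine ⟨?_, hδ1, hδ2, i, mem_Icc.2 hi, r, hr, hrτ⟩
      have hs1 : 1 ≤ s ^ 2 := Nat.one_le_pow _ _ (Nat.pos_of_ne_zero hs0)
      calc δ = 1 * 1 * δ := by ring
        _ ≤ u.natAbs * s ^ 2 * δ := by gcongr
        _ ≤ Δ := hle
    · rw [Sol, mem_filter]
      refine ⟨hb, s, ?_⟩
      rw [hD]; ring

lemma mid_sum_T {τ : ℝ} (D : ℤ) (i0 I : ℕ) (L : ℝ) (hL : 0 ≤ L) (h : i0 ≤ I) (hi0 : 1 ≤ i0) (hτ : 0 ≤ τ)
    (hb : ∀ i ∈ Icc i0 I, |∑ p ∈ Blk i, (jacobiSym D p : ℝ) / p| ≤ 4 * τ + 4 * (L / 2 ^ i)) :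
    |SJ D (2 ^ i0) (2 ^ (I + 1))| ≤ 4 * (I * τ) + 8 * L / 2 ^ i0 := by
  rw [SJ_blocks D i0 I h]
  refine (abs_sum_le_sum_abs _ _).trans ((sum_le_sum hb).trans ?_)
  rw [sum_add_distrib, sum_const, nsmul_eq_mul, Nat.card_Icc, ← mul_sum]
  have h3 : ((I + 1 - i0 : ℕ) : ℝ) * (4 * τ) ≤ 4 * (I * τ) := by
    have : ((I + 1 - i0 : ℕ) : ℝ) ≤ I := by exact_mod_cast (by omega : I + 1 - i0 ≤ I)
    calc ((I + 1 - i0 : ℕ) : ℝ) * (4 * τ) ≤ I * (4 * τ) := mul_le_mul_of_nonneg_right this (by positivity)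
      _ = _ := by ring
  have h4 : ∑ i ∈ Icc i0 I, L / (2 : ℝ) ^ i ≤ 2 * L / 2 ^ i0 := by
    have e : ∀ i ∈ Icc i0 I, L / (2 : ℝ) ^ i = L * (1 / 2 ^ i) := by
      intro i _; ring
    rw [sum_congr rfl e, ← mul_sum, sum_half i0 I h]
    have h5 : L * (2 / 2 ^ i0 - 1 / 2 ^ I) = 2 * L / 2 ^ i0 - L * (1 / 2 ^ I) := by ring
    rw [h5]
    have : 0 ≤ L * (1 / (2 : ℝ) ^ I) := by positivity
    linarith
  have h5 : 8 * L / (2 : ℝ) ^ i0 = 4 * (2 * L / 2 ^ i0) := by ring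
  rw [h5]
  linarith

end Pool.Agent.K9h59.CF
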